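import Pool.Agent.DX.ADict

set_option autoImplicit false

/-!
# The first model: the Borel sets of the model are those with a code in the hull

PROOFS. `borM_sub` : induction on `BorM`.
`borM_of` : induction on `b` (`h.compl'`, `h.union'`, `h.seq` put the parts into the hull). `basic n`:
`BorM.basic n` (`mem_ptM`). `compl`: `BorM.compl _ ih`, the set is the same by extensionality. `union f`:
`BorM.union` for `D n := {x | Hu X (c x) ∧ c x ∈ (f n).set eR}`; `SeqM` with `z = val X g (nS f)`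
(in `Mod X g` by `h.sn`) and `pair_nS`.
`borM_to` : induction on `BorM`. `basic n`: `BC.basic n`, `h.basic`. `compl`: `BC.compl b`. `union D`:
`choose` codes `b n`; `z = val X g u`, `u ∈ X`. For every `n` some `p ∈ g0` has `Sec u R n (b n) p`: by `hS.sec`
otherwise some `p ∈ g0`, `ρ` in the hull with `Neg u R n (b n) ρ p`; `ρ ∈ R`, `ρ = c x`;
first case: `x ∈ D n`, the pair is in `z`, so some `q ∈ g` has `fmem .. q` (`pair_nat_iff`), contradiction
at a common extension (`fmem_mono`); second case: `fmem .. p`, so the pair is in `z`, so `x ∈ D n`,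
contradiction. Now `hS.seq` gives `s` in the hull and `p ∈ g0` with `Sec u R n (s n) p` for all `n`;
the code is `BC.union s`: for `x` with `Hu X (c x)`: `x ∈ D n` iff the pair `(n, c x)` is in `z` iff
`c x ∈ (s n).set eR` (the same argument). -/

namespace Pool.Agent.RFN.GX.DA

open Pool.Agent.ChoicelessEmb LName DX

theorem borM_sub {M : Set ZFSet.{0}} {X' : Type} {c : X' → Rl} {D : Set X'}
    (hD : BorM M c D) : D ⊆ PtM M c := by
  induction hD with
  | basic n => exact fun x hx => hx.1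
  | compl D _ _ => exact fun x hx => hx.1
  | union D _ _ ih =>
    rintro x ⟨n, hn⟩
    exact ih n hn

variable {X : Set Nm} {g : Set Cn} [hs : SB X g]
  {f0 : Rl → QS} (h : StH f0 X) (hS : StS X hs.g0)

include h hS in
theorem borM_of {X' : Type} (c : X' → Rl) {b : BC ℕ} (hb : Hu X b) :
    BorM (Mod X g) c {x | Hu X (c x) ∧ c x ∈ b.set eR} := by
  induction b with
  | basic n =>
    have h1 := BorM.basic (M := Mod X g) (c := c) n
    have e : {x | x ∈ PtM (Mod X g) c ∧ c x n = true} =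
        {x | Hu X (c x) ∧ c x ∈ (BC.basic n : BC ℕ).set eR} := by
      ext x
      exact and_congr (mem_ptM h hS) Iff.rfl
    rw [← e]
    exact h1
  | compl b ih =>
    have h1 := BorM.compl _ (ih (h.compl' b hb))
    have e : {x | x ∈ PtM (Mod X g) c ∧ x ∉ {x | Hu X (c x) ∧ c x ∈ b.set eR}} =
        {x | Hu X (c x) ∧ c x ∈ (BC.compl b).set eR} := by
      ext x
      constructor
      · rintro ⟨hx, hn⟩
        have hx' := (mem_ptM h hS).1 hx
        exact ⟨hx', fun h2 => hn ⟨hx', h2⟩⟩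
      · rintro ⟨hx, hn⟩
        exact ⟨(mem_ptM h hS).2 hx, fun h2 => hn h2.2⟩
    rw [← e]
    exact h1
  | union f ih =>
    have hf := h.union' f hb
    have h1 := BorM.union (M := Mod X g) (c := c)
      (fun n => {x | Hu X (c x) ∧ c x ∈ (f n).set eR}) (fun n => ih n (h.seq f hf n))
      ⟨val X g (nS f), ⟨nS f, h.sn f hf, rfl⟩, fun n x hx => by
        have hx' := (mem_ptM h hS).1 hx
        rw [pair_nS h hx']
        exact ⟨fun h2 => h2.2, fun h2 => ⟨hx', h2⟩⟩⟩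
    have e : {x | ∃ n, x ∈ (fun n => {x | Hu X (c x) ∧ c x ∈ (f n).set eR}) n} =
        {x | Hu X (c x) ∧ c x ∈ (BC.union f).set eR} := by
      ext x
      constructor
      · rintro ⟨n, hx, hn⟩
        exact ⟨hx, Set.mem_iUnion.2 ⟨n, hn⟩⟩
      · rintro ⟨hx, hn⟩
        obtain ⟨n, hn⟩ := Set.mem_iUnion.1 hn
        exact ⟨n, hx, hn⟩
    rw [← e]
    exact h1

include h in
private theorem sec_iff {u : Nm} (hu : u ∈ X) {R : Set Rl} {n : ℕ} {b : BC ℕ} {p : Cn} (hp : p ∈ g)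
    (hb : Sec u R n b p) {ρ : Rl} (hρR : ρ ∈ R) (hρ : Hu X ρ) :
    (natZ n).pair (rZ ρ) ∈ val X g u ↔ ρ ∈ b.set eR := by
  rw [pair_nat_iff h hu hρ]
  constructor
  · rintro ⟨q, hq, hf⟩
    by_contra hn
    obtain ⟨r, _, hrp, hrq⟩ := dir_g X hp hq
    exact (hb ρ hρR).2 hn r hrp (fmem_mono hf hrq)
  · intro hn
    exact ⟨p, hp, (hb ρ hρR).1 hn⟩

include h hS in
theorem borM_to {X' : Type} (c : X' → Rl) {R : Set Rl} (hR : Hu X R)
    (hc : ∀ ρ, Hu X ρ → (ρ ∈ R ↔ ∃ x, c x = ρ)) {D : Set X'} (hD : BorM (Mod X g) c D) :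
    ∃ b : BC ℕ, Hu X b ∧ ∀ x, x ∈ D ↔ Hu X (c x) ∧ c x ∈ b.set eR := by
  induction hD with
  | basic n =>
    refine ⟨BC.basic n, h.basic n, fun x => ?_⟩
    exact and_congr (mem_ptM h hS) Iff.rfl
  | compl D _ ih =>
    obtain ⟨b, hb, e⟩ := ih
    refine ⟨BC.compl b, h.compl b hb, fun x => ?_⟩
    constructor
    · rintro ⟨hx, hn⟩
      have hx' := (mem_ptM h hS).1 hx
      exact ⟨hx', fun h2 => hn ((e x).2 ⟨hx', h2⟩)⟩
    · rintro ⟨hx, hn⟩
      exact ⟨(mem_ptM h hS).2 hx, fun h2 => hn ((e x).1 h2).2⟩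
  | union D _ hseq ih =>
    choose b hb hbe using ih
    obtain ⟨z, ⟨u, hu, rfl⟩, hz⟩ := hseq
    have key : ∀ n, ∃ p ∈ hs.g0, Sec u R n (b n) p := by
      intro n
      rcases hS.sec u hu R hR n (b n) (hb n) with ⟨p, hp, ρ, hρ, hρR, h1⟩ | h1
      · exfalso
        obtain ⟨x, rfl⟩ := (hc ρ hρ).1 hρR
        have hxP : x ∈ PtM (Mod X g) c := (mem_ptM h hS).2 hρ
        have h2 := hz n x hxP
        rw [pair_nat_iff h hu hρ] at h2
        rcases h1 with ⟨h3, h4⟩ | ⟨h3, h4⟩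
        · obtain ⟨q, hq, hf⟩ := h2.1 ((hbe n x).2 ⟨hρ, h3⟩)
          obtain ⟨r, _, hrp, hrq⟩ := dir_g X (sub_g hp) hq
          exact h4 r hrp (fmem_mono hf hrq)
        · exact h3 ((hbe n x).1 (h2.2 ⟨p, sub_g hp, h4⟩)).2
      · exact h1
    obtain ⟨p, hp, s, hs', hsec⟩ := hS.seq u hu R hR fun n => by
      obtain ⟨p, hp, h1⟩ := key n
      exact ⟨p, hp, b n, h1⟩
    refine ⟨BC.union s, h.union s hs', fun x => ?_⟩
    constructor
    · rintro ⟨n, hn⟩
      have hx := ((hbe n x).1 hn).1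
      have hxR := (hc _ hx).2 ⟨x, rfl⟩
      refine ⟨hx, Set.mem_iUnion.2 ⟨n, ?_⟩⟩
      rw [← sec_iff h hu (sub_g hp) (hsec n) hxR hx]
      exact (hz n x ((mem_ptM h hS).2 hx)).1 hn
    · rintro ⟨hx, hn⟩
      obtain ⟨n, hn⟩ := Set.mem_iUnion.1 hn
      have hxR := (hc _ hx).2 ⟨x, rfl⟩
      refine ⟨n, (hz n x ((mem_ptM h hS).2 hx)).2 ?_⟩
      rw [sec_iff h hu (sub_g hp) (hsec n) hxR hx]
      exact hn

end Pool.Agent.RFN.GX.DA
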