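import Pool.Agent.DX.ASt

set_option autoImplicit false

/-!
# The first model: dictionary

PROOFS.
* `rZ_inj` : `natZ n ∈ rZ ρ ↔ ρ n = true` (`ZFSet.mem_range`, `natZ_injective`).
* `val_nR` : `ZFSet.ext`, `mem_val_relG`, `hs.st.natZ_mem (Or.inr ⟨n, rfl⟩)` is `val X g (nN n) = natZ n`,
  `hs.st.nat`, `top_g`.
* `pair_iff` : `Pool.Agent.RFN.val_opairN hs.st.op.atom.fil hs.st.op.pair`, `Pool.Agent.RFN.val_mem_iff
  hs.st.op.atom`, `hs.st.opair`.
* `rZ_mem_iff` : `Mod X g` is the set of the `val X g u`, `u ∈ X`. Backward: `val_nR`, `h.rn`. Forward: for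
  `rZ ρ = val X g u` take `p ∈ g0`, `σ` from `hS.real u`; then `σ = ρ`: if `σ n = true` then `fmem (nN n) u p`, so
  `natZ n ∈ val X g u`; if `σ n = false` and `natZ n ∈ val X g u` then some `q ∈ g` has `fmem (nN n) u q`
  and a common extension in `g` of `p, q` (`hs.st.op.atom.fil.dir`) gives a contradiction.
* `pair_nS`, `pair_nF`, `pair_nT` : `mem_val_relG`; the pair is `val X g (opairN (nN m) (nR ρ'))` =
  `(natZ m).pair (rZ ρ')` (`val_opairN`, `val_nR`, components in `X` by `hs.st.proj`), so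
  `m = n`, `ρ' = ρ` by `ZFSet.pair_injective`, `natZ_injective`, `rZ_inj`. -/

namespace Pool.Agent.RFN.GX.DA

open Pool.Agent.ChoicelessEmb LName DX

theorem natZ_mem_rZ {ρ : Rl} {n : ℕ} : natZ n ∈ rZ ρ ↔ ρ n = true := by
  constructor
  · intro h
    obtain ⟨⟨m, hm⟩, e⟩ := ZFSet.mem_range.1 h
    rw [← natZ_injective e]
    exact hm
  · intro h
    exact ZFSet.mem_range.2 ⟨⟨n, h⟩, rfl⟩

theorem rZ_inj : Function.Injective rZ := by
  intro ρ σ h
  funext n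
  rw [Bool.eq_iff_iff, ← natZ_mem_rZ, ← natZ_mem_rZ, h]

variable {X : Set Nm} {g : Set Cn} [hs : SB X g]

private theorem val_nN (n : ℕ) : val X g (nN n) = natZ n :=
  hs.st.natZ_mem (Or.inr ⟨n, rfl⟩)

theorem val_nR (ρ : Rl) : val X g (nR ρ) = rZ ρ := by
  ext v
  rw [nR, mem_val_relG]
  constructor
  · rintro ⟨n, hn, ⟨p, hp, h⟩, rfl⟩
    rw [val_nN]
    exact natZ_mem_rZ.2 h
  · intro hv
    obtain ⟨⟨n, hn⟩, rfl⟩ := ZFSet.mem_range.1 hv
    exact ⟨n, hs.st.nat n, ⟨⊤, top_g (X := X), hn⟩, (val_nN n).symm⟩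

theorem pair_iff {u a b : Nm} (hu : u ∈ X) (ha : a ∈ X) (hb : b ∈ X) :
    (val X g a).pair (val X g b) ∈ val X g u ↔ ∃ p ∈ g, fmem (opairN a b) u p := by
  rw [← Pool.Agent.RFN.val_opairN hs.st.op.atom.fil hs.st.op.pair ha hb]
  exact Pool.Agent.RFN.val_mem_iff hs.st.op.atom (hs.st.opair a ha b hb) hu

private theorem pair_relG {T T' : Type} {nm : T → Nm} {nm' : T' → Nm} {R : T × T' → Cn → Prop}
    {t : T} {t' : T'} (hi : ∀ s, nm s ∈ X → val X g (nm s) = val X g (nm t) → s = t)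
    (hi' : ∀ s, nm' s ∈ X → val X g (nm' s) = val X g (nm' t') → s = t')
    (ht : nm t ∈ X) (ht' : nm' t' ∈ X) :
    (val X g (nm t)).pair (val X g (nm' t')) ∈ val X g (relG (nm2 nm nm') R) ↔
      ∃ p ∈ g, R (t, t') p := by
  rw [mem_val_relG]
  constructor
  · rintro ⟨⟨s, s'⟩, hX, hR, e⟩
    have h1 := hs.st.proj _ _ hX
    unfold nm2 at e
    rw [Pool.Agent.RFN.val_opairN hs.st.op.atom.fil hs.st.op.pair h1.1 h1.2] at e
    have e1 := ZFSet.pair_injective e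
    rw [hi s h1.1 e1.1.symm, hi' s' h1.2 e1.2.symm] at hR
    exact hR
  · intro hR
    refine ⟨(t, t'), hs.st.opair _ ht _ ht', hR, ?_⟩
    unfold nm2
    rw [Pool.Agent.RFN.val_opairN hs.st.op.atom.fil hs.st.op.pair ht ht']

private theorem nN_val_inj {m n : ℕ} (h : val X g (nN m) = val X g (nN n)) : m = n := by
  rw [val_nN, val_nN] at h
  exact natZ_injective h

private theorem nR_val_inj {ρ σ : Rl} (h : val X g (nR ρ) = val X g (nR σ)) : ρ = σ := by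
  rw [val_nR, val_nR] at h
  exact rZ_inj h

variable {f0 : Rl → QS} (h : StH f0 X) (hS : StS X hs.g0)

include h hS in
theorem rZ_mem_iff {ρ : Rl} : rZ ρ ∈ Mod X g ↔ Hu X ρ := by
  constructor
  · rintro ⟨u, hu, e⟩
    obtain ⟨p, hp, σ, hσ, hD⟩ := hS.real u hu
    have key : ∀ n, ρ n = true ↔ ∃ q ∈ g, fmem (nN n) u q := by
      intro n
      rw [← natZ_mem_rZ, ← e, ← val_nN (X := X) (g := g) n]
      exact Pool.Agent.RFN.val_mem_iff hs.st.op.atom (hs.st.nat n) hu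
    suffices hh : σ = ρ by rw [← hh]; exact hσ
    funext n
    have hpg : p ∈ g := hs.st.op.atom.sub hp
    cases hn : σ n with
    | true => exact ((key n).2 ⟨p, hpg, (hD n).1 hn⟩).symm
    | false =>
      cases hr : ρ n with
      | false => rfl
      | true =>
        exfalso
        obtain ⟨q, hq, hf⟩ := (key n).1 hr
        obtain ⟨r, hr, hrp, hrq⟩ := hs.st.op.atom.fil.dir p q hpg hq
        exact (hD n).2 hn r hrp (fmem_mono hf hrq)
  · intro hρ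
    exact ⟨nR ρ, h.rn ρ hρ, val_nR ρ⟩

include h hS in
theorem mem_ptM {X' : Type} {c : X' → Rl} {x : X'} : x ∈ PtM (Mod X g) c ↔ Hu X (c x) :=
  rZ_mem_iff h hS

include h in
theorem pair_nat_iff {u : Nm} (hu : u ∈ X) {n : ℕ} {ρ : Rl} (hρ : Hu X ρ) :
    (natZ n).pair (rZ ρ) ∈ val X g u ↔ ∃ p ∈ g, fmem (opairN (nN n) (nR ρ)) u p := by
  rw [← val_nN (X := X) (g := g) n, ← val_nR (X := X) (g := g) ρ]
  exact pair_iff hu (hs.st.nat n) (h.rn ρ hρ)

include h in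
theorem pair_nS {s : ℕ → BC ℕ} {n : ℕ} {ρ : Rl} (hρ : Hu X ρ) :
    (natZ n).pair (rZ ρ) ∈ val X g (nS s) ↔ ρ ∈ (s n).set eR := by
  rw [← val_nN (X := X) (g := g) n, ← val_nR (X := X) (g := g) ρ, nS,
    pair_relG (fun m _ e => nN_val_inj e) (fun σ _ e => nR_val_inj e) (hs.st.nat n) (h.rn ρ hρ)]
  exact ⟨fun ⟨_, _, h1⟩ => h1, fun h1 => ⟨⊤, top_g (X := X), h1⟩⟩

include h in
theorem pair_nF {j : J} {ρ σ : Rl} (hρ : Hu X ρ) (hσ : Hu X σ) :
    (rZ ρ).pair (rZ σ) ∈ val X g (nF j) ↔ ∃ p ∈ g, Maps j ρ σ p := by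
  rw [← val_nR (X := X) (g := g) ρ, ← val_nR (X := X) (g := g) σ, nF,
    pair_relG (fun m _ e => nR_val_inj e) (fun σ _ e => nR_val_inj e) (h.rn ρ hρ) (h.rn σ hσ)]
  rfl

include h in
theorem pair_nT {Q : QS} {ρ σ : Rl} (hρ : Hu X ρ) (hσ : Hu X σ) :
    (rZ ρ).pair (rZ σ) ∈ val X g (nT Q) ↔ ClT Q ρ = σ := by
  rw [← val_nR (X := X) (g := g) ρ, ← val_nR (X := X) (g := g) σ, nT,
    pair_relG (fun m _ e => nR_val_inj e) (fun σ _ e => nR_val_inj e) (h.rn ρ hρ) (h.rn σ hσ)]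
  exact ⟨fun ⟨_, _, h1⟩ => h1, fun h1 => ⟨⊤, top_g (X := X), h1⟩⟩

omit hs in
/-- Two conditions in the filter have a common extension in the filter. -/
theorem dir_g (X : Set Nm) {g : Set Cn} [hs : SB X g] {p q : Cn} (hp : p ∈ g) (hq : q ∈ g) :
    ∃ r ∈ g, r ≤ p ∧ r ≤ q :=
  hs.st.op.atom.fil.dir p q hp hq

omit hs in
theorem sub_g {X : Set Nm} {g : Set Cn} [hs : SB X g] {p : Cn} (hp : p ∈ hs.g0) : p ∈ g :=
  hs.st.op.atom.sub hp

end Pool.Agent.RFN.GX.DA
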