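import Pool.Agent.DX.ABor

set_option autoImplicit false

/-!
# The first model: the generic isomorphisms

PROOF. `F s s' := (rZ s.1).pair (rZ s'.1) ∈ val X g (nF j)`, i.e. (`pair_nF`) `∃ p ∈ g, Maps j s.1 s'.1 p`
for points in the model (`mem_ptM`). Total, onto: `hI.tot`, `hI.ran` (the `σ` of `Maps j ρ σ p` is the value
of a point). Relation: two conditions `p, q ∈ g` with `Maps j s s' p`, `Maps j t t' q`: common extension `r`
(`dir_g`), `r.f j = some e`, `e ≤ c`, `e ≤ d` (`le_def`; the same `e` for both by injectivity of `some`);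
`PIso.eqv_of`. Borel sets: `D` is `{s | Hu X s.1 ∧ s.1 ∈ b.set eR}` by `borM_to` (`R := j.1.1.R`,
`h.qr`; `Hu X j.1.1` from `Hu X j`: hypothesis `hQ`); `bSet j.1.1 b` is invariant by `h.inv` and `InvM`;
`hI.bor` gives `p ∈ g0` and `b'` with `Img j b b' p`; `D' = {s' | Hu X s'.1 ∧ s'.1 ∈ b'.set eR}` (`borM_of`),
`InvM` from the first part of `Img`; for `F s s'` with `Maps j s s' q`: common extension `r` of `p, q`;
`r.f j = some e`, `e ≤ c`, so `(PI j).R e s s'` (`PIso.mono`) and the last part of `Img`. -/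

namespace Pool.Agent.RFN.GX.DA

open Pool.Agent.ChoicelessEmb LName DX

variable {X : Set Nm} {g : Set Cn} [hs : SB X g]
  {f0 : Rl → QS} (h : StH f0 X) (hS : StS X hs.g0) (hI : StI X hs.g0)

private theorem common {j : J} {p q r : Cn} {c c' : (PI j).C} (hp : r ≤ p) (hq : r ≤ q)
    (hc : p.f j = some c) (hc' : q.f j = some c') :
    ∃ d, (PI j).le d c ∧ (PI j).le d c' := by
  obtain ⟨d, hd, hdc⟩ := le_def.1 hp j c hc
  obtain ⟨d', hd', hdc'⟩ := le_def.1 hq j c' hc'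
  rw [hd] at hd'
  have e : d = d' := Option.some_injective _ hd'
  subst e
  exact ⟨d, hdc, hdc'⟩

omit hs in
theorem maps_rel (X : Set Nm) {g : Set Cn} [hs : SB X g] {j : J} {s t : j.1.1.Pt} {s' t' : j.1.2.Pt} {p q : Cn} (hp : p ∈ g) (hq : q ∈ g)
    (h1 : Maps j s.1 s'.1 p) (h2 : Maps j t.1 t'.1 q) : j.1.1.rel s t ↔ j.1.2.rel s' t' := by
  obtain ⟨s1, s1', c, e1, e1', hc, hR⟩ := h1
  obtain ⟨t1, t1', c', e2, e2', hc', hR'⟩ := h2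
  have e1 := Subtype.ext e1
  have e1' := Subtype.ext e1'
  have e2 := Subtype.ext e2
  have e2' := Subtype.ext e2'
  rw [e1, e1'] at hR
  rw [e2, e2'] at hR'
  obtain ⟨r, _, hrp, hrq⟩ := dir_g X hp hq
  obtain ⟨d, hd, hd'⟩ := common hrp hrq hc hc'
  exact (PI j).eqv_of hd hd' hR hR'

omit hs in
theorem maps_img (X : Set Nm) {g : Set Cn} [hs : SB X g] {j : J} {b b' : BC ℕ} {s : j.1.1.Pt} {s' : j.1.2.Pt} {p q : Cn} (hp : p ∈ g)
    (hq : q ∈ g) (h1 : Img j b b' p) (h2 : Maps j s.1 s'.1 q) :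
    s ∈ bSet j.1.1 b ↔ s' ∈ bSet j.1.2 b' := by
  obtain ⟨_, c, hc, hI⟩ := h1
  obtain ⟨t1, t1', c', e2, e2', hc', hR'⟩ := h2
  have e2 := Subtype.ext e2
  have e2' := Subtype.ext e2'
  rw [e2, e2'] at hR'
  obtain ⟨r, _, hrp, hrq⟩ := dir_g X hp hq
  obtain ⟨d, hd, hd'⟩ := common hrp hrq hc hc'
  exact hI d hd s s' ((PI j).mono c' d s s' hd' hR')

omit hs in
theorem maps_img' (X : Set Nm) {g : Set Cn} [hs : SB X g] {j : J} {b b' : BC ℕ} {s : j.1.1.Pt} {s' : j.1.2.Pt} {p q : Cn} (hp : p ∈ g)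
    (hq : q ∈ g) (h1 : Img' j b b' p) (h2 : Maps j s.1 s'.1 q) :
    s ∈ bSet j.1.1 b ↔ s' ∈ bSet j.1.2 b' := by
  obtain ⟨_, c, hc, hI⟩ := h1
  obtain ⟨t1, t1', c', e2, e2', hc', hR'⟩ := h2
  have e2 := Subtype.ext e2
  have e2' := Subtype.ext e2'
  rw [e2, e2'] at hR'
  obtain ⟨r, _, hrp, hrq⟩ := dir_g X hp hq
  obtain ⟨d, hd, hd'⟩ := common hrp hrq hc hc'
  exact hI d hd s s' ((PI j).mono c' d s s' hd' hR')

private theorem hR_iff (Q : QS) (ρ : Rl) : ρ ∈ Q.R ↔ ∃ x, Q.val x = ρ :=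
  ⟨fun h => ⟨⟨ρ, h⟩, rfl⟩, fun ⟨x, e⟩ => e ▸ x.2⟩

include h hS hI in
theorem iso_ok {j : J} (hj : Hu X j) (hQ : Hu X j.1.1) (hQ' : Hu X j.1.2) :
    QS.Iso (Mod X g) j.1.1 j.1.2 := by
  refine ⟨fun s s' => ∃ p ∈ g, Maps j s.1 s'.1 p, ?_, ?_, ?_, ?_, ?_, ?_⟩
  · refine ⟨val X g (nF j), ⟨nF j, h.fn j hj, rfl⟩, fun x hx x' hx' => ?_⟩
    exact (pair_nF h ((mem_ptM h hS).1 hx) ((mem_ptM h hS).1 hx')).symm
  · intro x hx
    have hx' : Hu X x.1 := (mem_ptM h hS).1 hx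
    obtain ⟨p, hp, σ, hσ, hM⟩ := hI.tot j hj x.1 hx' x.2
    obtain ⟨s, s', c, e, e', hc, hR⟩ := hM
    refine ⟨s', (mem_ptM h hS).2 ?_, p, sub_g hp, s, s', c, e, rfl, hc, hR⟩
    change Hu X s'.1
    rw [e']
    exact hσ
  · intro x' hx'
    have hx : Hu X x'.1 := (mem_ptM h hS).1 hx'
    obtain ⟨p, hp, ρ, hρ, hM⟩ := hI.ran j hj x'.1 hx x'.2
    obtain ⟨s, s', c, e, e', hc, hR⟩ := hM
    refine ⟨s, (mem_ptM h hS).2 ?_, p, sub_g hp, s, s', c, rfl, e', hc, hR⟩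
    change Hu X s.1
    rw [e]
    exact hρ
  · rintro x _ y _ x' _ y' _ ⟨p, hp, h1⟩ ⟨q, hq, h2⟩
    exact maps_rel X hp hq h1 h2
  · intro D hD hInv
    obtain ⟨b, hb, hbe⟩ := borM_to h hS j.1.1.val (h.qr _ hQ) (fun ρ _ => hR_iff _ ρ) hD
    have hb' : Inv j.1.1.rel (bSet j.1.1 b) := by
      refine h.inv _ hQ b hb fun s t hs1 ht1 hst => ?_
      have h1 := hInv s ((mem_ptM h hS).2 hs1) t ((mem_ptM h hS).2 ht1) hst
      rw [hbe, hbe] at h1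
      exact ⟨fun h2 => (h1.1 ⟨hs1, h2⟩).2, fun h2 => (h1.2 ⟨ht1, h2⟩).2⟩
    obtain ⟨p, hp, b', hb'', hM⟩ := hI.bor j hj b hb hb'
    refine ⟨_, borM_of h hS j.1.2.val hb'', ?_, ?_⟩
    · intro x hx y hy hxy
      have hx1 : Hu X (j.1.2.val x) := (mem_ptM h hS).1 hx
      have hy1 : Hu X (j.1.2.val y) := (mem_ptM h hS).1 hy
      have h1 := hM.1 x y hxy
      exact ⟨fun h2 => ⟨hy1, h1.1 h2.2⟩, fun h2 => ⟨hx1, h1.2 h2.2⟩⟩
    · rintro x hx x' hx' ⟨q, hq, h2⟩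
      have hx1 : Hu X (j.1.1.val x) := (mem_ptM h hS).1 hx
      have hx1' : Hu X (j.1.2.val x') := (mem_ptM h hS).1 hx'
      have h1 := maps_img X (sub_g hp) hq hM h2
      rw [hbe]
      exact ⟨fun h3 => ⟨hx1', h1.1 h3.2⟩, fun h3 => ⟨hx1, h1.2 h3.2⟩⟩
  · intro D hD hInv
    obtain ⟨b, hb, hbe⟩ := borM_to h hS j.1.2.val (h.qr _ hQ') (fun ρ _ => hR_iff _ ρ) hD
    have hb' : Inv j.1.2.rel (bSet j.1.2 b) := by
      refine h.inv _ hQ' b hb fun s t hs1 ht1 hst => ?_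
      have h1 := hInv s ((mem_ptM h hS).2 hs1) t ((mem_ptM h hS).2 ht1) hst
      rw [hbe, hbe] at h1
      exact ⟨fun h2 => (h1.1 ⟨hs1, h2⟩).2, fun h2 => (h1.2 ⟨ht1, h2⟩).2⟩
    obtain ⟨p, hp, b', hb'', hM⟩ := hI.bor' j hj b hb hb'
    refine ⟨_, borM_of h hS j.1.1.val hb'', ?_, ?_⟩
    · intro x hx y hy hxy
      have hx1 : Hu X (j.1.1.val x) := (mem_ptM h hS).1 hx
      have hy1 : Hu X (j.1.1.val y) := (mem_ptM h hS).1 hy
      have h1 := hM.1 x y hxy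
      exact ⟨fun h2 => ⟨hy1, h1.1 h2.2⟩, fun h2 => ⟨hx1, h1.2 h2.2⟩⟩
    · rintro x hx x' hx' ⟨q, hq, h2⟩
      have hx1 : Hu X (j.1.1.val x) := (mem_ptM h hS).1 hx
      have hx1' : Hu X (j.1.2.val x') := (mem_ptM h hS).1 hx'
      have h1 := maps_img' X (sub_g hp) hq hM h2
      rw [hbe]
      exact ⟨fun h3 => ⟨hx1', h1.1 h3.2⟩, fun h3 => ⟨hx1, h1.2 h3.2⟩⟩

end Pool.Agent.RFN.GX.DA
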