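import Pool.Agent.DX.ASt

set_option autoImplicit false

/-!
# Genericity for the isomorphisms

PROOFS. Density: `ext_dom` : `exists_some` gives `q ≤ p` with `q.f j = some c`; `(PI j).dom c s` gives
`d ≤ c` and `s'`; `upd`. `ext_bor` : the same with `(PI j).bor c (bSet j.1.1 b)` (measurable:
`BC.measurable_set eR_measurable` and `measurable_subtype_coe`); the Borel set `D'` is
`bSet j.1.2 b'` for some code `b'`: the image of `D'` in the reals is measurable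
(`MeasurableSet.subtype_image`, `j.2.2.1`), `exists_BC_real`. The clause `∀ e, le e d → ...` of `bor` is
the clause of `Img`.
`req_stI` : each field by `req_hdense` with `T := J × Rl`, `T' := Rl` and
`D (j, ρ) σ := {p | ρ ∈ j.1.1.R → Maps j ρ σ p}` (dense also when `ρ ∉ R`), or `T := J × BC ℕ`,
`T' := BC ℕ` and `D (j, b) b' := {p | Inv .. (bSet .. b) → Img j b b' p}`; the elements of the hull by
`req_hop2 Prod.mk`. -/

namespace Pool.Agent.RFN.GX.DA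

open Pool.Agent.ChoicelessEmb LName DX

theorem ext_dom (j : J) (s : j.1.1.Pt) (p : Cn) : ∃ q ≤ p, ∃ σ, Maps j s.1 σ q := by
  obtain ⟨q, hq, c, hc⟩ := exists_some p j
  obtain ⟨d, s', hd, hR⟩ := (PI j).dom c s
  obtain ⟨r, hr, hrd⟩ := upd q j d (by
    intro c' hc'
    rw [hc] at hc'
    cases hc'
    exact hd)
  exact ⟨r, le_trans hr hq, s'.1, s, s', d, rfl, rfl, hrd, hR⟩

theorem ext_ran (j : J) (s' : j.1.2.Pt) (p : Cn) : ∃ q ≤ p, ∃ ρ, Maps j ρ s'.1 q := by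
  obtain ⟨q, hq, c, hc⟩ := exists_some p j
  obtain ⟨d, s, hd, hR⟩ := (PI j).ran c s'
  obtain ⟨r, hr, hrd⟩ := upd q j d (by
    intro c' hc'
    rw [hc] at hc'
    cases hc'
    exact hd)
  exact ⟨r, le_trans hr hq, s.1, s, s', d, rfl, rfl, hrd, hR⟩

theorem measurable_bSet (Q : QS) (b : BC ℕ) : MeasurableSet (bSet Q b) :=
  measurable_subtype_coe (BC.measurable_set eR_measurable b)

theorem exists_bSet (Q : QS) (hQ : MeasurableSet Q.R) {D : Set Q.Pt} (hD : MeasurableSet D) :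
    ∃ b : BC ℕ, bSet Q b = D := by
  obtain ⟨b, hb⟩ := exists_BC_real (MeasurableSet.subtype_image hQ hD)
  refine ⟨b, ?_⟩
  ext s
  show s.1 ∈ b.set eR ↔ s ∈ D
  rw [hb]
  constructor
  · rintro ⟨t, ht, hts⟩
    have : t = s := Subtype.ext hts
    rw [← this]
    exact ht
  · intro h
    exact ⟨s, h, rfl⟩

theorem ext_bor (j : J) (b : BC ℕ) (hb : Inv j.1.1.rel (bSet j.1.1 b)) (p : Cn) :
    ∃ q ≤ p, ∃ b', Img j b b' q := by
  obtain ⟨q, hq, c, hc⟩ := exists_some p j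
  obtain ⟨d, hd, D', hD', hinv, hcl⟩ := (PI j).bor c (bSet j.1.1 b) (measurable_bSet _ b) hb
  obtain ⟨b', rfl⟩ := exists_bSet j.1.2 j.2.2.1 hD'
  obtain ⟨r, hr, hrd⟩ := upd q j d (by
    intro c' hc'
    rw [hc] at hc'
    cases hc'
    exact hd)
  exact ⟨r, le_trans hr hq, b', hinv, d, hrd, fun e he s s' hR => hcl e s s' he hR⟩

theorem ext_bor' (j : J) (b' : BC ℕ) (hb : Inv j.1.2.rel (bSet j.1.2 b')) (p : Cn) :
    ∃ q ≤ p, ∃ b, Img' j b b' q := by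
  obtain ⟨q, hq, c, hc⟩ := exists_some p j
  obtain ⟨d, hd, D, hD, hinv, hcl⟩ := (PI j).bor' c (bSet j.1.2 b') (measurable_bSet _ b') hb
  obtain ⟨b, rfl⟩ := exists_bSet j.1.1 j.2.1 hD
  obtain ⟨r, hr, hrd⟩ := upd q j d (by
    intro c' hc'
    rw [hc] at hc'
    cases hc'
    exact hd)
  exact ⟨r, le_trans hr hq, b, hinv, d, hrd, fun e he s s' hR => hcl e s s' he hR⟩

theorem req_stI : Req fun (X : Set Nm) g0 _ => StI X g0 := by
  have h1 := req_hdense (P := Cn) fun (t : J × Rl) (σ : Rl) =>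
    {p | t.2 ∈ t.1.1.1.R → Maps t.1 t.2 σ p}
  have h2 := req_hdense (P := Cn) fun (t : J × Rl) (ρ : Rl) =>
    {p | t.2 ∈ t.1.1.2.R → Maps t.1 ρ t.2 p}
  have h3 := req_hdense (P := Cn) fun (t : J × BC ℕ) (b' : BC ℕ) =>
    {p | Inv t.1.1.1.rel (bSet t.1.1.1 t.2) → Img t.1 t.2 b' p}
  have h4 := req_hdense (P := Cn) fun (t : J × BC ℕ) (b : BC ℕ) =>
    {p | Inv t.1.1.2.rel (bSet t.1.1.2 t.2) → Img' t.1 b t.2 p}
  have h5 := req_hop2 (P := Cn) (T := J) (T' := Rl) Prod.mk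
  have h6 := req_hop2 (P := Cn) (T := J) (T' := BC ℕ) Prod.mk
  refine (((h1.and h2).and (h3.and h4)).and (h5.and h6)).mono ?_
  rintro X g0 g _ ⟨⟨⟨k1, k2⟩, ⟨k3, k4⟩⟩, ⟨k5, k6⟩⟩
  refine ⟨?_, ?_, ?_, ?_⟩
  · intro j hj ρ hρ hR
    obtain ⟨p, hp, σ, hσ, h⟩ := k1 (j, ρ) (k5 j ρ hj hρ) (fun p => by
      obtain ⟨r, hr, σ, h⟩ := ext_dom j ⟨ρ, hR⟩ p
      exact ⟨r, hr, σ, fun _ => h⟩)
    exact ⟨p, hp, σ, hσ, h hR⟩
  · intro j hj σ hσ hR
    obtain ⟨p, hp, ρ, hρ, h⟩ := k2 (j, σ) (k5 j σ hj hσ) (fun p => by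
      obtain ⟨r, hr, ρ, h⟩ := ext_ran j ⟨σ, hR⟩ p
      exact ⟨r, hr, ρ, fun _ => h⟩)
    exact ⟨p, hp, ρ, hρ, h hR⟩
  · intro j hj b hb hI
    obtain ⟨p, hp, b', hb', h⟩ := k3 (j, b) (k6 j b hj hb) (fun p => by
      obtain ⟨r, hr, b', h⟩ := ext_bor j b hI p
      exact ⟨r, hr, b', fun _ => h⟩)
    exact ⟨p, hp, b', hb', h hI⟩
  · intro j hj b' hb' hI
    obtain ⟨p, hp, b, hb, h⟩ := k4 (j, b') (k6 j b' hj hb') (fun p => by
      obtain ⟨r, hr, b, h⟩ := ext_bor' j b' hI p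
      exact ⟨r, hr, b, fun _ => h⟩)
    exact ⟨p, hp, b, hb, h hI⟩

end Pool.Agent.RFN.GX.DA
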