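import Pool.Agent.DX.ASt

set_option autoImplicit false

/-!
# Genericity for reals and for sequences of Borel sets

PROOFS.
* `sec_mono` : `fmem_mono`, `le_trans`.
* `exists_dcR` : `fusion` (PA) for `W n (t : Bool) q` := (`t = true → fmem (nN n) u q`) ∧
  (`t = false → ∀ r ≤ q, ¬ fmem (nN n) u r`): for `r` either some `q ≤ r` has `fmem (nN n) u q` (`t = true`) or
  no `q ≤ r` has (`t = false`, `q = r`).
* `exists_sec` : `fusion` for `W n b q := Sec u R n b q`.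
* `sec_of_not_neg` : for `ρ ∈ R`, `ρ ∈ b.set eR`: for every `q ≤ p` not `Neg` at `q` gives `r ≤ q` with
  `fmem .. r`; so `fmem .. p` by `fmem_dense`. For `ρ ∉ b.set eR` immediate.
* `req_stS` : `real` : `req_nalt`/`req_ndec` + `req_nrefl` for `fun u (_ : Unit) σ => {p | DcR u σ p}` (dense by
  `exists_dcR`; a witness `Hu X ()` from `req_hconst`). `sec` : `req_nalt` with `T := Set Rl × ℕ × BC ℕ`,
  `T' := Rl`, `Bad := Neg`, and `sec_of_not_neg` (hull elements `(R, n, b)` by `req_hop2 Prod.mk`).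
  `seq` : (1) `req_nalt` with `T := Set Rl`, `T' := ℕ`, `Bad u R n := {p | ∀ r ≤ p, ∀ b, ¬ Sec u R n b r}`:
  the first alternative contradicts the hypothesis (a common extension in `g0` of the two
  conditions, `GFil`: `hg.fil.dir`, `hg.gen`; `sec_mono`); so some `p0 ∈ g0` satisfies: for all `r ≤ p0` and
  `n` some `q ≤ r` and `b` with `Sec u R n b q`. (2) `req_ndec` and `req_nrefl` for
  `W u R := {p | ∃ s : ℕ → BC ℕ, ∀ n, Sec u R n (s n) p}` : if `p1 ∈ g0` has no extension in `W`, take a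
  common extension of `p0` and `p1` and apply `exists_sec`: contradiction. -/

namespace Pool.Agent.RFN.GX.DA

open Pool.Agent.ChoicelessEmb LName DX

theorem sec_mono {u : Nm} {R : Set Rl} {n : ℕ} {b : BC ℕ} {p q : Cn} (hq : q ≤ p)
    (h : Sec u R n b p) : Sec u R n b q := by
  intro ρ hρ
  exact ⟨fun hb => fmem_mono ((h ρ hρ).1 hb) hq, fun hb r hr => (h ρ hρ).2 hb r (le_trans hr hq)⟩

theorem exists_dcR (u : Nm) (p : Cn) : ∃ q ≤ p, ∃ σ, DcR u σ q := by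
  refine fusion (T := Bool) (fun n t q => (t = true → fmem (nN n) u q) ∧
    (t = false → ∀ r ≤ q, ¬ fmem (nN n) u r)) ?_ p ?_
  · rintro n t p q hq ⟨h1, h2⟩
    exact ⟨fun ht => fmem_mono (h1 ht) hq, fun ht r hr => h2 ht r (le_trans hr hq)⟩
  · intro n r _
    by_cases h : ∃ q ≤ r, fmem (nN n) u q
    · obtain ⟨q, hq, hf⟩ := h
      exact ⟨q, hq, true, fun _ => hf, fun ht => absurd ht (by decide)⟩
    · exact ⟨r, le_refl r, false, fun ht => absurd ht (by decide),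
        fun _ r' hr' hf => h ⟨r', hr', hf⟩⟩

theorem exists_sec {u : Nm} {R : Set Rl} {p : Cn}
    (h : ∀ n, ∀ r ≤ p, ∃ q ≤ r, ∃ b, Sec u R n b q) :
    ∃ q ≤ p, ∃ s : ℕ → BC ℕ, ∀ n, Sec u R n (s n) q :=
  fusion (fun n b q => Sec u R n b q) (fun _ _ _ _ hq h => sec_mono hq h) p h

theorem sec_of_not_neg {u : Nm} {R : Set Rl} {n : ℕ} {b : BC ℕ} {p : Cn}
    (h : ∀ r ≤ p, ∀ ρ, ¬ Neg u R n b ρ r) : Sec u R n b p := by
  intro ρ hρ
  constructor
  · intro hb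
    refine fmem_dense fun q hq => ?_
    by_contra hno
    exact h q hq ρ ⟨hρ, Or.inl ⟨hb, fun r hr hf => hno ⟨r, hr, hf⟩⟩⟩
  · intro hb r hr hf
    exact h r hr ρ ⟨hρ, Or.inr ⟨hb, hf⟩⟩

theorem req_stS : Req fun (X : Set Nm) g0 _ => StS X g0 := by
  refine ((req_ndec (P := Cn) fun u (_ : Unit) => {p | ∃ σ, DcR u σ p}).and
    ((req_nrefl (P := Cn) fun u (_ : Unit) r σ => DcR u σ r).and
    ((req_hconst (P := Cn) ()).and
    ((req_nalt (P := Cn) (T := Set Rl × ℕ × BC ℕ) (T' := Rl)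
      fun u t ρ => {p | Neg u t.1 t.2.1 t.2.2 ρ p}).and
    ((req_hop2 (P := Cn) (Prod.mk : Set Rl → ℕ × BC ℕ → Set Rl × ℕ × BC ℕ)).and
    ((req_hop2 (P := Cn) (Prod.mk : ℕ → BC ℕ → ℕ × BC ℕ)).and
    ((Req.forall fun n : ℕ => req_hconst (P := Cn) n).and
    ((req_nalt (P := Cn) (T := Set Rl) (T' := ℕ)
      fun u R n => {p | ∀ r ≤ p, ∀ b, ¬ Sec u R n b r}).and
    ((req_ndec (P := Cn) (T := Set Rl)
      fun u R => {p | ∃ s : ℕ → BC ℕ, ∀ n, Sec u R n (s n) p}).and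
    (req_nrefl (P := Cn) (T := Set Rl) (T' := ℕ → BC ℕ)
      fun u R r s => ∀ n, Sec u R n (s n) r)))))))))).mono ?_
  rintro X g0 g hg ⟨h1, h2, h3, h4, h5, h6, h7, h8, h9, h10⟩
  refine ⟨?_, ?_, ?_⟩
  · intro u hu
    obtain ⟨p, hp, h | h⟩ := h1 u hu () h3
    · obtain ⟨σ, hσ, hd⟩ := h2 u hu () h3 p hp h
      exact ⟨p, hp, σ, hσ, hd⟩
    · obtain ⟨q, hq, hd⟩ := exists_dcR u p
      exact absurd hd (h q hq)
  · intro u hu R hR n b hb
    rcases h4 u hu (R, n, b) (h5 R (n, b) hR (h6 n b (h7 n) hb)) with ⟨p, hp, ρ, hρ, hn⟩ | ⟨p, hp, h⟩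
    · exact Or.inl ⟨p, hp, ρ, hρ, hn⟩
    · exact Or.inr ⟨p, hp, sec_of_not_neg fun r hr ρ hn => h r hr ρ hn⟩
  · intro u hu R hR hyp
    rcases h8 u hu R hR with ⟨p, hp, n, _, hn⟩ | ⟨p0, hp0, h⟩
    · exfalso
      obtain ⟨p', hp', b, hb⟩ := hyp n
      obtain ⟨r, _, hr1, hr2⟩ := hg.fil.dir p p' (hg.sub hp) (hg.sub hp')
      exact hn r hr1 b (sec_mono hr2 hb)
    · obtain ⟨p1, hp1, h11 | h11⟩ := h9 u hu R hR
      · obtain ⟨s, hs, hsec⟩ := h10 u hu R hR p1 hp1 h11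
        exact ⟨p1, hp1, s, hs, hsec⟩
      · exfalso
        obtain ⟨r, _, hr1, hr2⟩ := hg.fil.dir p0 p1 (hg.sub hp0) (hg.sub hp1)
        obtain ⟨q, hq, s, hs⟩ := exists_sec (u := u) (R := R) (p := r) (by
          intro n r' hr'
          have h12 := h r' (le_trans hr' hr1) n
          by_contra hno
          exact h12 (fun r'' hr'' b hb => hno ⟨r'', hr'', b, hb⟩))
        exact h11 q (le_trans hq hr2) ⟨s, hs⟩

end Pool.Agent.RFN.GX.DA
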