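import Pool.Agent.DX.ABor

set_option autoImplicit false

/-!
# The first model: standard quotients remain standard

PROOF. `S := {ρ | Hu X ρ ∧ ρ ∈ ClS Q}`; `BorM (Mod X g) (fun ρ => ρ) S` : `h.c3` gives a code `b` of `ClS Q` in the
hull, `borM_of` for `c = fun ρ => ρ`. `F s s' := ClT Q s.1 = s'.1`; `RelM` with `z = val X g (nT Q)` (`h.tn`,
`pair_nT`, `mem_ptM`). Total: `ClT Q s.1` is in the hull (`h.c1`) and in `ClS Q` (`(cls_spec hC).maps`).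
Onto: `h.c2`. Relation: `(cls_spec hC).iff` and `Subtype.ext_iff`. Borel: `D = {s | Hu X s.1 ∧ s.1 ∈ b.set eR}` by
`borM_to` (`R := Q.R`), invariant by `h.inv`; `h.c4` gives `b'`; `D' = {s' | Hu X s'.1 ∧ s'.1 ∈ b'.set eR}`
(`borM_of`). Backward: `borM_to` for `c = fun s : S => s.1` with `R := ClS Q` (`h.cs`), then `h.c5`;
the invariance of `D`: `Q.rel s t` gives `ClT Q s.1 = ClT Q t.1`. -/

namespace Pool.Agent.RFN.GX.DA

open Pool.Agent.ChoicelessEmb LName DX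

variable {X : Set Nm} {g : Set Cn} [hs : SB X g]
  {f0 : Rl → QS} (h : StH f0 X) (hS : StS X hs.g0)

include h hS in
theorem std_ok {Q : QS} (hQ : Hu X Q) (hR : MeasurableSet Q.R) (hC : HasCls Q) :
    Q.Standard (Mod X g) := by
  have hcl := cls_spec hC
  obtain ⟨b0, hb0, hb0e⟩ := h.c3 Q hQ hC
  refine ⟨{ρ | Hu X ρ ∧ ρ ∈ ClS Q}, ?_, fun s s' => ClT Q s.1 = s'.1, ?_, ?_, ?_, ?_, ?_, ?_⟩
  · have h1 := borM_of h hS (fun ρ : Rl => ρ) hb0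
    rw [hb0e] at h1
    exact h1
  · refine ⟨val X g (nT Q), ⟨nT Q, h.tn Q hQ, rfl⟩, ?_⟩
    intro x hx x' hx'
    exact (pair_nT h ((mem_ptM h hS).1 hx) ((mem_ptM h hS).1 hx')).symm
  · intro x hx
    have h1 : Hu X x.1 := (mem_ptM h hS).1 hx
    have h2 : Hu X (ClT Q x.1) := h.c1 Q hQ _ h1
    exact ⟨⟨ClT Q x.1, h2, hcl.maps _ x.2⟩, (mem_ptM h hS).2 h2, rfl⟩
  · intro x' hx'
    obtain ⟨s, h1, h2⟩ := h.c2 Q hQ hC x'.1 x'.2.1 x'.2.2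
    exact ⟨s, (mem_ptM h hS).2 h1, h2⟩
  · intro x hx y hy x' hx' y' hy' h1 h2
    have h3 : Q.rel x y ↔ ClT Q x.1 = ClT Q y.1 := hcl.iff _ x.2 _ y.2
    rw [h3, h1, h2]
    exact (Subtype.ext_iff).symm
  · intro D hD hI
    obtain ⟨b, hb, hbe⟩ := borM_to h hS Q.val (h.qr Q hQ) (fun ρ _ => ⟨fun hρ => ⟨⟨ρ, hρ⟩, rfl⟩, by
      rintro ⟨x, rfl⟩; exact x.2⟩) hD
    have hinv := h.inv Q hQ b hb (by
      intro s t hs1 ht1 hst
      have h1 := hI s ((mem_ptM h hS).2 hs1) t ((mem_ptM h hS).2 ht1) hst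
      rw [hbe, hbe] at h1
      constructor
      · intro h2
        exact (h1.1 ⟨hs1, h2⟩).2
      · intro h2
        exact (h1.2 ⟨ht1, h2⟩).2)
    obtain ⟨b', hb', hbe'⟩ := h.c4 Q hQ hC b hb hinv
    refine ⟨_, borM_of h hS (fun s : {ρ | Hu X ρ ∧ ρ ∈ ClS Q} => s.1) hb', ?_, ?_⟩
    · intro x _ y _ hxy
      rw [hxy]
    · intro x hx x' hx' hxx'
      rw [hbe]
      have h1 := hbe' x
      rw [hxx'] at h1
      constructor
      · rintro ⟨_, h3⟩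
        exact ⟨x'.2.1, h1.1 h3⟩
      · rintro ⟨_, h3⟩
        exact ⟨(mem_ptM h hS).1 hx, h1.2 h3⟩
  · intro D hD hI
    obtain ⟨b, hb, hbe⟩ := borM_to h hS (fun s : {ρ | Hu X ρ ∧ ρ ∈ ClS Q} => s.1) (h.cs Q hQ) (fun ρ hρ => ⟨fun hρ' => ⟨⟨ρ, hρ, hρ'⟩, rfl⟩, by
      rintro ⟨x, rfl⟩; exact x.2.2⟩) hD
    obtain ⟨b', hb', hbe'⟩ := h.c5 Q hQ hC hR b hb
    refine ⟨_, borM_of h hS Q.val hb', ?_, ?_⟩
    · intro x hx y hy hxy
      have h3 : ClT Q x.1 = ClT Q y.1 := (hcl.iff _ x.2 _ y.2).1 hxy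
      have h4 : Q.val x ∈ b'.set eR ↔ Q.val y ∈ b'.set eR := by
        have h5 := hbe' x
        have h6 := hbe' y
        rw [h3] at h5
        exact h5.trans h6.symm
      constructor
      · rintro ⟨_, h5⟩
        exact ⟨(mem_ptM h hS).1 hy, h4.1 h5⟩
      · rintro ⟨_, h5⟩
        exact ⟨(mem_ptM h hS).1 hx, h4.2 h5⟩
    · intro x hx x' hx' hxx'
      rw [hbe]
      have h1 := hbe' x
      rw [hxx'] at h1
      constructor
      · rintro ⟨_, h3⟩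
        exact ⟨x'.2.1, h1.1 h3⟩
      · rintro ⟨_, h3⟩
        exact ⟨(mem_ptM h hS).1 hx, h1.2 h3⟩

end Pool.Agent.RFN.GX.DA
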