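import Pool.Agent.DX.AReqH
import Pool.Agent.DX.AReqS
import Pool.Agent.DX.AReqI
import Pool.Agent.DX.AIso
import Pool.Agent.DX.AStd

set_option autoImplicit false

/-! # The first model -/

namespace Pool.Agent.RFN.GX.DA

open Pool.Agent.ChoicelessEmb LName DX

open Pool.Agent.H78.ZF (ZFM IsZFModel)

theorem exists_modelA (f0 : Rl → QS) :
    ∃ (M : Set ZFSet.{0}) (h : IsZFModel fun x y : M => x.1 ∈ y.1),
      M.Countable ∧ (∀ x ∈ M, ∀ y ∈ x, y ∈ M) ∧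
        (letI : ZFM M := ⟨_, h⟩; Choice M) ∧
        (∀ a b : Rl, rZ a ∈ M → rZ b ∈ M → (f0 a).HasPI (f0 b) → (f0 a).Iso M (f0 b)) ∧
        ∀ a : Rl, rZ a ∈ M → MeasurableSet (f0 a).R → HasCls (f0 a) → (f0 a).Standard M := by
  obtain ⟨X, g0, g, hc, _, h1, h2, h3, h4⟩ :=
    ((req_stB (P := Cn)).and ((req_stH f0).and (req_stS.and req_stI))).exists
  let hs : SB X g := ⟨g0, h1⟩
  have hS : StS X hs.g0 := h3
  refine ⟨Mod X g, hs.st.isZF, hc.image _, Mod_trans, choice_mod, ?_, ?_⟩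
  · intro a b ha hb hP
    have ha' := h2.f0 a ((rZ_mem_iff h2 hS).1 ha)
    have hb' := h2.f0 b ((rZ_mem_iff h2 hS).1 hb)
    exact iso_ok h2 hS h4 (j := ⟨(f0 a, f0 b), hP⟩) (h2.pair _ _ ha' hb' hP) ha' hb'
  · intro a ha hR hC
    exact std_ok h2 hS (h2.f0 a ((rZ_mem_iff h2 hS).1 ha)) hR hC

end Pool.Agent.RFN.GX.DA
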