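import Pool.Agent.DX.ASt

set_option autoImplicit false

/-!
# The closure properties of the hull can be met

PROOF of `req_stH`: a conjunction (`Req.and`, `Req.forall`, `Req.mono`; model `RFN/SReq.req_st`) of
* `rn, fn, tn, sn` : `req_hname nR` etc.; `nat` : `Req.forall fun n => req_hconst n`; `basic` the same;
* `compl, union, qr, f0, cs` : `req_hop`; `compl', union'` : `req_hop` for a (classical or `match`)
  function `BC ℕ → BC ℕ`, `BC ℕ → (ℕ → BC ℕ)` which inverts the constructor; `seq` :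
  `Req.forall fun n => req_hop fun s => s n`; `c1` : `req_hop2 ClT`;
* `pair` : `req_hrefl0 (T := QS × QS) (T' := J) fun t j => j.1 = t` with `req_hop2 Prod.mk`
  (the witness `j'` has `j'.1 = (Q, Q')`, so it is `⟨(Q, Q'), h⟩` by `Subtype.ext`);
* `inv` : `req_hrefl0 (T := QS × BC ℕ) (T' := Rl × Rl)` for the predicate `t.1 ∈ Q.R ∧ t.2 ∈ Q.R ∧
  Q.E t.1 t.2 ∧ ¬ (t.1 ∈ b.set eR ↔ t.2 ∈ b.set eR)`, `req_hop Prod.fst`, `req_hop Prod.snd`, and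
  contradiction;
* `c2` : `req_hrefl0 (T := QS × Rl) (T' := Rl)` : `ρ ∈ Q.R ∧ ClT Q ρ = σ` (exists by `(cls_spec h).onto`);
* `c3` : `req_hrefl0 (T := QS) (T' := BC ℕ)` : `b.set eR = ClS Q` (`exists_BC_real`, `Cls.hS`);
* `c4` : `req_hrefl0 (T := QS × BC ℕ) (T' := BC ℕ)` : existence: `img` for `bSet Q b` (measurable:
  preimage of `b.set eR` (`BC.measurable_set eR_measurable`) under `Subtype.val`), `exists_BC_real`,
  and `iff` with the invariance for the backward direction;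
* `c5` : the same: `{ρ | ∃ h : ρ ∈ Q.R, ClT Q ρ ∈ b.set eR}` is measurable:
  `MeasurableSet.subtype_image` of the preimage of `b.set eR` under `(cls_spec h).meas`. -/

namespace Pool.Agent.RFN.GX.DA

open Pool.Agent.ChoicelessEmb LName DX

theorem bSet_measurable (Q : QS) (b : BC ℕ) : MeasurableSet (bSet Q b) :=
  measurable_subtype_coe (BC.measurable_set eR_measurable b)

theorem exists_c4 {Q : QS} (h : HasCls Q) (b : BC ℕ) (hb : Inv Q.rel (bSet Q b)) :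
    ∃ b' : BC ℕ, ∀ s : Q.Pt, (s.1 ∈ b.set eR ↔ ClT Q s.1 ∈ b'.set eR) := by
  obtain ⟨b', hb'⟩ := exists_BC_real ((cls_spec h).img (bSet Q b) (bSet_measurable Q b) hb)
  refine ⟨b', fun s => ?_⟩
  rw [hb']
  constructor
  · intro hs
    exact ⟨s, hs, rfl⟩
  · rintro ⟨t, ht, e⟩
    have hE : Q.rel t s := ((cls_spec h).iff t.1 t.2 s.1 s.2).2 e
    exact (hb t s hE).1 ht

theorem exists_c5 {Q : QS} (h : HasCls Q) (hR : MeasurableSet Q.R) (b : BC ℕ) :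
    ∃ b' : BC ℕ, ∀ s : Q.Pt, (s.1 ∈ b'.set eR ↔ ClT Q s.1 ∈ b.set eR) := by
  have h1 : MeasurableSet {s : Q.Pt | ClT Q s.1 ∈ b.set eR} :=
    (cls_spec h).meas (BC.measurable_set eR_measurable b)
  obtain ⟨b', hb'⟩ := exists_BC_real (MeasurableSet.subtype_image hR h1)
  refine ⟨b', fun s => ?_⟩
  rw [hb']
  constructor
  · rintro ⟨t, ht, e⟩
    have : t = s := Subtype.ext e
    rw [← this]
    exact ht
  · intro hs
    exact ⟨s, hs, rfl⟩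

/-- The inverse of `BC.compl`. -/
def unCompl : BC ℕ → BC ℕ
  | BC.compl b => b
  | b => b

/-- The inverse of `BC.union`. -/
def unUnion : BC ℕ → (ℕ → BC ℕ)
  | BC.union s => s
  | b => fun _ => b

theorem req_hcompl' : Req fun (X : Set Nm) _ _ => ∀ b : BC ℕ, Hu X (BC.compl b) → Hu X b :=
  (req_hop (P := Cn) unCompl).mono fun _ _ _ _ h b hb => h (BC.compl b) hb

theorem req_hunion' : Req fun (X : Set Nm) _ _ => ∀ s : ℕ → BC ℕ, Hu X (BC.union s) → Hu X s :=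
  (req_hop (P := Cn) unUnion).mono fun _ _ _ _ h s hs => h (BC.union s) hs

theorem req_hpair : Req fun (X : Set Nm) _ _ => ∀ Q Q' : QS, Hu X Q → Hu X Q' →
    ∀ h : QS.HasPI Q Q', Hu X (⟨(Q, Q'), h⟩ : J) := by
  refine ((req_hop2 (P := Cn) (Prod.mk : QS → QS → QS × QS)).and
    (req_hrefl0 (P := Cn) (T := QS × QS) (T' := J) fun t j => j.1 = t)).mono ?_
  rintro X g0 g _ ⟨h1, h2⟩ Q Q' hQ hQ' h
  obtain ⟨j, hj, e⟩ := h2 (Q, Q') (h1 Q Q' hQ hQ') ⟨⟨(Q, Q'), h⟩, rfl⟩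
  have : j = (⟨(Q, Q'), h⟩ : J) := Subtype.ext e
  rw [← this]
  exact hj

theorem req_hinv : Req fun (X : Set Nm) _ _ => ∀ Q : QS, Hu X Q → ∀ b : BC ℕ, Hu X b →
    (∀ s t : Q.Pt, Hu X s.1 → Hu X t.1 → Q.rel s t → (s ∈ bSet Q b ↔ t ∈ bSet Q b)) →
      Inv Q.rel (bSet Q b) := by
  refine ((req_hop2 (P := Cn) (Prod.mk : QS → BC ℕ → QS × BC ℕ)).and
    ((req_hrefl0 (P := Cn) (T := QS × BC ℕ) (T' := Rl × Rl) fun t w =>
      w.1 ∈ t.1.R ∧ w.2 ∈ t.1.R ∧ t.1.E w.1 w.2 ∧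
        ¬ (w.1 ∈ t.2.set eR ↔ w.2 ∈ t.2.set eR)).and
      ((req_hop (P := Cn) (Prod.fst : Rl × Rl → Rl)).and
        (req_hop (P := Cn) (Prod.snd : Rl × Rl → Rl))))).mono ?_
  rintro X g0 g _ ⟨h1, h2, h3, h4⟩ Q hQ b hb H s t hst
  by_contra hne
  obtain ⟨w, hw, w1, w2, w3, w4⟩ :=
    h2 (Q, b) (h1 Q b hQ hb) ⟨(s.1, t.1), s.2, t.2, hst, hne⟩
  exact w4 (H ⟨w.1, w1⟩ ⟨w.2, w2⟩ (h3 w hw) (h4 w hw) w3)

theorem req_hc2 : Req fun (X : Set Nm) _ _ => ∀ Q : QS, Hu X Q → HasCls Q → ∀ σ : Rl, Hu X σ →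
    σ ∈ ClS Q → ∃ s : Q.Pt, Hu X s.1 ∧ ClT Q s.1 = σ := by
  refine ((req_hop2 (P := Cn) (Prod.mk : QS → Rl → QS × Rl)).and
    (req_hrefl0 (P := Cn) (T := QS × Rl) (T' := Rl) fun t ρ =>
      ρ ∈ t.1.R ∧ ClT t.1 ρ = t.2)).mono ?_
  rintro X g0 g _ ⟨h1, h2⟩ Q hQ h σ hσ hσS
  obtain ⟨s, hs, e⟩ := (cls_spec h).onto σ hσS
  obtain ⟨ρ, hρ, h3, h4⟩ := h2 (Q, σ) (h1 Q σ hQ hσ) ⟨s, hs, e⟩
  exact ⟨⟨ρ, h3⟩, hρ, h4⟩

theorem req_hc3 : Req fun (X : Set Nm) _ _ => ∀ Q : QS, Hu X Q → HasCls Q →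
    ∃ b : BC ℕ, Hu X b ∧ b.set eR = ClS Q := by
  refine (req_hrefl0 (P := Cn) (T := QS) (T' := BC ℕ) fun Q b => b.set eR = ClS Q).mono ?_
  intro X g0 g _ h1 Q hQ h
  exact h1 Q hQ (exists_BC_real (cls_spec h).hS)

theorem req_hc4 : Req fun (X : Set Nm) _ _ => ∀ Q : QS, Hu X Q → HasCls Q → ∀ b : BC ℕ,
    Hu X b → Inv Q.rel (bSet Q b) →
    ∃ b' : BC ℕ, Hu X b' ∧ ∀ s : Q.Pt, (s.1 ∈ b.set eR ↔ ClT Q s.1 ∈ b'.set eR) := by
  refine ((req_hop2 (P := Cn) (Prod.mk : QS → BC ℕ → QS × BC ℕ)).and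
    (req_hrefl0 (P := Cn) (T := QS × BC ℕ) (T' := BC ℕ) fun t b' =>
      ∀ s : t.1.Pt, (s.1 ∈ t.2.set eR ↔ ClT t.1 s.1 ∈ b'.set eR))).mono ?_
  rintro X g0 g _ ⟨h1, h2⟩ Q hQ h b hb hinv
  exact h2 (Q, b) (h1 Q b hQ hb) (exists_c4 h b hinv)

theorem req_hc5 : Req fun (X : Set Nm) _ _ => ∀ Q : QS, Hu X Q → HasCls Q →
    MeasurableSet Q.R → ∀ b : BC ℕ, Hu X b →
    ∃ b' : BC ℕ, Hu X b' ∧ ∀ s : Q.Pt, (s.1 ∈ b'.set eR ↔ ClT Q s.1 ∈ b.set eR) := by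
  refine ((req_hop2 (P := Cn) (Prod.mk : QS → BC ℕ → QS × BC ℕ)).and
    (req_hrefl0 (P := Cn) (T := QS × BC ℕ) (T' := BC ℕ) fun t b' =>
      ∀ s : t.1.Pt, (s.1 ∈ b'.set eR ↔ ClT t.1 s.1 ∈ t.2.set eR))).mono ?_
  rintro X g0 g _ ⟨h1, h2⟩ Q hQ h hR b hb
  exact h2 (Q, b) (h1 Q b hQ hb) (exists_c5 h hR b)

theorem req_hnat : Req fun (X : Set Nm) _ _ => ∀ n : ℕ, Hu X n :=
  Req.forall fun n => req_hconst (P := Cn) n

theorem req_hbasic : Req fun (X : Set Nm) _ _ => ∀ n : ℕ, Hu X (BC.basic n : BC ℕ) :=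
  Req.forall fun n => req_hconst (P := Cn) (BC.basic n : BC ℕ)

theorem req_hseq : Req fun (X : Set Nm) _ _ => ∀ s : ℕ → BC ℕ, Hu X s → ∀ n, Hu X (s n) :=
  (Req.forall fun n : ℕ => req_hop (P := Cn) fun s : ℕ → BC ℕ => s n).mono
    fun _ _ _ _ h s hs n => h n s hs

theorem req_stH (f0 : Rl → QS) : Req fun (X : Set Nm) _ _ => StH f0 X := by
  refine (((req_hname (P := Cn) nR).and ((req_hname (P := Cn) nF).and
    ((req_hname (P := Cn) nT).and (req_hname (P := Cn) nS)))).and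
    ((req_hnat.and req_hbasic).and
    (((req_hop (P := Cn) (BC.compl : BC ℕ → BC ℕ)).and (req_hcompl'.and
      ((req_hop (P := Cn) (BC.union : (ℕ → BC ℕ) → BC ℕ)).and (req_hunion'.and req_hseq)))).and
    (((req_hop (P := Cn) QS.R).and ((req_hop (P := Cn) f0).and (req_hpair.and req_hinv))).and
    (((req_hop (P := Cn) ClS).and (req_hop2 (P := Cn) ClT)).and
      (req_hc2.and (req_hc3.and (req_hc4.and req_hc5)))))))).mono ?_
  rintro X g0 g _ ⟨⟨a1, a2, a3, a4⟩, ⟨a5, a6⟩, ⟨a7, a8, a9, a10, a11⟩, ⟨a12, a13, a14, a15⟩,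
    ⟨a16, a17⟩, a18, a19, a20, a21⟩
  exact
    { rn := a1
      fn := a2
      tn := a3
      sn := a4
      nat := a5
      basic := a6
      compl := a7
      compl' := a8
      union := a9
      union' := a10
      seq := a11
      qr := a12
      f0 := a13
      pair := a14
      inv := a15
      cs := a16
      c1 := fun Q hQ ρ hρ => a17 Q ρ hQ hρ
      c2 := a18
      c3 := a19
      c4 := a20
      c5 := a21 }

end Pool.Agent.RFN.GX.DA
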