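import Mathlib

set_option autoImplicit false

/-!
# Borel codes

`BC I` : the Borel codes over the index set `I`; `b.set e` is the set with the code `b`, where the
index `i` is a code of the set `e i`. If the sets `e i` generate the sigma-algebra then the
measurable sets are the sets with a code.

PROOFS. `measurable_set` : induction on `b`. `exists_BC` : `GenerateMeasurable` induction
(`MeasurableSpace.generateFrom`), `empty` : a union of `basic i` and its complement, complemented.
-/

namespace DX

/-- Borel codes. -/
inductive BC (I : Type) : Type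
  | basic : I → BC I
  | compl : BC I → BC I
  | union : (ℕ → BC I) → BC I

/-- The set with the code `b`. -/
def BC.set {I Y : Type} (e : I → Set Y) : BC I → Set Y
  | basic i => e i
  | compl b => (b.set e)ᶜ
  | union f => ⋃ n, (f n).set e

/-- The generating family of the Cantor space. -/
def eR : ℕ → Set (ℕ → Bool) := fun n => {ρ | ρ n = true}

theorem BC.measurable_set {I Y : Type} [MeasurableSpace Y] {e : I → Set Y}
    (he : ∀ i, MeasurableSet (e i)) (b : BC I) : MeasurableSet (b.set e) := by
  induction b with
  | basic i => exact he i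
  | compl b ih => exact ih.compl
  | union f ih => exact MeasurableSet.iUnion ih

theorem exists_BC {I Y : Type} [Nonempty I] (e : I → Set Y) {S : Set Y}
    (hS : MeasurableSpace.GenerateMeasurable (Set.range e) S) : ∃ b : BC I, b.set e = S := by
  induction hS with
  | basic u hu =>
    obtain ⟨i, rfl⟩ := hu
    exact ⟨BC.basic i, rfl⟩
  | empty =>
    obtain ⟨i⟩ := ‹Nonempty I›
    refine ⟨BC.compl (BC.union fun n => if n = 0 then BC.basic i else BC.compl (BC.basic i)), ?_⟩
    ext y
    simp only [BC.set, Set.mem_compl_iff, Set.mem_iUnion, not_exists, Set.mem_empty_iff_false,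
      iff_false, not_forall, not_not]
    by_cases h : y ∈ e i
    · exact ⟨0, by simpa [BC.set] using h⟩
    · exact ⟨1, by simpa [BC.set] using h⟩
  | compl t _ ih =>
    obtain ⟨b, rfl⟩ := ih
    exact ⟨BC.compl b, rfl⟩
  | iUnion f _ ih =>
    choose b hb using ih
    exact ⟨BC.union b, by simp only [BC.set, hb]⟩

theorem eR_measurable (n : ℕ) : MeasurableSet (eR n) :=
  (measurable_pi_apply (X := fun _ : ℕ => Bool) n) (MeasurableSet.of_discrete (s := {true}))

/-- Every Borel set of the Cantor space has a code. -/
theorem exists_BC_real {S : Set (ℕ → Bool)} (hS : MeasurableSet S) :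
    ∃ b : BC ℕ, b.set eR = S := by
  refine exists_BC eR ?_
  have h1 : ∀ n, MeasurableSpace.GenerateMeasurable (Set.range eR) (eR n) :=
    fun n => MeasurableSpace.GenerateMeasurable.basic _ ⟨n, rfl⟩
  have h0 : MeasurableSpace.GenerateMeasurable (Set.range eR) (∅ : Set (ℕ → Bool)) :=
    MeasurableSpace.GenerateMeasurable.empty
  have key : (inferInstance : MeasurableSpace (ℕ → Bool)) ≤
      MeasurableSpace.generateFrom (Set.range eR) := by
    refine iSup_le fun n => ?_
    intro s hs
    obtain ⟨t, -, rfl⟩ := hs
    show MeasurableSpace.GenerateMeasurable (Set.range eR) _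
    by_cases ht : true ∈ t <;> by_cases hf : false ∈ t
    · have : (fun ρ : ℕ → Bool => ρ n) ⁻¹' t = (∅ : Set (ℕ → Bool))ᶜ := by
        ext ρ; cases h : ρ n <;> simp [h, ht, hf]
      rw [this]
      exact MeasurableSpace.GenerateMeasurable.compl _ h0
    · have : (fun ρ : ℕ → Bool => ρ n) ⁻¹' t = eR n := by
        ext ρ; cases h : ρ n <;> simp [h, ht, hf, eR]
      rw [this]; exact h1 n
    · have : (fun ρ : ℕ → Bool => ρ n) ⁻¹' t = (eR n)ᶜ := by
        ext ρ; cases h : ρ n <;> simp [h, ht, hf, eR]
      rw [this]; exact MeasurableSpace.GenerateMeasurable.compl _ (h1 n)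
    · have : (fun ρ : ℕ → Bool => ρ n) ⁻¹' t = ∅ := by
        ext ρ; cases h : ρ n <;> simp [h, ht, hf]
      rw [this]; exact h0
  exact key S hS

end DX
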