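import Pool.Agent.DX.PA
import Pool.Agent.DX.BC

set_option autoImplicit false

/-!
# The first model: names and requirements (definitions)
-/

namespace Pool.Agent.RFN.GX.DA

open Pool.Agent.ChoicelessEmb LName DX

/-- The names. -/
abbrev Nm : Type 1 := LName Cn

/-- The reals. -/
abbrev Rl : Type := ℕ → Bool

noncomputable section

/-- The name of a real. -/
def nR (ρ : Rl) : Nm := relG nN fun n _ => ρ n = true

/-- The name of the generic relation between the points of `Q` and `Q'`, `j = (Q, Q')`. -/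
def nF (j : J) : Nm := relG (nm2 nR nR) fun t p =>
  ∃ (s : j.1.1.Pt) (s' : j.1.2.Pt) (c : (PI j).C), s.1 = t.1 ∧ s'.1 = t.2 ∧ p.f j = some c ∧
    (PI j).R c s s'

/-- `Q` is standard. -/
def HasCls (Q : QS) : Prop := ∃ S θ, Q.Cls S θ

open Classical in
/-- The chosen Borel set. -/
def ClS (Q : QS) : Set Rl := if h : HasCls Q then h.choose else ∅

open Classical in
/-- The chosen classifying map. -/
def ClT (Q : QS) : Rl → Rl := if h : HasCls Q then h.choose_spec.choose else id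

theorem cls_spec {Q : QS} (h : HasCls Q) : Q.Cls (ClS Q) (ClT Q) := by
  unfold ClS ClT
  rw [dif_pos h, dif_pos h]
  exact h.choose_spec.choose_spec

/-- The name of the classifying map. -/
def nT (Q : QS) : Nm := relG (nm2 nR nR) fun t _ => ClT Q t.1 = t.2

/-- The name of a sequence of Borel sets. -/
def nS (s : ℕ → BC ℕ) : Nm := relG (nm2 nN nR) fun t _ => t.2 ∈ (s t.1).set eR

/-- `p` decides the real `u`: it is `σ`. -/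
def DcR (u : Nm) (σ : Rl) (p : Cn) : Prop :=
  ∀ n, (σ n = true → fmem (nN n) u p) ∧ (σ n = false → ∀ r ≤ p, ¬ fmem (nN n) u r)

/-- `p` decides the `n`-th section of `u` on the set `R`: it is the Borel set with the code `b`. -/
def Sec (u : Nm) (R : Set Rl) (n : ℕ) (b : BC ℕ) (p : Cn) : Prop :=
  ∀ ρ ∈ R, (ρ ∈ b.set eR → fmem (opairN (nN n) (nR ρ)) u p) ∧
    (ρ ∉ b.set eR → ∀ r ≤ p, ¬ fmem (opairN (nN n) (nR ρ)) u r)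

/-- `p` decides that the `n`-th section of `u` is not the set with the code `b` because of
`ρ ∈ R`. -/
def Neg (u : Nm) (R : Set Rl) (n : ℕ) (b : BC ℕ) (ρ : Rl) (p : Cn) : Prop :=
  ρ ∈ R ∧ ((ρ ∈ b.set eR ∧ ∀ r ≤ p, ¬ fmem (opairN (nN n) (nR ρ)) u r) ∨
    (ρ ∉ b.set eR ∧ fmem (opairN (nN n) (nR ρ)) u p))

/-- `p` decides that the point `ρ` of `Q` is mapped to the point `σ` of `Q'`. -/
def Maps (j : J) (ρ σ : Rl) (p : Cn) : Prop :=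
  ∃ (s : j.1.1.Pt) (s' : j.1.2.Pt) (c : (PI j).C), s.1 = ρ ∧ s'.1 = σ ∧ p.f j = some c ∧
    (PI j).R c s s'

/-- The set of the points of `Q` in the Borel set with the code `b`. -/
def bSet (Q : QS) (b : BC ℕ) : Set Q.Pt := {s | s.1 ∈ b.set eR}

/-- `p` decides that the set with the code `b` is mapped to the set with the code `b'`. -/
def Img (j : J) (b b' : BC ℕ) (p : Cn) : Prop :=
  Inv j.1.2.rel (bSet j.1.2 b') ∧ ∃ c, p.f j = some c ∧ ∀ d, (PI j).le d c →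
    ∀ s s', (PI j).R d s s' → (s ∈ bSet j.1.1 b ↔ s' ∈ bSet j.1.2 b')

/-- The same in the other direction. -/
def Img' (j : J) (b b' : BC ℕ) (p : Cn) : Prop :=
  Inv j.1.1.rel (bSet j.1.1 b) ∧ ∃ c, p.f j = some c ∧ ∀ d, (PI j).le d c →
    ∀ s s', (PI j).R d s s' → (s ∈ bSet j.1.1 b ↔ s' ∈ bSet j.1.2 b')

/-- Closure properties of the hull. -/
structure StH (f0 : Rl → QS) (X : Set Nm) : Prop where
  rn : ∀ ρ : Rl, Hu X ρ → nR ρ ∈ X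
  fn : ∀ j : J, Hu X j → nF j ∈ X
  tn : ∀ Q : QS, Hu X Q → nT Q ∈ X
  sn : ∀ s : ℕ → BC ℕ, Hu X s → nS s ∈ X
  nat : ∀ n : ℕ, Hu X n
  basic : ∀ n : ℕ, Hu X (BC.basic n : BC ℕ)
  compl : ∀ b : BC ℕ, Hu X b → Hu X (BC.compl b)
  compl' : ∀ b : BC ℕ, Hu X (BC.compl b) → Hu X b
  union : ∀ s : ℕ → BC ℕ, Hu X s → Hu X (BC.union s)
  union' : ∀ s : ℕ → BC ℕ, Hu X (BC.union s) → Hu X s
  seq : ∀ s : ℕ → BC ℕ, Hu X s → ∀ n, Hu X (s n)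
  qr : ∀ Q : QS, Hu X Q → Hu X Q.R
  f0 : ∀ a : Rl, Hu X a → Hu X (f0 a)
  pair : ∀ Q Q' : QS, Hu X Q → Hu X Q' → ∀ h : QS.HasPI Q Q', Hu X (⟨(Q, Q'), h⟩ : J)
  inv : ∀ Q : QS, Hu X Q → ∀ b : BC ℕ, Hu X b →
    (∀ s t : Q.Pt, Hu X s.1 → Hu X t.1 → Q.rel s t → (s ∈ bSet Q b ↔ t ∈ bSet Q b)) →
      Inv Q.rel (bSet Q b)
  cs : ∀ Q : QS, Hu X Q → Hu X (ClS Q)
  c1 : ∀ Q : QS, Hu X Q → ∀ ρ : Rl, Hu X ρ → Hu X (ClT Q ρ)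
  c2 : ∀ Q : QS, Hu X Q → HasCls Q → ∀ σ : Rl, Hu X σ → σ ∈ ClS Q →
    ∃ s : Q.Pt, Hu X s.1 ∧ ClT Q s.1 = σ
  c3 : ∀ Q : QS, Hu X Q → HasCls Q → ∃ b : BC ℕ, Hu X b ∧ b.set eR = ClS Q
  c4 : ∀ Q : QS, Hu X Q → HasCls Q → ∀ b : BC ℕ, Hu X b → Inv Q.rel (bSet Q b) →
    ∃ b' : BC ℕ, Hu X b' ∧ ∀ s : Q.Pt, (s.1 ∈ b.set eR ↔ ClT Q s.1 ∈ b'.set eR)
  c5 : ∀ Q : QS, Hu X Q → HasCls Q → MeasurableSet Q.R → ∀ b : BC ℕ, Hu X b →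
    ∃ b' : BC ℕ, Hu X b' ∧ ∀ s : Q.Pt, (s.1 ∈ b'.set eR ↔ ClT Q s.1 ∈ b.set eR)

/-- Genericity: reals and sequences of Borel sets. -/
structure StS (X : Set Nm) (g0 : Set Cn) : Prop where
  real : ∀ u ∈ X, ∃ p ∈ g0, ∃ σ : Rl, Hu X σ ∧ DcR u σ p
  sec : ∀ u ∈ X, ∀ R : Set Rl, Hu X R → ∀ n, ∀ b : BC ℕ, Hu X b →
    (∃ p ∈ g0, ∃ ρ : Rl, Hu X ρ ∧ Neg u R n b ρ p) ∨ ∃ p ∈ g0, Sec u R n b p
  seq : ∀ u ∈ X, ∀ R : Set Rl, Hu X R → (∀ n, ∃ p ∈ g0, ∃ b : BC ℕ, Sec u R n b p) →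
    ∃ p ∈ g0, ∃ s : ℕ → BC ℕ, Hu X s ∧ ∀ n, Sec u R n (s n) p

/-- Genericity: the generic isomorphisms. -/
structure StI (X : Set Nm) (g0 : Set Cn) : Prop where
  tot : ∀ j : J, Hu X j → ∀ ρ : Rl, Hu X ρ → ρ ∈ j.1.1.R →
    ∃ p ∈ g0, ∃ σ : Rl, Hu X σ ∧ Maps j ρ σ p
  ran : ∀ j : J, Hu X j → ∀ σ : Rl, Hu X σ → σ ∈ j.1.2.R →
    ∃ p ∈ g0, ∃ ρ : Rl, Hu X ρ ∧ Maps j ρ σ p
  bor : ∀ j : J, Hu X j → ∀ b : BC ℕ, Hu X b → Inv j.1.1.rel (bSet j.1.1 b) →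
    ∃ p ∈ g0, ∃ b' : BC ℕ, Hu X b' ∧ Img j b b' p
  bor' : ∀ j : J, Hu X j → ∀ b' : BC ℕ, Hu X b' → Inv j.1.2.rel (bSet j.1.2 b') →
    ∃ p ∈ g0, ∃ b : BC ℕ, Hu X b ∧ Img' j b b' p

end

end Pool.Agent.RFN.GX.DA
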