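import Mathlib

/-!
# MP_1ac9dc_an : partial isomorphisms of quotient measurable spaces

The interface between the Lean level half of (a) (helper69) and the forcing half (helper24).
`PIso E E'` : a sigma-closed partial order of partial isomorphisms between the quotients `X / E`
and `X' / E'`. A condition `c` decides `R c x x'`: the class of `x` is mapped to the class of `x'`.
-/

namespace DX

/-- `D` is invariant under the relation `E`. -/
def Inv {X : Type} (E : X → X → Prop) (D : Set X) : Prop := ∀ x y, E x y → (x ∈ D ↔ y ∈ D)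

/-- A sigma-closed partial order of partial isomorphisms of `X / E` and `X' / E'` (for the quotient
sigma-algebras). -/
structure PIso {X X' : Type} [MeasurableSpace X] [MeasurableSpace X'] (E : X → X → Prop)
    (E' : X' → X' → Prop) where
  /-- the conditions -/
  C : Type
  /-- `le d c` : the condition `d` extends `c` -/
  le : C → C → Prop
  /-- some condition -/
  c0 : C
  refl : ∀ c, le c c
  trans : ∀ a b c, le a b → le b c → le a c
  closed : ∀ f : ℕ → C, (∀ n, le (f (n + 1)) (f n)) → ∃ d, ∀ n, le d (f n)
  /-- `R c x x'` : `c` decides that the class of `x` is mapped to the class of `x'` -/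
  R : C → X → X' → Prop
  mono : ∀ c d x x', le d c → R c x x' → R d x x'
  dom : ∀ c x, ∃ d x', le d c ∧ R d x x'
  ran : ∀ c x', ∃ d x, le d c ∧ R d x x'
  eqv : ∀ c x x' y y', R c x x' → R c y y' → (E x y ↔ E' x' y')
  bor : ∀ c (D : Set X), MeasurableSet D → Inv E D → ∃ d, le d c ∧ ∃ D' : Set X',
    MeasurableSet D' ∧ Inv E' D' ∧ ∀ e x x', le e d → R e x x' → (x ∈ D ↔ x' ∈ D')
  bor' : ∀ c (D' : Set X'), MeasurableSet D' → Inv E' D' → ∃ d, le d c ∧ ∃ D : Set X,
    MeasurableSet D ∧ Inv E D ∧ ∀ e x x', le e d → R e x x' → (x ∈ D ↔ x' ∈ D')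

/-- Two compatible conditions have compatible decisions. -/
theorem PIso.eqv_of {X X' : Type} [MeasurableSpace X] [MeasurableSpace X'] {E : X → X → Prop}
    {E' : X' → X' → Prop} (P : PIso E E') {a b c : P.C} {x y : X} {x' y' : X'} (ha : P.le c a)
    (hb : P.le c b) (h : P.R a x x') (h' : P.R b y y') : E x y ↔ E' x' y' :=
  P.eqv c x x' y y' (P.mono a c x x' ha h) (P.mono b c y y' hb h')

end DX
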