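import Pool.Agent.DX.Defs
import Pool.Agent.DX.PIso

set_option autoImplicit false

/-!
# Coded quotient spaces; transport along bijections

PROOFS. `seqM_congr`, `borM_map` : `e` maps `PtM M c` onto `PtM M d` because `d (e x) = c x`;
induction on `BorM` (the same `z ∈ M` for the sequences). `IsoM.congr` : from `F'` for the spaces
on the right put `F x x' := F' (e x) (e' x')`; the same `z`. Borel sets are moved by `borM_map`
(for `e` and for `e.symm`). `StdM.congr` : `IsoM.congr` with the identity on the right.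
`PIso.congr` : the same conditions, `R c x x' := R c (e x) (e' x')`; Borel sets are moved by the
measurable equivalences.
-/

namespace DX

section

variable {M : Set ZFSet.{0}} {X Y X' Y' : Type} {c : X → ℕ → Bool} {d : Y → ℕ → Bool}
  {c' : X' → ℕ → Bool} {d' : Y' → ℕ → Bool}

theorem Congr.ptM_iff (e : X ≃ Y) (hc : ∀ x, d (e x) = c x) (x : X) :
    e x ∈ PtM M d ↔ x ∈ PtM M c := by
  unfold PtM
  rw [Set.mem_ofPred_eq, Set.mem_ofPred_eq, hc]

theorem Congr.symm_code (e : X ≃ Y) (hc : ∀ x, d (e x) = c x) (y : Y) :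
    c (e.symm y) = d y := by
  rw [← hc (e.symm y), e.apply_symm_apply]

theorem Congr.mem_image (e : X ≃ Y) (D : Set X) (y : Y) : y ∈ e '' D ↔ e.symm y ∈ D := by
  constructor
  · rintro ⟨x, hx, rfl⟩
    rwa [e.symm_apply_apply]
  · intro h
    exact ⟨e.symm y, h, e.apply_symm_apply y⟩

theorem borM_map (e : X ≃ Y) (hc : ∀ x, d (e x) = c x) {D : Set X} (hD : BorM M c D) :
    BorM M d (e '' D) := by
  have hp : ∀ y, e.symm y ∈ PtM M c ↔ y ∈ PtM M d := fun y => by
    rw [← Congr.ptM_iff e hc, e.apply_symm_apply]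
  induction hD with
  | basic n =>
    have h1 : e '' {x | x ∈ PtM M c ∧ c x n = true} = {y | y ∈ PtM M d ∧ d y n = true} := by
      ext y
      rw [Congr.mem_image, Set.mem_ofPred_eq, Set.mem_ofPred_eq, hp, Congr.symm_code e hc]
    rw [h1]
    exact BorM.basic n
  | compl D hD ih =>
    have h1 : e '' {x | x ∈ PtM M c ∧ x ∉ D} = {y | y ∈ PtM M d ∧ y ∉ e '' D} := by
      ext y
      rw [Congr.mem_image, Set.mem_ofPred_eq, Set.mem_ofPred_eq, hp, Congr.mem_image]
    rw [h1]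
    exact BorM.compl _ ih
  | union D hD hS ih =>
    have h1 : e '' {x | ∃ n, x ∈ D n} = {y | ∃ n, y ∈ e '' D n} := by
      ext y
      rw [Congr.mem_image, Set.mem_ofPred_eq, Set.mem_ofPred_eq]
      exact exists_congr fun n => (Congr.mem_image e (D n) y).symm
    rw [h1]
    refine BorM.union (fun n => e '' D n) ih ?_
    obtain ⟨z, hz, hzz⟩ := hS
    refine ⟨z, hz, fun n y hy => ?_⟩
    rw [Congr.mem_image, hzz n (e.symm y) ((hp y).2 hy), Congr.symm_code e hc]

theorem Congr.borM_pre (e : X ≃ Y) (hc : ∀ x, d (e x) = c x) {D : Set Y} (hD : BorM M d D) :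
    BorM M c (e ⁻¹' D) := by
  have h := borM_map e.symm (Congr.symm_code e hc) hD
  have h1 : e.symm '' D = e ⁻¹' D := by
    ext x
    rw [Congr.mem_image, Set.mem_preimage]
    rfl
  rwa [h1] at h

theorem Congr.invM_pre {E : X → X → Prop} {EY : Y → Y → Prop} (e : X ≃ Y)
    (hc : ∀ x, d (e x) = c x) (hE : ∀ x y, EY (e x) (e y) ↔ E x y) {D : Set Y}
    (hD : InvM M d EY D) : InvM M c E (e ⁻¹' D) := by
  intro x hx y hy hxy
  exact hD (e x) ((Congr.ptM_iff e hc x).2 hx) (e y) ((Congr.ptM_iff e hc y).2 hy) ((hE x y).2 hxy)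

theorem Congr.invM_map {E : X → X → Prop} {EY : Y → Y → Prop} (e : X ≃ Y)
    (hc : ∀ x, d (e x) = c x) (hE : ∀ x y, EY (e x) (e y) ↔ E x y) {D : Set X}
    (hD : InvM M c E D) : InvM M d EY (e '' D) := by
  intro y hy y' hy' hyy
  rw [Congr.mem_image, Congr.mem_image]
  refine hD (e.symm y) ?_ (e.symm y') ?_ ?_
  · rw [← Congr.ptM_iff e hc, e.apply_symm_apply]; exact hy
  · rw [← Congr.ptM_iff e hc, e.apply_symm_apply]; exact hy'
  · rw [← hE, e.apply_symm_apply, e.apply_symm_apply]; exact hyy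

theorem IsoM.congr {E : X → X → Prop} {EY : Y → Y → Prop} {E' : X' → X' → Prop}
    {EY' : Y' → Y' → Prop} (e : X ≃ Y) (e' : X' ≃ Y') (hc : ∀ x, d (e x) = c x)
    (hc' : ∀ x, d' (e' x) = c' x) (hE : ∀ x y, EY (e x) (e y) ↔ E x y)
    (hE' : ∀ x y, EY' (e' x) (e' y) ↔ E' x y) (h : IsoM M d EY d' EY') : IsoM M c E c' E' := by
  obtain ⟨F, ⟨z, hz, hzz⟩, htot, hran, hrel, hbor, hbor'⟩ := h
  have hp : ∀ x, e x ∈ PtM M d ↔ x ∈ PtM M c := Congr.ptM_iff e hc
  have hp' : ∀ x, e' x ∈ PtM M d' ↔ x ∈ PtM M c' := Congr.ptM_iff e' hc'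
  refine ⟨fun x x' => F (e x) (e' x'), ⟨z, hz, fun x hx x' hx' => ?_⟩, fun x hx => ?_,
    fun x' hx' => ?_, fun x hx y hy x' hx' y' hy' h1 h2 => ?_, fun D hD hI => ?_,
    fun D' hD' hI' => ?_⟩
  · have := hzz (e x) ((hp x).2 hx) (e' x') ((hp' x').2 hx')
    rwa [hc, hc'] at this
  · obtain ⟨y', hy', hF⟩ := htot (e x) ((hp x).2 hx)
    refine ⟨e'.symm y', ?_, ?_⟩
    · rw [← hp', e'.apply_symm_apply]; exact hy'
    · show F (e x) (e' (e'.symm y'))
      rw [e'.apply_symm_apply]; exact hF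
  · obtain ⟨y, hy, hF⟩ := hran (e' x') ((hp' x').2 hx')
    refine ⟨e.symm y, ?_, ?_⟩
    · rw [← hp, e.apply_symm_apply]; exact hy
    · show F (e (e.symm y)) (e' x')
      rw [e.apply_symm_apply]; exact hF
  · rw [← hE, ← hE']
    exact hrel (e x) ((hp x).2 hx) (e y) ((hp y).2 hy) (e' x') ((hp' x').2 hx') (e' y')
      ((hp' y').2 hy') h1 h2
  · obtain ⟨D', hD', hI', hF⟩ := hbor (e '' D) (borM_map e hc hD) (Congr.invM_map e hc hE hI)
    refine ⟨e' ⁻¹' D', Congr.borM_pre e' hc' hD', Congr.invM_pre e' hc' hE' hI', ?_⟩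
    intro x hx x' hx' hxx
    have := hF (e x) ((hp x).2 hx) (e' x') ((hp' x').2 hx') hxx
    rwa [Congr.mem_image, e.symm_apply_apply] at this
  · obtain ⟨D, hD, hI, hF⟩ := hbor' (e' '' D') (borM_map e' hc' hD')
      (Congr.invM_map e' hc' hE' hI')
    refine ⟨e ⁻¹' D, Congr.borM_pre e hc hD, Congr.invM_pre e hc hE hI, ?_⟩
    intro x hx x' hx' hxx
    have := hF (e x) ((hp x).2 hx) (e' x') ((hp' x').2 hx') hxx
    rwa [Congr.mem_image, e'.symm_apply_apply] at this

theorem StdM.congr {E : X → X → Prop} {EY : Y → Y → Prop} (e : X ≃ Y)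
    (hc : ∀ x, d (e x) = c x) (hE : ∀ x y, EY (e x) (e y) ↔ E x y) (h : StdM M d EY) :
    StdM M c E := by
  obtain ⟨S, hS, hI⟩ := h
  exact ⟨S, hS, IsoM.congr e (Equiv.refl S) hc (fun _ => rfl) hE (fun _ _ => Iff.rfl) hI⟩

end

section

variable {X Y X' Y' : Type} [MeasurableSpace X] [MeasurableSpace Y] [MeasurableSpace X']
  [MeasurableSpace Y']

theorem PIso.congr {E : X → X → Prop} {EY : Y → Y → Prop} {E' : X' → X' → Prop}
    {EY' : Y' → Y' → Prop} (e : X ≃ᵐ Y) (e' : X' ≃ᵐ Y') (hE : ∀ x y, EY (e x) (e y) ↔ E x y)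
    (hE' : ∀ x y, EY' (e' x) (e' y) ↔ E' x y) (h : Nonempty (PIso EY EY')) :
    Nonempty (PIso E E') := by
  obtain ⟨P⟩ := h
  have himg : ∀ {D : Set X}, MeasurableSet D → MeasurableSet (e.symm ⁻¹' D) :=
    fun hD => e.symm.measurable hD
  have himg' : ∀ {D : Set X'}, MeasurableSet D → MeasurableSet (e'.symm ⁻¹' D) :=
    fun hD => e'.symm.measurable hD
  refine ⟨{
    C := P.C
    le := P.le
    c0 := P.c0
    refl := P.refl
    trans := P.trans
    closed := P.closed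
    R := fun c x x' => P.R c (e x) (e' x')
    mono := fun c d x x' h1 h2 => P.mono c d (e x) (e' x') h1 h2
    dom := ?_
    ran := ?_
    eqv := ?_
    bor := ?_
    bor' := ?_ }⟩
  · intro c x
    obtain ⟨d, y', h1, h2⟩ := P.dom c (e x)
    refine ⟨d, e'.symm y', h1, ?_⟩
    rw [e'.apply_symm_apply]
    exact h2
  · intro c x'
    obtain ⟨d, y, h1, h2⟩ := P.ran c (e' x')
    refine ⟨d, e.symm y, h1, ?_⟩
    rw [e.apply_symm_apply]
    exact h2
  · intro c x x' y y' h1 h2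
    rw [← hE, ← hE']
    exact P.eqv c _ _ _ _ h1 h2
  · intro c D hD hI
    obtain ⟨d, hd, D', hD', hI', hF⟩ := P.bor c (e.symm ⁻¹' D) (himg hD) (by
      intro y y' hyy
      refine hI _ _ ?_
      rw [← hE, e.apply_symm_apply, e.apply_symm_apply]
      exact hyy)
    refine ⟨d, hd, e' ⁻¹' D', e'.measurable hD', ?_, ?_⟩
    · intro x y hxy
      exact hI' _ _ ((hE' x y).2 hxy)
    · intro a x x' ha hR
      have := hF a (e x) (e' x') ha hR
      rwa [Set.mem_preimage, e.symm_apply_apply] at this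
  · intro c D hD hI
    obtain ⟨d, hd, D', hD', hI', hF⟩ := P.bor' c (e'.symm ⁻¹' D) (himg' hD) (by
      intro y y' hyy
      refine hI _ _ ?_
      rw [← hE', e'.apply_symm_apply, e'.apply_symm_apply]
      exact hyy)
    refine ⟨d, hd, e ⁻¹' D', e.measurable hD', ?_, ?_⟩
    · intro x y hxy
      exact hI' _ _ ((hE x y).2 hxy)
    · intro a x x' ha hR
      have := hF a (e x) (e' x') ha hR
      rwa [Set.mem_preimage (s := D), e'.symm_apply_apply] at this

end

/-! ## Quotient spaces of Borel sets of reals -/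

/-- A set `R` of reals with a relation `E`. -/
structure QS where
  R : Set (ℕ → Bool)
  E : (ℕ → Bool) → (ℕ → Bool) → Prop

/-- The points. -/
abbrev QS.Pt (Q : QS) : Type := {ρ : ℕ → Bool // ρ ∈ Q.R}

/-- The code of a point. -/
def QS.val (Q : QS) (s : Q.Pt) : ℕ → Bool := s.1

/-- The relation between points. -/
def QS.rel (Q : QS) (s t : Q.Pt) : Prop := Q.E s.1 t.1

/-- The quotients of `Q` and `Q'` are isomorphic in `M`. -/
def QS.Iso (M : Set ZFSet.{0}) (Q Q' : QS) : Prop := IsoM M Q.val Q.rel Q'.val Q'.rel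

/-- The quotient of `Q` is standard in `M`. -/
def QS.Standard (M : Set ZFSet.{0}) (Q : QS) : Prop := StdM M Q.val Q.rel

/-- The quotient of `Q` is standard (in the Lean universe), with the classifying map `θ` onto the
Borel set `S`. -/
structure QS.Cls (Q : QS) (S : Set (ℕ → Bool)) (θ : (ℕ → Bool) → ℕ → Bool) : Prop where
  hS : MeasurableSet S
  meas : Measurable fun s : Q.Pt => θ s.1
  maps : ∀ s ∈ Q.R, θ s ∈ S
  onto : ∀ ρ ∈ S, ∃ s ∈ Q.R, θ s = ρ
  iff : ∀ s ∈ Q.R, ∀ t ∈ Q.R, (Q.E s t ↔ θ s = θ t)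
  img : ∀ D : Set Q.Pt, MeasurableSet D → Inv Q.rel D → MeasurableSet {ρ | ∃ s ∈ D, θ s.1 = ρ}

/-- There is a partial order of partial isomorphisms. -/
def QS.HasPI (Q Q' : QS) : Prop :=
  MeasurableSet Q.R ∧ MeasurableSet Q'.R ∧ Nonempty (PIso Q.rel Q'.rel)

end DX
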