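import Pool.Agent.DX.Defs

set_option autoImplicit false

/-!
# The code of a C*-algebra determines it

PROOFS.
* `norm_eq` : from the bits of `acode` (`acode_apply`): `‖t.ev x‖ < q ↔ ‖t.ev y‖ < q` for all
  rational `q`.
* `exists_iso` : for `a : A` choose `k : ℕ → ℕ` with `x (k n) → a` (`DenseRange`); `y (k n)` is a Cauchy
  sequence because `‖y i - y j‖ = ‖x i - x j‖` (`norm_eq` for the term
  `add (var i) (smul (-1) 0 (var j))`); its limit is `e a`; equivalently: the map `x i ↦ y i` is a well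
  defined isometry of `range x` onto `range y` and extends to the completions (for instance
  `IsDenseInducing.extend` / `DenseRange.equalizer`, or: the closure `G` of `{(x i, y i)}` in `A × B`
  satisfies `‖a - a'‖ = ‖b - b'‖` for `(a, b), (a', b') ∈ G` and projects onto `A` and onto `B`: it is
  the graph of a bijection). CLAIM: for every term `t`, `e (t.ev x) = t.ev y`: `t.ev x = lim x (k n)`,
  and `‖t.ev y - y (k n)‖ = ‖t.ev x - x (k n)‖ → 0` by `norm_eq` for `add t (smul (-1) 0 (var (k n)))`.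
  So `e` is isometric, continuous, additive, multiplicative, star preserving on the dense set
  `range x` (use the terms `add`, `mul`, `star`, `smul`) and by density everywhere;
  it commutes with rational complex scalars on `range x`, hence with all complex scalars
  (continuity; the rational complex numbers are dense in `ℂ`).
* `exists_equiv` : from `e : A ≃⋆ₐ[ℂ] B` (as a non-unital star isomorphism) the map
  `π ↦ π ∘ e.symm`, componentwise on the sigma type; `rcode y (π ∘ e.symm) = rcode x π` as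
  `e.symm (y k) = x k`; irreducibility and `NEquiv` are preserved (surjectivity of `e.symm`).
-/

namespace DX

open MBS Filter Topology

variable {A B : Type} [NonUnitalCStarAlgebra A] [NonUnitalCStarAlgebra B] {x : ℕ → A}
  {y : ℕ → B}

theorem num_inj : ∀ s t : Tm, s.num = t.num → s = t := by
  intro s
  induction s with
  | var n =>
    intro t h
    cases t with
    | var m => simp only [Tm.num] at h; rw [show n = m by omega]
    | _ => simp only [Tm.num] at h; omega
  | add s1 s2 h1 h2 =>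
    intro t h
    cases t with
    | add t1 t2 =>
      simp only [Tm.num] at h
      have h3 : Nat.pair s1.num s2.num = Nat.pair t1.num t2.num := by omega
      obtain ⟨h4, h5⟩ := Nat.pair_eq_pair.1 h3
      rw [h1 _ h4, h2 _ h5]
    | _ => simp only [Tm.num] at h; omega
  | mul s1 s2 h1 h2 =>
    intro t h
    cases t with
    | mul t1 t2 =>
      simp only [Tm.num] at h
      have h3 : Nat.pair s1.num s2.num = Nat.pair t1.num t2.num := by omega
      obtain ⟨h4, h5⟩ := Nat.pair_eq_pair.1 h3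
      rw [h1 _ h4, h2 _ h5]
    | _ => simp only [Tm.num] at h; omega
  | star s1 h1 =>
    intro t h
    cases t with
    | star t1 =>
      simp only [Tm.num] at h
      rw [h1 _ (show s1.num = t1.num by omega)]
    | _ => simp only [Tm.num] at h; omega
  | smul a b s1 h1 =>
    intro t h
    cases t with
    | smul a' b' t1 =>
      simp only [Tm.num] at h
      have h3 : Nat.pair (Encodable.encode (a, b)) s1.num =
          Nat.pair (Encodable.encode (a', b')) t1.num := by omega
      obtain ⟨h4, h5⟩ := Nat.pair_eq_pair.1 h3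
      have h6 := Encodable.encode_injective h4
      obtain ⟨rfl, rfl⟩ := Prod.mk.inj h6
      rw [h1 _ h5]
    | _ => simp only [Tm.num] at h; omega

theorem acode_apply (x : ℕ → A) (t : Tm) (q : ℚ) :
    acode x (Nat.pair t.num (Encodable.encode q)) = true ↔ ‖t.ev x‖ < (q : ℝ) := by
  classical
  unfold acode
  rw [decide_eq_true_iff]
  constructor
  · rintro ⟨t', q', h, h'⟩
    obtain ⟨h1, h2⟩ := Nat.pair_eq_pair.1 h
    rw [num_inj _ _ h1, Encodable.encode_injective h2] at h'
    exact h'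
  · intro h
    exact ⟨t, q, rfl, h⟩

theorem norm_eq (h : acode x = acode y) (t : Tm) : ‖t.ev x‖ = ‖t.ev y‖ := by
  apply eq_of_forall_lt_rat_iff_lt
  intro q
  rw [← acode_apply x t q, h, acode_apply y t q]

/-- the graph -/
def gr (x : ℕ → A) (y : ℕ → B) : Set (A × B) := closure (Set.range fun t : Tm => (t.ev x, t.ev y))

theorem gr_norm (h : acode x = acode y) {p : A × B} (hp : p ∈ gr x y) : ‖p.1‖ = ‖p.2‖ := by
  have hc : IsClosed {p : A × B | ‖p.1‖ = ‖p.2‖} := isClosed_eq (by fun_prop) (by fun_prop)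
  have : gr x y ⊆ {p : A × B | ‖p.1‖ = ‖p.2‖} := by
    apply closure_minimal _ hc
    rintro _ ⟨t, rfl⟩
    exact norm_eq h t
  exact this hp

theorem gr_add {p q : A × B} (hp : p ∈ gr x y) (hq : q ∈ gr x y) : p + q ∈ gr x y := by
  refine map_mem_closure₂ (f := fun p q : A × B => p + q) continuous_add hp hq ?_
  rintro _ ⟨s, rfl⟩ _ ⟨t, rfl⟩
  exact ⟨Tm.add s t, rfl⟩

theorem gr_mul {p q : A × B} (hp : p ∈ gr x y) (hq : q ∈ gr x y) : p * q ∈ gr x y := by
  refine map_mem_closure₂ (f := fun p q : A × B => p * q) continuous_mul hp hq ?_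
  rintro _ ⟨s, rfl⟩ _ ⟨t, rfl⟩
  exact ⟨Tm.mul s t, rfl⟩

theorem gr_star {p : A × B} (hp : p ∈ gr x y) : star p ∈ gr x y := by
  refine map_mem_closure (f := fun p : A × B => star p) continuous_star hp ?_
  rintro _ ⟨s, rfl⟩
  exact ⟨Tm.star s, rfl⟩

theorem ratC_dense : DenseRange (fun p : ℚ × ℚ => (p.1 : ℂ) + (p.2 : ℂ) * Complex.I) := by
  have h1 : DenseRange (Prod.map (fun q : ℚ => (q : ℝ)) (fun q : ℚ => (q : ℝ))) :=
    Rat.denseRange_cast.prodMap Rat.denseRange_cast
  have h2 : Continuous (fun p : ℝ × ℝ => (p.1 : ℂ) + (p.2 : ℂ) * Complex.I) := by fun_prop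
  have h3 : Function.Surjective (fun p : ℝ × ℝ => (p.1 : ℂ) + (p.2 : ℂ) * Complex.I) :=
    fun z => ⟨(z.re, z.im), Complex.re_add_im z⟩
  have h4 := h3.denseRange.comp h1 h2
  convert h4 using 1
  ext p
  simp

theorem gr_smul (c : ℂ) {p : A × B} (hp : p ∈ gr x y) : c • p ∈ gr x y := by
  refine map_mem_closure₂ (f := fun (c : ℂ) (p : A × B) => c • p) continuous_smul (ratC_dense c) hp ?_
  rintro _ ⟨⟨a, b⟩, rfl⟩ _ ⟨t, rfl⟩
  exact ⟨Tm.smul a b t, rfl⟩

theorem gr_zero : (0 : A × B) ∈ gr x y := by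
  apply subset_closure
  refine ⟨Tm.smul 0 0 (Tm.var 0), ?_⟩
  simp [Tm.ev]

theorem gr_var (n : ℕ) : (x n, y n) ∈ gr x y := subset_closure ⟨Tm.var n, rfl⟩

theorem gr_sub {p q : A × B} (hp : p ∈ gr x y) (hq : q ∈ gr x y) : p - q ∈ gr x y := by
  have := gr_add hp (gr_smul (-1) hq)
  rwa [neg_one_smul, ← sub_eq_add_neg] at this

theorem gr_inj (h : acode x = acode y) {a : A} {b b' : B} (h1 : (a, b) ∈ gr x y) (h2 : (a, b') ∈ gr x y) :
    b = b' := by
  have := gr_norm h (gr_sub h1 h2)
  simp only [Prod.mk_sub_mk, sub_self, norm_zero] at this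
  exact sub_eq_zero.mp (norm_eq_zero.mp this.symm)

theorem gr_inj' (h : acode x = acode y) {a a' : A} {b : B} (h1 : (a, b) ∈ gr x y) (h2 : (a', b) ∈ gr x y) :
    a = a' := by
  have := gr_norm h (gr_sub h1 h2)
  simp only [Prod.mk_sub_mk, sub_self, norm_zero] at this
  exact sub_eq_zero.mp (norm_eq_zero.mp this)

theorem gr_dist (h : acode x = acode y) (i j : ℕ) : dist (x i) (x j) = dist (y i) (y j) := by
  rw [dist_eq_norm, dist_eq_norm]
  exact gr_norm h (gr_sub (gr_var i) (gr_var j))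

theorem gr_surj (hx : DenseRange x) (h : acode x = acode y) (a : A) : ∃ b, (a, b) ∈ gr x y := by
  obtain ⟨u, hu, hlim⟩ := mem_closure_iff_seq_limit.mp (hx a)
  choose k hk using hu
  have hlim' : Tendsto (fun n => x (k n)) atTop (𝓝 a) := by
    simpa [hk] using hlim
  have hc : CauchySeq (fun n => y (k n)) := by
    have h1 : CauchySeq (fun n => x (k n)) := hlim'.cauchySeq
    rw [Metric.cauchySeq_iff] at h1 ⊢
    intro ε hε
    obtain ⟨N, hN⟩ := h1 ε hε
    refine ⟨N, fun m hm n hn => ?_⟩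
    rw [← gr_dist h]
    exact hN m hm n hn
  obtain ⟨b, hb⟩ := cauchySeq_tendsto_of_complete hc
  refine ⟨b, ?_⟩
  exact mem_closure_of_tendsto (hlim'.prodMk_nhds hb) (Eventually.of_forall fun n => ⟨Tm.var (k n), rfl⟩)

theorem gr_swap {a : A} {b : B} (h : (a, b) ∈ gr x y) : (b, a) ∈ gr y x := by
  refine map_mem_closure (f := fun p : A × B => (p.2, p.1)) (by fun_prop) h ?_
  rintro _ ⟨s, rfl⟩
  exact ⟨s, rfl⟩

theorem exists_iso (hx : DenseRange x) (hy : DenseRange y) (h : acode x = acode y) :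
    ∃ e : A ≃⋆ₐ[ℂ] B, ∀ n, e (x n) = y n := by
  choose f hf using gr_surj hx h
  let F : A →⋆ₙₐ[ℂ] B :=
    { toFun := f
      map_smul' := fun c a => gr_inj h (hf _) (gr_smul c (hf a))
      map_zero' := gr_inj h (hf _) gr_zero
      map_add' := fun a b => gr_inj h (hf _) (gr_add (hf a) (hf b))
      map_mul' := fun a b => gr_inj h (hf _) (gr_mul (hf a) (hf b))
      map_star' := fun a => gr_inj h (hf _) (gr_star (hf a)) }
  have hbij : Function.Bijective F := by
    constructor
    · intro a a' haa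
      have h1 : f a = f a' := haa
      have h2 := hf a
      rw [h1] at h2
      exact gr_inj' h h2 (hf a')
    · intro b
      obtain ⟨a, ha⟩ := gr_surj hy h.symm b
      exact ⟨a, gr_inj h (hf a) (gr_swap ha)⟩
  exact ⟨StarAlgEquiv.ofBijective F hbij, fun n => gr_inj h (hf (x n)) (gr_var n)⟩

/-- transport of an irreducible representation -/
noncomputable def trIrr (e : A ≃⋆ₐ[ℂ] B) (π : NIrr A) : NIrr B :=
  ⟨π.1, ⟨π.2.1.comp (e.symm : B →⋆ₙₐ[ℂ] A), by
    obtain ⟨n, π, hπ⟩ := π
    refine ⟨?_, ?_⟩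
    · obtain ⟨a, ha⟩ := hπ.1
      exact ⟨e a, by simpa using ha⟩
    · intro K hK hinv
      refine hπ.2 K hK fun a v hv => ?_
      have := hinv (e a) v hv
      simpa using this⟩⟩

theorem trIrr_apply (e : A ≃⋆ₐ[ℂ] B) (π : NIrr A) (b : B) : (trIrr e π).2.1 b = π.2.1 (e.symm b) := rfl

theorem rbit_tr (e : A ≃⋆ₐ[ℂ] B) (he : ∀ k, e.symm (y k) = x k) (π : NIrr A) (b : Bit) :
    rbit y (trIrr e π) b = rbit x π b := by
  rcases b with d | ⟨k, i, j, b, q⟩
  · rfl
  · simp only [rbit, trIrr_apply, he]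
    rfl

theorem rcode_tr (e : A ≃⋆ₐ[ℂ] B) (he : ∀ k, e.symm (y k) = x k) (π : NIrr A) :
    rcode y (trIrr e π) = rcode x π := by
  have h : rbit y (trIrr e π) = rbit x π := funext fun b => rbit_tr e he π b
  unfold rcode
  rw [h]

theorem nequiv_tr (e : A ≃⋆ₐ[ℂ] B) (π π' : NIrr A) :
    NEquiv (trIrr e π) (trIrr e π') ↔ NEquiv π π' := by
  obtain ⟨n, π, hπ⟩ := π
  obtain ⟨n', π', hπ'⟩ := π'
  constructor
  · rintro ⟨U, hU⟩
    exact ⟨U, fun a v => by
      have h1 : U (π (e.symm (e a)) v) = π' (e.symm (e a)) (U v) := hU (e a) v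
      rw [e.symm_apply_apply] at h1
      exact h1⟩
  · rintro ⟨U, hU⟩
    exact ⟨U, fun a v => hU (e.symm a) v⟩

theorem exists_equiv (hx : DenseRange x) (hy : DenseRange y) (h : acode x = acode y) :
    ∃ e : NIrr A ≃ NIrr B, (∀ π, rcode y (e π) = rcode x π) ∧
      ∀ π π', NEquiv (e π) (e π') ↔ NEquiv π π' := by
  obtain ⟨e, he⟩ := exists_iso hx hy h
  refine ⟨⟨trIrr e, trIrr e.symm, ?_, ?_⟩, ?_, ?_⟩
  · rintro ⟨n, π, hπ⟩
    unfold trIrr
    congr 2
    ext a : 1
    simp
  · rintro ⟨n, π, hπ⟩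
    unfold trIrr
    congr 2
    ext a : 1
    simp
  · intro π
    have hs : ∀ k, e.symm (y k) = x k := fun k => by rw [← he k, e.symm_apply_apply]
    exact rcode_tr e hs π
  · intro π π'
    exact nequiv_tr e π π'

end DX
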