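import Pool.Agent.DX.RC
import Pool.Agent.DX.Trans
import Pool.Agent.DX.Congr

set_option autoImplicit false

/-!
# The spectrum of a C*-algebra as a coded quotient space

PROOFS.
* `ofAlg_congr` : `exists_equiv` (range and relation agree; `QS` extensionality: `QS.mk.injEq`).
* `algQS_acode` : unfold, `dif_pos`, `ofAlg_congr`.
* `specIso_of`, `specIso_to`, `specStd_of`, `specStd_to` : `IsoM.congr`, `StdM.congr` for
  `eAlg x hx` (`Equiv.ofInjective`) and its inverse.
* `mAlg` : `MeasurableEmbedding.equivRange`; `(ofAlg x).Pt` is `↥(Set.range (rcode x))` definitionally.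
* `hasPI` : `PIso.congr` for `(mAlg x hx).symm`.
* `exists_cls` : `toNSpec : NIrr A → NSpec A` is measurable onto; `NSpec A` standard gives an injective
  measurable `f : NSpec A → ℕ → Bool` (`MeasurableSpace.measurable_injection_nat_bool_of_...` or
  `exists_measurableEmbedding_...`), a measurable embedding by Lusin-Souslin
  (`Measurable.measurableEmbedding`). `S = range f`, `θ ρ = f (toNSpec π)` for `rcode x π = ρ` (zero if
  there is no such `π`). `img`: the image of an invariant Borel `D` is `f '' {q | D-class}` and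
  `{q}` is measurable in `NSpec A` because its preimage in `NIrr A` is.
* `graph_meas` : the image of a measurable subset of `NIrr A × NIrr A` under the measurable embedding
  `Prod.map (rcode x) (rcode x)` (`MeasurableEmbedding.prodMap`).
-/

namespace DX

open MBS MeasureTheory TopologicalSpace

noncomputable section

section

variable {A : Type} [NonUnitalCStarAlgebra A]

/-- The spectrum of the C*-algebra `A` with the dense sequence `x`. -/
def ofAlg (x : ℕ → A) : QS where
  R := Set.range (rcode x)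
  E ρ σ := ∃ π π' : NIrr A, rcode x π = ρ ∧ rcode x π' = σ ∧ NEquiv π π'

theorem ofAlg_E {x : ℕ → A} (hx : DenseRange x) (π π' : NIrr A) :
    (ofAlg x).E (rcode x π) (rcode x π') ↔ NEquiv π π' := by
  constructor
  · rintro ⟨π₁, π₁', h1, h2, h3⟩
    rwa [rcode_inj hx h1, rcode_inj hx h2] at h3
  · exact fun h => ⟨π, π', rfl, rfl, h⟩

end

theorem ofAlg_congr {A B : Type} [NonUnitalCStarAlgebra A] [NonUnitalCStarAlgebra B] {x : ℕ → A}
    {y : ℕ → B} (hx : DenseRange x) (hy : DenseRange y) (h : acode x = acode y) :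
    ofAlg x = ofAlg y := by
  obtain ⟨e, he, hE⟩ := exists_equiv hx hy h
  have h1 : Set.range (rcode x) = Set.range (rcode y) := by
    ext ρ
    constructor
    · rintro ⟨π, rfl⟩
      exact ⟨e π, he π⟩
    · rintro ⟨π, rfl⟩
      refine ⟨e.symm π, ?_⟩
      rw [← he, e.apply_symm_apply]
  have h2 : (fun ρ σ => ∃ π π' : NIrr A, rcode x π = ρ ∧ rcode x π' = σ ∧ NEquiv π π') =
      (fun ρ σ => ∃ π π' : NIrr B, rcode y π = ρ ∧ rcode y π' = σ ∧ NEquiv π π') := by
    funext ρ σ
    apply propext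
    constructor
    · rintro ⟨π, π', rfl, rfl, h3⟩
      exact ⟨e π, e π', he π, he π', (hE π π').2 h3⟩
    · rintro ⟨π, π', rfl, rfl, h3⟩
      refine ⟨e.symm π, e.symm π', ?_, ?_, ?_⟩
      · rw [← he, e.apply_symm_apply]
      · rw [← he, e.apply_symm_apply]
      · rw [← hE, e.apply_symm_apply, e.apply_symm_apply]
        exact h3
  show QS.mk _ _ = QS.mk _ _
  rw [h1, h2]

/-- `a` is the code of some C*-algebra with a dense sequence. -/
def IsAC (a : ℕ → Bool) : Prop :=
  ∃ (A : Type) (_ : NonUnitalCStarAlgebra A) (x : ℕ → A), DenseRange x ∧ acode x = a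

open Classical in
/-- The spectrum of the C*-algebra with the code `a`. -/
def algQS (a : ℕ → Bool) : QS :=
  if h : IsAC a then
    letI := h.choose_spec.choose
    ofAlg (h.choose_spec.choose_spec.choose)
  else ⟨∅, fun _ _ => False⟩

theorem algQS_acode {A : Type} [NonUnitalCStarAlgebra A] {x : ℕ → A} (hx : DenseRange x) :
    algQS (acode x) = ofAlg x := by
  have h : IsAC (acode x) := ⟨A, inferInstance, x, hx, rfl⟩
  unfold algQS
  rw [dif_pos h]
  let := h.choose_spec.choose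
  have h2 := h.choose_spec.choose_spec.choose_spec
  exact ofAlg_congr h2.1 hx h2.2

section

variable {A : Type} [NonUnitalCStarAlgebra A]

/-- The irreducible representations are the points of `ofAlg x`. -/
def eAlg (x : ℕ → A) (hx : DenseRange x) : NIrr A ≃ (ofAlg x).Pt :=
  Equiv.ofInjective (rcode x) (rcode_inj hx)

theorem eAlg_val (x : ℕ → A) (hx : DenseRange x) (π : NIrr A) :
    (ofAlg x).val (eAlg x hx π) = rcode x π := rfl

theorem eAlg_rel (x : ℕ → A) (hx : DenseRange x) (π π' : NIrr A) :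
    (ofAlg x).rel (eAlg x hx π) (eAlg x hx π') ↔ NEquiv π π' :=
  ofAlg_E hx π π'

/-- The same as a measurable equivalence. -/
def mAlg (x : ℕ → A) (hx : DenseRange x) [StandardBorelSpace (NIrr A)] :
    NIrr A ≃ᵐ (ofAlg x).Pt :=
  (rcode_emb hx).equivRange

theorem mAlg_val (x : ℕ → A) (hx : DenseRange x) [StandardBorelSpace (NIrr A)] (π : NIrr A) :
    (ofAlg x).val (mAlg x hx π) = rcode x π := by
  show ((rcode_emb hx).equivRange π).1 = rcode x π
  rw [MeasurableEmbedding.equivRange_apply]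

theorem AlgQS.mAlg_coe (x : ℕ → A) (hx : DenseRange x) [StandardBorelSpace (NIrr A)] (π : NIrr A) :
    (mAlg x hx π).1 = rcode x π := mAlg_val x hx π

theorem mAlg_rel (x : ℕ → A) (hx : DenseRange x) [StandardBorelSpace (NIrr A)] (π π' : NIrr A) :
    (ofAlg x).rel (mAlg x hx π) (mAlg x hx π') ↔ NEquiv π π' := by
  show (ofAlg x).E (mAlg x hx π).1 (mAlg x hx π').1 ↔ NEquiv π π'
  rw [AlgQS.mAlg_coe, AlgQS.mAlg_coe]
  exact ofAlg_E hx π π'

theorem ofAlg_meas {x : ℕ → A} (hx : DenseRange x) [StandardBorelSpace (NIrr A)] :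
    MeasurableSet (ofAlg x).R :=
  (rcode_emb hx).measurableSet_range

theorem graph_meas {x : ℕ → A} (hx : DenseRange x) [StandardBorelSpace (NIrr A)]
    (hE : MeasurableSet {p : NIrr A × NIrr A | NEquiv p.1 p.2}) :
    MeasurableSet {p : (ℕ → Bool) × (ℕ → Bool) | (ofAlg x).E p.1 p.2} := by
  have hm := (rcode_emb hx).prodMap (rcode_emb hx)
  have h1 : {p : (ℕ → Bool) × (ℕ → Bool) | (ofAlg x).E p.1 p.2} =
      Prod.map (rcode x) (rcode x) '' {p : NIrr A × NIrr A | NEquiv p.1 p.2} := by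
    ext ⟨ρ, σ⟩
    constructor
    · rintro ⟨π, π', h1, h2, h3⟩
      exact ⟨(π, π'), h3, by rw [Prod.map_apply, h1, h2]⟩
    · rintro ⟨⟨π, π'⟩, h3, h4⟩
      rw [Prod.map_apply, Prod.mk.injEq] at h4
      exact ⟨π, π', h4.1, h4.2, h3⟩
  rw [h1]
  exact hm.measurableSet_image.2 hE

theorem AlgQS.toNSpec_meas : Measurable (toNSpec : NIrr A → NSpec A) := by
  intro D hD
  exact hD

theorem exists_cls {x : ℕ → A} (hx : DenseRange x) [StandardBorelSpace (NIrr A)]
    [StandardBorelSpace (NSpec A)] : ∃ S θ, (ofAlg x).Cls S θ := by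
  classical
  obtain ⟨f, hfm, hfi⟩ :=
    MeasurableSpace.measurable_injection_nat_bool_of_countablySeparated (NSpec A)
  have hfe : MeasurableEmbedding f := hfm.measurableEmbedding hfi
  obtain ⟨θ, hθ⟩ : ∃ θ : (ℕ → Bool) → ℕ → Bool, ∀ π : NIrr A,
      θ (rcode x π) = f (toNSpec π) := by
    refine ⟨fun ρ => if h : ∃ π, rcode x π = ρ then f (toNSpec h.choose) else fun _ => false,
      fun π => ?_⟩
    have h : ∃ π', rcode x π' = rcode x π := ⟨π, rfl⟩
    show (if h : ∃ π', rcode x π' = rcode x π then f (toNSpec h.choose) else fun _ => false) = _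
    rw [dif_pos h, rcode_inj hx h.choose_spec]
  have hq : ∀ π π' : NIrr A, toNSpec π = toNSpec π' ↔ NEquiv π π' := fun π π' =>
    ⟨fun h => Quotient.exact h, fun h => Quotient.sound h⟩
  refine ⟨Set.range f, θ, ?_, ?_, ?_, ?_, ?_, ?_⟩
  · exact hfe.measurableSet_range
  · have h1 : (fun s : (ofAlg x).Pt => θ s.1) =
        f ∘ toNSpec ∘ (mAlg x hx).symm := by
      funext s
      obtain ⟨π, rfl⟩ := (mAlg x hx).surjective s
      show θ (mAlg x hx π).1 = f (toNSpec ((mAlg x hx).symm (mAlg x hx π)))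
      rw [AlgQS.mAlg_coe, hθ, MeasurableEquiv.symm_apply_apply]
    rw [h1]
    exact hfm.comp (AlgQS.toNSpec_meas.comp (mAlg x hx).symm.measurable)
  · rintro _ ⟨π, rfl⟩
    rw [hθ]
    exact ⟨_, rfl⟩
  · rintro _ ⟨q, rfl⟩
    obtain ⟨π, rfl⟩ := Quotient.exists_rep q
    exact ⟨rcode x π, ⟨π, rfl⟩, hθ π⟩
  · rintro _ ⟨π, rfl⟩ _ ⟨π', rfl⟩
    rw [hθ, hθ, ofAlg_E hx, hfi.eq_iff, hq]
  · intro D hD hI
    have h1 : {ρ | ∃ s ∈ D, θ s.1 = ρ} = f '' (toNSpec '' ((mAlg x hx) ⁻¹' D)) := by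
      ext ρ
      constructor
      · rintro ⟨s, hs, rfl⟩
        obtain ⟨π, rfl⟩ := (mAlg x hx).surjective s
        refine ⟨toNSpec π, ⟨π, hs, rfl⟩, ?_⟩
        rw [AlgQS.mAlg_coe, hθ]
      · rintro ⟨_, ⟨π, hπ, rfl⟩, rfl⟩
        refine ⟨mAlg x hx π, hπ, ?_⟩
        rw [AlgQS.mAlg_coe, hθ]
    have h2 : toNSpec ⁻¹' (toNSpec '' ((mAlg x hx) ⁻¹' D)) = (mAlg x hx) ⁻¹' D := by
      ext π
      constructor
      · rintro ⟨π', hπ', h3⟩
        exact (hI _ _ ((mAlg_rel x hx π' π).2 ((hq _ _).1 h3))).1 hπ'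
      · intro hπ
        exact ⟨π, hπ, rfl⟩
    rw [h1]
    refine hfe.measurableSet_image.2 ?_
    show MeasurableSet (toNSpec ⁻¹' (toNSpec '' ((mAlg x hx) ⁻¹' D)))
    rw [h2]
    exact (mAlg x hx).measurable hD

end

section

variable {A B : Type} [NonUnitalCStarAlgebra A] [NonUnitalCStarAlgebra B] {x : ℕ → A}
  {y : ℕ → B} {M : Set ZFSet.{0}}

theorem specIso_of (hx : DenseRange x) (hy : DenseRange y) (h : (ofAlg x).Iso M (ofAlg y)) :
    SpecIsoM M x y :=
  IsoM.congr (eAlg x hx) (eAlg y hy) (eAlg_val x hx) (eAlg_val y hy) (eAlg_rel x hx)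
    (eAlg_rel y hy) h

theorem AlgQS.symm_val (hx : DenseRange x) (s : (ofAlg x).Pt) :
    rcode x ((eAlg x hx).symm s) = (ofAlg x).val s := by
  rw [← eAlg_val x hx, Equiv.apply_symm_apply]

theorem AlgQS.symm_rel (hx : DenseRange x) (s t : (ofAlg x).Pt) :
    NEquiv ((eAlg x hx).symm s) ((eAlg x hx).symm t) ↔ (ofAlg x).rel s t := by
  rw [← eAlg_rel x hx, Equiv.apply_symm_apply, Equiv.apply_symm_apply]

theorem specIso_to (hx : DenseRange x) (hy : DenseRange y) (h : SpecIsoM M x y) :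
    (ofAlg x).Iso M (ofAlg y) :=
  IsoM.congr (eAlg x hx).symm (eAlg y hy).symm (AlgQS.symm_val hx) (AlgQS.symm_val hy)
    (AlgQS.symm_rel hx) (AlgQS.symm_rel hy) h

theorem specStd_of (hx : DenseRange x) (h : (ofAlg x).Standard M) : SpecStdM M x :=
  StdM.congr (eAlg x hx) (eAlg_val x hx) (eAlg_rel x hx) h

theorem specStd_to (hx : DenseRange x) (h : SpecStdM M x) : (ofAlg x).Standard M :=
  StdM.congr (eAlg x hx).symm (AlgQS.symm_val hx) (AlgQS.symm_rel hx) h

theorem hasPI (hx : DenseRange x) (hy : DenseRange y) [StandardBorelSpace (NIrr A)]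
    [StandardBorelSpace (NIrr B)]
    (h : Nonempty (PIso (NEquiv (A := A)) (NEquiv (A := B)))) :
    (ofAlg x).HasPI (ofAlg y) := by
  refine ⟨ofAlg_meas hx, ofAlg_meas hy, PIso.congr (mAlg x hx).symm (mAlg y hy).symm ?_ ?_ h⟩
  · intro s t
    rw [← mAlg_rel x hx, MeasurableEquiv.apply_symm_apply, MeasurableEquiv.apply_symm_apply]
  · intro s t
    rw [← mAlg_rel y hy, MeasurableEquiv.apply_symm_apply, MeasurableEquiv.apply_symm_apply]

end

end

end DX
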