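import Pool.Agent.DX.BDict

set_option autoImplicit false

/-!
# The second model: absoluteness of Borel sets

PROOFS.
* `inG_inter` : common extension (`dir_g`), `sub_mono`, `sub_inter`. `inG_mono` : `sub_superset`.
* `inG_compl` : both at once contradict `not_both` (common extension); one of them by `hG.dec`, `sub_g`.
* `inG_union` : backward `inG_mono`. Forward: `hG.un`; the second alternative `p1` contradicts
  `exists_sub_iUnion` at a common extension of `p1` and the condition for the union.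
* `abs_code` : induction on `b` (parts in the hull: `h.compl'`, `h.union'`, `h.seqc`). `basic (inl (k, n))`: both
  sides are `InG g {ω | ω k n = true}`; `basic (inr n)`: both are `InG g {ω | f.1 ω n = true}` (`decide_eq_true_iff`).
  `compl b`: `inG_compl` for `mB b` (`h.mB`; `at' f (mB (compl b)) = (at' f (mB b))ᶜ`). `union s`: `inG_union` for
  `fun n => mB (s n)` (`h.seqb`).
* `abs` : `h.code`. * `ev_jF` : `funext`, by cases `n % 2 = 0`; the sets in `InG` are equal.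
* `absZ` : `abs` for `jF f f'` and `mZ hZ`, `ev_jF`, `fs_jn`, `sn_jn`. -/

namespace Pool.Agent.RFN.GX.DB

open Pool.Agent.ChoicelessEmb LName DX RB57 MeasureTheory

variable {K : Type}

theorem inG_mono {g : Set (Cd K)} {S S' : Set (Om K)} (hS : S ⊆ S') (h : InG g S) :
    InG g S' := by
  obtain ⟨p, hp, h1⟩ := h
  exact ⟨p, hp, sub_superset hS h1⟩

theorem inG_inter (X : Set (Nm K)) {g : Set (Cd K)} [hs : SB X g] {S S' : Set (Om K)}
    (h : InG g S) (h' : InG g S') : InG g (S ∩ S') := by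
  obtain ⟨p, hp, h1⟩ := h
  obtain ⟨q, hq, h2⟩ := h'
  obtain ⟨r, hr, hrp, hrq⟩ := dir_g X hp hq
  exact ⟨r, hr, sub_inter (sub_mono hrp h1) (sub_mono hrq h2)⟩

variable {X : Set (Nm K)} {g : Set (Cd K)} [hs : SB X g] (h : StC X) (hG : StG X hs.g0)

include hG in
theorem inG_compl {f : Fr K} {B : MB K} (hf : Hu X f) (hB : Hu X B) :
    InG g (at' f B)ᶜ ↔ ¬ InG g (at' f B) := by
  constructor
  · rintro ⟨p, hp, h1⟩ ⟨q, hq, h2⟩
    obtain ⟨r, hr, hrp, hrq⟩ := dir_g X hp hq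
    exact not_both (sub_mono hrq h2) (sub_mono hrp h1)
  · intro hn
    obtain ⟨p, hp, h1 | h1⟩ := hG.dec f hf B hB
    · exact absurd ⟨p, sub_g (X := X) hp, h1⟩ hn
    · exact ⟨p, sub_g (X := X) hp, h1⟩

include hG in
theorem inG_union {f : Fr K} {s : ℕ → MB K} (hf : Hu X f) (hs' : Hu X s) :
    InG g (⋃ n, at' f (s n)) ↔ ∃ n, InG g (at' f (s n)) := by
  constructor
  · rintro ⟨p, hp, h1⟩
    rcases hG.un f hf s hs' with ⟨q, hq, n, h2⟩ | ⟨q, hq, h2⟩
    · exact ⟨n, q, sub_g (X := X) hq, h2⟩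
    · exfalso
      obtain ⟨r, hr, hrp, hrq⟩ := dir_g X hp (sub_g (X := X) hq)
      obtain ⟨n, t, ht, h3⟩ := exists_sub_iUnion (fun n => at_meas f (s n)) (sub_mono hrp h1)
      exact h2 t (le_trans ht hrq) n h3
  · rintro ⟨n, hn⟩
    exact inG_mono (Set.subset_iUnion (fun n => at' f (s n)) n) hn

include h hG in
theorem abs_code {f : Fr K} (hf : Hu X f) {b : BC (IK K)} (hb : Hu X b) :
    (gp g, ev g f) ∈ (mB b).1 ↔ InG g (at' f (mB b)) := by
  induction b with
  | basic i =>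
    rcases i with ⟨k, n⟩ | n
    · exact @decide_eq_true_iff _ (Classical.propDecidable _)
    · exact @decide_eq_true_iff _ (Classical.propDecidable _)
  | compl b ih =>
    have hb' := h.compl' b hb
    have e1 : at' f (mB (BC.compl b)) = (at' f (mB b))ᶜ := rfl
    rw [e1, inG_compl hG hf (h.mB b hb'), ← ih hb']
    exact Iff.rfl
  | union s ih =>
    have hs1 := h.union' s hb
    have e1 : at' f (mB (BC.union s)) = ⋃ n, at' f (mB (s n)) := by
      ext ω
      rw [Set.mem_iUnion]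
      exact Set.mem_iUnion
    have h1 := inG_union (g := g) hG hf (h.seqb s hs1)
    rw [e1, h1]
    have h2 : (gp g, ev g f) ∈ (mB (BC.union s)).1 ↔ ∃ n, (gp g, ev g f) ∈ (mB (s n)).1 :=
      Set.mem_iUnion
    rw [h2]
    exact exists_congr fun n => ih n (h.seqc s hs1 n)

include h hG in
theorem abs {f : Fr K} (hf : Hu X f) {B : MB K} (hB : Hu X B) :
    (gp g, ev g f) ∈ B.1 ↔ InG g (at' f B) := by
  obtain ⟨b, hb, rfl⟩ := h.code B hB
  exact abs_code h hG hf hb

theorem ev_jF (f f' : Fr K) : ev g (jF f f') = jn (ev g f) (ev g f') := by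
  funext n
  unfold ev jn
  by_cases hn : n % 2 = 0
  · rw [if_pos hn]
    have e : {ω : Om K | (jF f f').1 ω n = true} = {ω | f.1 ω (n / 2) = true} := by
      ext ω
      show (jF f f').1 ω n = true ↔ f.1 ω (n / 2) = true
      have : (jF f f').1 ω n = f.1 ω (n / 2) := by
        show (if n % 2 = 0 then f.1 ω (n / 2) else f'.1 ω (n / 2)) = _
        rw [if_pos hn]
      rw [this]
    rw [e]
  · rw [if_neg hn]
    have e : {ω : Om K | (jF f f').1 ω n = true} = {ω | f'.1 ω (n / 2) = true} := by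
      ext ω
      show (jF f f').1 ω n = true ↔ f'.1 ω (n / 2) = true
      have : (jF f f').1 ω n = f'.1 ω (n / 2) := by
        show (if n % 2 = 0 then f.1 ω (n / 2) else f'.1 ω (n / 2)) = _
        rw [if_neg hn]
      rw [this]
    rw [e]

include h hG in
theorem absZ {Z : Rl → Rl → Prop} (hZ : MZ Z) (hX : Hu X (mZ hZ : MB K)) {f f' : Fr K}
    (hf : Hu X f) (hf' : Hu X f') :
    Z (ev g f) (ev g f') ↔ InG g {ω | Z (f.1 ω) (f'.1 ω)} := by
  have h1 := abs (g := g) h hG (h.jF f f' hf hf') hX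
  have e1 : at' (jF f f') (mZ hZ) = {ω : Om K | Z (f.1 ω) (f'.1 ω)} := by
    ext ω
    show Z (fs (jn (f.1 ω) (f'.1 ω))) (sn (jn (f.1 ω) (f'.1 ω))) ↔ Z (f.1 ω) (f'.1 ω)
    rw [fs_jn, sn_jn]
  rw [e1] at h1
  rw [← h1]
  show Z (ev g f) (ev g f') ↔ Z (fs (ev g (jF f f'))) (sn (ev g (jF f f')))
  rw [ev_jF, fs_jn, sn_jn]

include h hG in
theorem decZ {Z : Rl → Rl → Prop} (hZ : MZ Z) (hX : Hu X (mZ hZ : MB K)) {f f' : Fr K}
    (hf : Hu X f) (hf' : Hu X f') :
    InG g {ω | ¬ Z (f.1 ω) (f'.1 ω)} ↔ ¬ InG g {ω | Z (f.1 ω) (f'.1 ω)} := by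
  have h1 := inG_compl (g := g) hG (h.jF f f' hf hf') hX
  have e1 : at' (jF f f') (mZ hZ) = {ω : Om K | Z (f.1 ω) (f'.1 ω)} := by
    ext ω
    show Z (fs (jn (f.1 ω) (f'.1 ω))) (sn (jn (f.1 ω) (f'.1 ω))) ↔ Z (f.1 ω) (f'.1 ω)
    rw [fs_jn, sn_jn]
  rw [e1] at h1
  exact h1

end Pool.Agent.RFN.GX.DB
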