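import Pool.Agent.DX.BNm

set_option autoImplicit false

/-!
# Sections of random names

PROOFS.
* `secB_of_not_neg` : let `q ≤ p`, `Sub q (at' f D)`. If `fmem (qN n f) u q` but not `Sub q (at' f B)` then some
  `r ≤ q` has `Sub r (at' f B)ᶜ` (`exists_sub_compl`, `at_meas`) and `NegB` holds at `r`. If
  `Sub q (at' f B)` then for every `r ≤ q`, not `NegB` at `r` gives `s ≤ r` with `fmem .. s`: `fmem_dense`.
* `exists_secB` : for every `n` apply `mix` to `W B q := SecB u D n B q`, and `mixB` to the result: `B`. For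
  `q ≤ p` and `f` with `Sub q (at' f D)`: if `r ≤ q` is almost contained in a piece `A k` then
  `SecB u D n (t k) r`, and the events `at' f B`, `at' f (t k)` agree on `A k`: so
  `fmem (qN n f) u r ↔ Sub r (at' f B)`. The `r ≤ q` which are almost contained in a piece are dense
  (`Sub p (⋃ A k)`, `sub_mono`, `exists_sub_iUnion`); so the equivalence holds for `q` by `fmem_dense`,
  `sub_of_dense` (and `fmem_mono`, `sub_mono`). -/

namespace Pool.Agent.RFN.GX.DB

open Pool.Agent.ChoicelessEmb LName DX RB57 MeasureTheory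

variable {K : Type} {u : Nm K} {D B : MB K} {n : ℕ} {p q : Cd K}

theorem secB_mono (hq : q ≤ p) (h : SecB u D n B p) : SecB u D n B q :=
  fun r hr f hf => h r (hr.trans hq) f hf

theorem secB_of_not_neg (h : ∀ r ≤ p, ∀ f, ¬ NegB u D n B f r) : SecB u D n B p := by
  intro q hq f hf
  constructor
  · intro hm
    by_contra hc
    obtain ⟨r, hr, h1⟩ := exists_sub_compl (at_meas f B) hc
    exact h r (hr.trans hq) f ⟨sub_mono hr hf, Or.inr ⟨h1, fmem_mono hm hr⟩⟩
  · intro hs
    refine fmem_dense fun r hr => ?_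
    by_contra hc
    exact h r (hr.trans hq) f ⟨sub_mono hr hf,
      Or.inl ⟨sub_mono hr hs, fun s hs' hm => hc ⟨s, hs', hm⟩⟩⟩

theorem exists_secB (h : ∀ n, ∀ r ≤ p, ∃ q ≤ r, ∃ B, SecB u D n B q) :
    ∃ s : ℕ → MB K, ∀ n, SecB u D n (s n) p := by
  have key : ∀ n, ∃ B : MB K, SecB u D n B p := by
    intro n
    obtain ⟨A, t, hA, hd, hp, ht⟩ := mix (fun (B : MB K) q => SecB u D n B q)
      (fun B p q hq hB => secB_mono hq hB) p (h n)
    obtain ⟨B, hB⟩ := mixB hA hd t
    refine ⟨B, ?_⟩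
    intro q hq f hf
    have hpiece : ∀ r ≤ q, ∃ s ≤ r, ∃ k, Sub s (A k) := by
      intro r hr
      obtain ⟨k, s, hs, hk⟩ := exists_sub_iUnion hA (sub_mono (hr.trans hq) hp)
      exact ⟨s, hs, k, hk⟩
    have hagree : ∀ r ≤ q, ∀ k, Sub r (A k) → (fmem (qN n f) u r ↔ Sub r (at' f B)) := by
      intro r hr k hk
      rw [ht k r hk r le_rfl f (sub_mono hr hf)]
      constructor
      · intro h1
        refine sub_superset ?_ (sub_inter hk h1)
        rintro ω ⟨h2, h3⟩
        exact (hB k ω h2 _).2 h3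
      · intro h1
        refine sub_superset ?_ (sub_inter hk h1)
        rintro ω ⟨h2, h3⟩
        exact (hB k ω h2 _).1 h3
    constructor
    · intro hm
      refine sub_of_dense (at_meas f B) fun r hr => ?_
      obtain ⟨s, hs, k, hk⟩ := hpiece r hr
      exact ⟨s, hs, (hagree s (hs.trans hr) k hk).1 (fmem_mono hm (hs.trans hr))⟩
    · intro hS
      refine fmem_dense fun r hr => ?_
      obtain ⟨s, hs, k, hk⟩ := hpiece r hr
      exact ⟨s, hs, (hagree s (hs.trans hr) k hk).2 (sub_mono (hs.trans hr) hS)⟩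
  choose s hs using key
  exact ⟨s, hs⟩

end Pool.Agent.RFN.GX.DB
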