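import Pool.Agent.DX.BAbs
import Pool.Agent.DX.BSec

set_option autoImplicit false

/-!
# The second model: the Borel sets of the model are the sections of the sets in the hull

`(X', c)` is an arbitrary coded space.

PROOFS (compare DX/ABor). Points of `(X', c)` in the model: `c x = ev g f` for some `f` in the hull
(`rZ_mem_iff`). `borM_sub` : induction.
`borM_univ` : `PtM` is the union of the sequence `{c x 0 = 1}`, complement, complement, ...:
`BorM.union` with `SeqM` from `z = val X g (nB mP)` (`h.nB`, `h.mP`, `pair_nB`, `abs`).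
`borM_of` : it suffices to treat `B = mB b`, `b` in the hull (`h.code`), by induction on `b`.
`basic (inl (k, n))`: the condition does not depend on `x`: the set is `PtM` (`borM_univ`) or empty (the
complement of `PtM`). `basic (inr n)`: `BorM.basic n`. `compl`: `BorM.compl`. `union s`: `BorM.union` for
`D n = {x | x ∈ PtM ∧ (gp g, c x) ∈ (mB (s n)).1}`, `SeqM` with `z = val X g (nB fun n => mB (s n))` (`h.seqb`, `h.nB`,
`pair_nB`, `abs`).
`borM_to` : induction on `BorM`. `basic n`: `mB (BC.basic (inr n))` (`h.bas`). `compl`: `mC` (`h.mC`). `union Dn`: `choose`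
the sets `B n`; `z = val X g u`. For every `n` some `p ∈ g0` has `SecB u D n (B n) p`: by `hG.sec` otherwise
`p ∈ g0` and `f` in the hull with `NegB u D n (B n) f p`; then `InG g (at' f D)`, so `(gp g, ev g f) ∈ D`
(`abs`), `ev g f = c x` by `hc`; first case: `InG g (at' f (B n))`, so `x ∈ Dn n`, so the pair is in `z`, so
some `q ∈ g` has `fmem (qN n f) u q` (`pair_qN`): contradiction at a common extension; second case:
the pair is in `z`, so `x ∈ Dn n` and `InG g (at' f (B n))`, contradiction with `not_both` at a common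
extension. `hG.seq` gives `s` in the hull and `p ∈ g0` with `SecB u D n (s n) p` for all `n`; the set is `mU s`
(`h.mU`): for `x` in the model with `c x = ev g f`: `x ∈ Dn n` iff some `q ∈ g` has `fmem (qN n f) u q` iff
(common extension of `q`, `p` and a condition for `at' f D`) `InG g (at' f (s n))` iff
`(gp g, c x) ∈ (s n).1` (`abs`, `h.seq`). -/

namespace Pool.Agent.RFN.GX.DB

open Pool.Agent.ChoicelessEmb LName DX RB57 MeasureTheory

variable {K : Type}

theorem borM_sub {M : Set ZFSet.{0}} {X' : Type} {c : X' → Rl} {D : Set X'}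
    (hD : BorM M c D) : D ⊆ PtM M c := by
  induction hD with
  | basic n => exact fun x hx => hx.1
  | compl D _ _ => exact fun x hx => hx.1
  | union D _ _ ih =>
    rintro x ⟨n, hn⟩
    exact ih n hn

variable {X : Set (Nm K)} {g : Set (Cd K)} [hs : SB X g] (h : StC X) (hG : StG X hs.g0)

include h hG in
private theorem seqM_of {X' : Type} (c : X' → Rl) {s : ℕ → MB K} (hs' : Hu X s) :
    SeqM (Mod X g) c (fun n => {x | x ∈ PtM (Mod X g) c ∧ (gp g, c x) ∈ (s n).1}) := by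
  refine ⟨val X g (nB s), ⟨nB s, h.nB s hs', rfl⟩, fun n x hx => ?_⟩
  obtain ⟨f, hf, hfx⟩ := (rZ_mem_iff h hG).1 hx
  rw [← hfx, pair_nB h hf, ← abs h hG hf (h.seq s hs' n)]
  exact ⟨fun h2 => by rw [hfx]; exact h2.2, fun h2 => ⟨hx, by rw [← hfx]; exact h2⟩⟩

include h hG in
theorem borM_univ {X' : Type} (c : X' → Rl) : BorM (Mod X g) c (PtM (Mod X g) c) := by
  have h1 : ∀ n, BorM (Mod X g) c {x | x ∈ PtM (Mod X g) c ∧ (gp g, c x) ∈ ((mP n : MB K)).1} := by
    intro n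
    have h0 := BorM.basic (M := Mod X g) (c := c) 0
    by_cases hn : n = 0
    · subst hn
      exact h0
    · have h2 := BorM.compl _ h0
      have e : {x | x ∈ PtM (Mod X g) c ∧ x ∉ {x | x ∈ PtM (Mod X g) c ∧ c x 0 = true}} =
          {x | x ∈ PtM (Mod X g) c ∧ (gp g, c x) ∈ ((mP n : MB K)).1} := by
        unfold mP
        rw [if_neg hn]
        ext x
        constructor
        · rintro ⟨hx, hx2⟩
          exact ⟨hx, fun h3 => hx2 ⟨hx, h3⟩⟩
        · rintro ⟨hx, hx2⟩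
          exact ⟨hx, fun h3 => hx2 h3.2⟩
      rw [← e]
      exact h2
  have h2 := BorM.union _ h1 (seqM_of h hG c h.mP)
  have e : {x | ∃ n, x ∈ (fun n => {x | x ∈ PtM (Mod X g) c ∧ (gp g, c x) ∈ ((mP n : MB K)).1}) n} =
      PtM (Mod X g) c := by
    ext x
    constructor
    · rintro ⟨n, hx, _⟩
      exact hx
    · intro hx
      by_cases h3 : c x 0 = true
      · exact ⟨0, hx, h3⟩
      · exact ⟨1, hx, h3⟩
  rw [e] at h2
  exact h2

include h hG in
theorem borM_of {X' : Type} (c : X' → Rl) {B : MB K} (hB : Hu X B) :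
    BorM (Mod X g) c {x | x ∈ PtM (Mod X g) c ∧ (gp g, c x) ∈ B.1} := by
  obtain ⟨b, hb, rfl⟩ := h.code B hB
  clear hB
  induction b with
  | basic i =>
    rcases i with ⟨k, n⟩ | n
    · by_cases h1 : gp g k n = true
      · have e : {x | x ∈ PtM (Mod X g) c ∧ (gp g, c x) ∈ (mB (BC.basic (Sum.inl (k, n)))).1} =
            PtM (Mod X g) c := by
          ext x
          exact ⟨fun h2 => h2.1, fun h2 => ⟨h2, h1⟩⟩
        rw [e]
        exact borM_univ h hG c
      · have h2 := BorM.compl _ (borM_univ (g := g) h hG c)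
        have e : {x | x ∈ PtM (Mod X g) c ∧ (gp g, c x) ∈ (mB (BC.basic (Sum.inl (k, n)))).1} =
            {x | x ∈ PtM (Mod X g) c ∧ x ∉ PtM (Mod X g) c} := by
          ext x
          exact ⟨fun h2 => absurd h2.2 h1, fun h2 => absurd h2.1 h2.2⟩
        rw [e]
        exact h2
    · exact BorM.basic (M := Mod X g) (c := c) n
  | compl b ih =>
    have h1 := BorM.compl _ (ih (h.compl' b hb))
    have e : {x | x ∈ PtM (Mod X g) c ∧ x ∉ {x | x ∈ PtM (Mod X g) c ∧ (gp g, c x) ∈ (mB b).1}} =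
        {x | x ∈ PtM (Mod X g) c ∧ (gp g, c x) ∈ (mB (BC.compl b)).1} := by
      ext x
      constructor
      · rintro ⟨hx, hn⟩
        exact ⟨hx, fun h2 => hn ⟨hx, h2⟩⟩
      · rintro ⟨hx, hn⟩
        exact ⟨hx, fun h2 => hn h2.2⟩
    rw [← e]
    exact h1
  | union s ih =>
    have hs1 := h.union' s hb
    have h1 := BorM.union (M := Mod X g) (c := c)
      (fun n => {x | x ∈ PtM (Mod X g) c ∧ (gp g, c x) ∈ (mB (s n)).1})
      (fun n => ih n (h.seqc s hs1 n)) (seqM_of h hG c (h.seqb s hs1))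
    have e : {x | ∃ n, x ∈ (fun n => {x | x ∈ PtM (Mod X g) c ∧ (gp g, c x) ∈ (mB (s n)).1}) n} =
        {x | x ∈ PtM (Mod X g) c ∧ (gp g, c x) ∈ (mB (BC.union s)).1} := by
      ext x
      constructor
      · rintro ⟨n, hx, hn⟩
        exact ⟨hx, Set.mem_iUnion.2 ⟨n, hn⟩⟩
      · rintro ⟨hx, hn⟩
        obtain ⟨n, hn⟩ := Set.mem_iUnion.1 hn
        exact ⟨n, hx, hn⟩
    rw [← e]
    exact h1

include h hG in
private theorem sec_iff {u : Nm K} (hu : u ∈ X) {D : MB K} (hD : Hu X D) {n : ℕ} {B : MB K}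
    (hBX : Hu X B) {p : Cd K} (hp : p ∈ g) (hB : SecB u D n B p) {f : Fr K} (hf : Hu X f)
    (hfD : (gp g, ev g f) ∈ D.1) :
    (natZ n).pair (rZ (ev g f)) ∈ val X g u ↔ (gp g, ev g f) ∈ B.1 := by
  rw [pair_qN h hu hf, abs h hG hf hBX]
  obtain ⟨d, hd, hdD⟩ := (abs h hG hf hD).1 hfD
  obtain ⟨r, hr, hrp, hrd⟩ := dir_g X hp hd
  constructor
  · rintro ⟨q, hq, hfm⟩
    obtain ⟨t, ht, htr, htq⟩ := dir_g X hr hq
    exact ⟨t, ht, (hB t (htr.trans hrp) f (sub_mono (htr.trans hrd) hdD)).1 (fmem_mono hfm htq)⟩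
  · rintro ⟨q, hq, hfm⟩
    obtain ⟨t, ht, htr, htq⟩ := dir_g X hr hq
    exact ⟨t, ht, (hB t (htr.trans hrp) f (sub_mono (htr.trans hrd) hdD)).2 (sub_mono htq hfm)⟩

include h hG in
theorem borM_to {X' : Type} (c : X' → Rl) {D : MB K} (hD : Hu X D)
    (hc : ∀ ρ, rZ ρ ∈ Mod X g → ((gp g, ρ) ∈ D.1 ↔ ∃ x, c x = ρ)) {S : Set X'}
    (hS : BorM (Mod X g) c S) :
    ∃ B : MB K, Hu X B ∧ ∀ x, x ∈ S ↔ x ∈ PtM (Mod X g) c ∧ (gp g, c x) ∈ B.1 := by
  induction hS with
  | basic n => exact ⟨mB (BC.basic (Sum.inr n)), h.bas n, fun x => Iff.rfl⟩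
  | compl S _ ih =>
    obtain ⟨B, hB, e⟩ := ih
    refine ⟨mC B, h.mC B hB, fun x => ?_⟩
    constructor
    · rintro ⟨hx, hn⟩
      exact ⟨hx, fun h2 => hn ((e x).2 ⟨hx, h2⟩)⟩
    · rintro ⟨hx, hn⟩
      exact ⟨hx, fun h2 => hn ((e x).1 h2).2⟩
  | union S _ hseq ih =>
    choose B hB hBe using ih
    obtain ⟨z, ⟨u, hu, rfl⟩, hz⟩ := hseq
    have key : ∀ n, ∃ p ∈ hs.g0, SecB u D n (B n) p := by
      intro n
      rcases hG.sec u hu D hD n (B n) (hB n) with ⟨p, hp, f, hf, hfD, h1⟩ | h1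
      · exfalso
        have hpg : p ∈ g := sub_g (X := X) hp
        have hD2 : (gp g, ev g f) ∈ D.1 := (abs h hG hf hD).2 ⟨p, hpg, hfD⟩
        obtain ⟨x, hx⟩ := (hc (ev g f) (ev_mem h hf)).1 hD2
        have hxP : x ∈ PtM (Mod X g) c := by
          show rZ (c x) ∈ Mod X g
          rw [hx]; exact ev_mem h hf
        have h2 := hz n x hxP
        have hbe := hBe n x
        rw [hx, pair_qN h hu hf] at h2
        rw [hx, abs h hG hf (hB n)] at hbe
        rcases h1 with ⟨h3, h4⟩ | ⟨h3, h4⟩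
        · obtain ⟨q, hq, hfm⟩ := h2.1 (hbe.2 ⟨hxP, p, hpg, h3⟩)
          obtain ⟨r, _, hrp, hrq⟩ := dir_g X hpg hq
          exact h4 r hrp (fmem_mono hfm hrq)
        · obtain ⟨q, hq, hfm⟩ := (hbe.1 (h2.2 ⟨p, hpg, h4⟩)).2
          obtain ⟨r, _, hrp, hrq⟩ := dir_g X hpg hq
          exact not_both (sub_mono hrq hfm) (sub_mono hrp h3)
      · exact h1
    obtain ⟨p, hp, s, hs', hsec⟩ := hG.seq u hu D hD fun n => by
      obtain ⟨p, hp, h1⟩ := key n
      exact ⟨p, hp, B n, h1⟩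
    refine ⟨mU s, h.mU s hs', fun x => ?_⟩
    have hxD : x ∈ PtM (Mod X g) c → (gp g, c x) ∈ D.1 := fun hx => (hc _ hx).2 ⟨x, rfl⟩
    have hiff : x ∈ PtM (Mod X g) c → ∀ n, (natZ n).pair (rZ (c x)) ∈ val X g u ↔
        (gp g, c x) ∈ (s n).1 := by
      intro hx n
      obtain ⟨f, hf, hfx⟩ := (rZ_mem_iff h hG).1 hx
      have h5 := hxD hx
      rw [← hfx] at h5 ⊢
      exact sec_iff h hG hu hD (h.seq s hs' n) (sub_g (X := X) hp) (hsec n) hf h5
    constructor
    · rintro ⟨n, hn⟩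
      have hx := ((hBe n x).1 hn).1
      exact ⟨hx, Set.mem_iUnion.2 ⟨n, (hiff hx n).1 ((hz n x hx).1 hn)⟩⟩
    · rintro ⟨hx, hn⟩
      obtain ⟨n, hn⟩ := Set.mem_iUnion.1 hn
      exact ⟨n, (hz n x hx).2 ((hiff hx n).2 hn)⟩

end Pool.Agent.RFN.GX.DB
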