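import Pool.Agent.MBS.Defs
import Pool.Agent.ChoicelessEmb.Ground

set_option autoImplicit false

/-!
# MP_1ac9dc_an : spectra of C*-algebras in a countable transitive model of set theory

1. `NIrr A`, `NEquiv`, `NSpec A` : the irreducible representations of a (possibly non-unital)
   C*-algebra on the fixed Hilbert spaces of dimension 1, 2, ..., infinity, unitary equivalence, the
   spectrum with the Mackey Borel structure.
2. `acode x` : the code (a real) of the C*-algebra `A` with the dense sequence `x`: the norms of all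
   the *-polynomials with rational complex coefficients in the elements `x n`.
   `rcode x π` : the code (a real) of the representation `π` of `A`: its dimension and its matrix
   coefficients at the elements `x n` and the standard basis vectors.
3. `M` is a transitive set, a model of ZFC. `IsoM`, `StdM` : isomorphism of quotient Borel spaces
   in `M`, standard quotient spaces in `M`.
-/

namespace DX

open MBS
open scoped InnerProductSpace

noncomputable section

/-! ## 1. Irreducible representations -/

/-- The representations of the (possibly non-unital) C*-algebra `A` on the fixed Hilbert space of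
dimension `n`. -/
abbrev NRepN (A : Type) [NonUnitalCStarAlgebra A] (n : Dim) : Type :=
  A →⋆ₙₐ[ℂ] (HSp n →L[ℂ] HSp n)

section

variable {A : Type} [NonUnitalCStarAlgebra A]

/-- The representation `π` is irreducible: it is not zero and there are no closed invariant
subspaces besides `0` and the whole space. -/
def NIsIrred (n : Dim) (π : NRepN A n) : Prop :=
  (∃ a, π a ≠ 0) ∧ ∀ K : Submodule ℂ (HSp n), IsClosed (K : Set (HSp n)) →
    (∀ a, ∀ v ∈ K, π a v ∈ K) → K = ⊥ ∨ K = ⊤

/-- The matrix coefficients of a representation. -/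
def ncoeff (n : Dim) (π : NRepN A n) : A × HSp n × HSp n → ℂ := fun p => ⟪p.2.1, π p.1 p.2.2⟫_ℂ

end

/-- `Irr_n(A)` -/
def NIrrN (A : Type) [NonUnitalCStarAlgebra A] (n : Dim) : Type :=
  {π : NRepN A n // NIsIrred n π}

/-- The topology of pointwise weak operator convergence on `Irr_n(A)`. -/
instance (A : Type) [NonUnitalCStarAlgebra A] (n : Dim) : TopologicalSpace (NIrrN A n) :=
  TopologicalSpace.induced (fun π : NIrrN A n => ncoeff n π.1) Pi.topologicalSpace

/-- `Irr(A)`, the disjoint union of the `Irr_n(A)`. -/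
def NIrr (A : Type) [NonUnitalCStarAlgebra A] : Type := Σ n : Dim, NIrrN A n

instance (A : Type) [NonUnitalCStarAlgebra A] : TopologicalSpace (NIrr A) :=
  inferInstanceAs (TopologicalSpace (Σ n : Dim, NIrrN A n))

instance (A : Type) [NonUnitalCStarAlgebra A] : MeasurableSpace (NIrr A) := borel _

instance (A : Type) [NonUnitalCStarAlgebra A] : BorelSpace (NIrr A) := ⟨rfl⟩

/-- Unitary equivalence of irreducible representations. -/
def NEquiv {A : Type} [NonUnitalCStarAlgebra A] (σ τ : NIrr A) : Prop :=
  ∃ U : HSp σ.1 ≃ₗᵢ[ℂ] HSp τ.1, ∀ (a : A) (v : HSp σ.1), U (σ.2.1 a v) = τ.2.1 a (U v)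

theorem NEquiv.refl {A : Type} [NonUnitalCStarAlgebra A] (σ : NIrr A) : NEquiv σ σ :=
  ⟨LinearIsometryEquiv.refl ℂ _, fun _ _ => rfl⟩

theorem NEquiv.symm {A : Type} [NonUnitalCStarAlgebra A] {σ τ : NIrr A} (h : NEquiv σ τ) :
    NEquiv τ σ := by
  obtain ⟨U, hU⟩ := h
  refine ⟨U.symm, fun a v => ?_⟩
  apply U.injective
  rw [hU]; simp

theorem NEquiv.trans {A : Type} [NonUnitalCStarAlgebra A] {σ τ ρ : NIrr A} (h : NEquiv σ τ)
    (h' : NEquiv τ ρ) : NEquiv σ ρ := by
  obtain ⟨U, hU⟩ := h
  obtain ⟨V, hV⟩ := h'
  refine ⟨U.trans V, fun a v => ?_⟩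
  simp [hU, hV]

/-- Unitary equivalence as a setoid. -/
def nSetoid (A : Type) [NonUnitalCStarAlgebra A] : Setoid (NIrr A) where
  r := NEquiv
  iseqv := ⟨NEquiv.refl, NEquiv.symm, NEquiv.trans⟩

/-- The spectrum of `A`. -/
def NSpec (A : Type) [NonUnitalCStarAlgebra A] : Type := Quotient (nSetoid A)

/-- The class of an irreducible representation. -/
def toNSpec {A : Type} [NonUnitalCStarAlgebra A] (σ : NIrr A) : NSpec A :=
  Quotient.mk (nSetoid A) σ

/-- The Mackey Borel structure. -/
instance (A : Type) [NonUnitalCStarAlgebra A] : MeasurableSpace (NSpec A) :=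
  MeasurableSpace.map toNSpec inferInstance

/-! ## 2. Codes -/

/-- The *-polynomials (without constant term) with rational complex coefficients. -/
inductive Tm : Type
  | var : ℕ → Tm
  | add : Tm → Tm → Tm
  | mul : Tm → Tm → Tm
  | star : Tm → Tm
  | smul : ℚ → ℚ → Tm → Tm

/-- The number of a *-polynomial (different *-polynomials have different numbers). -/
def Tm.num : Tm → ℕ
  | var n => 5 * n
  | add s t => 5 * Nat.pair s.num t.num + 1
  | mul s t => 5 * Nat.pair s.num t.num + 2
  | star s => 5 * s.num + 3
  | smul a b s => 5 * Nat.pair (Encodable.encode (a, b)) s.num + 4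

/-- The value of a *-polynomial. -/
def Tm.ev {A : Type} [NonUnitalCStarAlgebra A] (x : ℕ → A) : Tm → A
  | var n => x n
  | add s t => s.ev x + t.ev x
  | mul s t => s.ev x * t.ev x
  | star s => Star.star (s.ev x)
  | smul a b s => ((a : ℂ) + (b : ℂ) * Complex.I) • s.ev x

open Classical in
/-- The code of the C*-algebra `A` with the dense sequence `x` : the norms of the values of the
*-polynomials. -/
def acode {A : Type} [NonUnitalCStarAlgebra A] (x : ℕ → A) : ℕ → Bool := fun m =>
  decide (∃ (t : Tm) (q : ℚ), Nat.pair t.num (Encodable.encode q) = m ∧ ‖t.ev x‖ < (q : ℝ))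

/-- The `i`-th vector of the standard basis of the Hilbert space of dimension `n` (zero if there is
no such vector). -/
def bvec (n : Dim) (i : ℕ) : HSp n :=
  match n with
  | none => δ (G := Idx none) (i : ℕ)
  | some n => if h : i < n + 1 then δ (G := Idx (some n)) (⟨i, h⟩ : Fin (n + 1)) else 0

/-- The real part or the imaginary part. -/
def part : Bool → ℂ → ℝ
  | true, z => z.re
  | false, z => z.im

/-- What a bit of the code of a representation is about. -/
abbrev Bit : Type := Dim ⊕ (ℕ × ℕ × ℕ × Bool × ℚ)

open Classical in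
/-- The bits of the code of the representation `π`: its dimension, and the real parts and the
imaginary parts of its matrix coefficients at the elements `x k` and the basis vectors. -/
def rbit {A : Type} [NonUnitalCStarAlgebra A] (x : ℕ → A) (π : NIrr A) : Bit → Bool
  | Sum.inl d => decide (π.1 = d)
  | Sum.inr (k, i, j, b, q) =>
      decide (part b ⟪bvec π.1 i, π.2.1 (x k) (bvec π.1 j)⟫_ℂ < (q : ℝ))

/-- The code of the irreducible representation `π` of the C*-algebra `A` with the dense
sequence `x`. -/
def rcode {A : Type} [NonUnitalCStarAlgebra A] (x : ℕ → A) (π : NIrr A) : ℕ → Bool := fun m =>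
  match (Encodable.decode m : Option Bit) with
  | some b => rbit x π b
  | none => false

/-! ## 3. Quotient Borel spaces in a transitive model -/

open Pool.Agent.ChoicelessEmb (natZ)

/-- The set of natural numbers with the characteristic function `ρ`, as a set in the sense of set
theory (`natZ n` is the `n`-th finite ordinal). -/
def rZ (ρ : ℕ → Bool) : ZFSet.{0} := ZFSet.range fun n : {n : ℕ // ρ n = true} => natZ n.1

section

variable (M : Set ZFSet.{0})

/-- The points of the coded space `(X, c)` which belong to `M`, that is, those with a code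
in `M`. -/
def PtM {X : Type} (c : X → ℕ → Bool) : Set X := {x | rZ (c x) ∈ M}

/-- The sequence `D` of sets of points of the coded space `(X, c)` belongs to `M`. -/
def SeqM {X : Type} (c : X → ℕ → Bool) (D : ℕ → Set X) : Prop :=
  ∃ z ∈ M, ∀ n, ∀ x ∈ PtM M c, (x ∈ D n ↔ (natZ n).pair (rZ (c x)) ∈ z)

/-- The relation `F` between points of `(X, c)` and points of `(X', c')` belongs to `M`. -/
def RelM {X X' : Type} (c : X → ℕ → Bool) (c' : X' → ℕ → Bool) (F : X → X' → Prop) : Prop :=
  ∃ z ∈ M, ∀ x ∈ PtM M c, ∀ x' ∈ PtM M c', (F x x' ↔ (rZ (c x)).pair (rZ (c' x')) ∈ z)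

/-- The Borel sets of the coded space `(X, c)` in the sense of `M`: the sigma-algebra in `M`
generated by the sets `{x | c x n = true}`. -/
inductive BorM {X : Type} (c : X → ℕ → Bool) : Set X → Prop
  | basic (n : ℕ) : BorM c {x | x ∈ PtM M c ∧ c x n = true}
  | compl (D : Set X) : BorM c D → BorM c {x | x ∈ PtM M c ∧ x ∉ D}
  | union (D : ℕ → Set X) : (∀ n, BorM c (D n)) → SeqM M c D → BorM c {x | ∃ n, x ∈ D n}

/-- The set `D` of points in `M` is invariant under the relation `E`. -/
def InvM {X : Type} (c : X → ℕ → Bool) (E : X → X → Prop) (D : Set X) : Prop :=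
  ∀ x ∈ PtM M c, ∀ y ∈ PtM M c, E x y → (x ∈ D ↔ y ∈ D)

/-- The quotients by the equivalence relations `E` and `E'` of the coded spaces `(X, c)` and
`(X', c')` are isomorphic in `M` as measurable spaces: some relation `F` in `M` induces a bijection
of the quotients (of the sets of points in `M`), and this bijection and its inverse map Borel sets
to Borel sets. -/
def IsoM {X X' : Type} (c : X → ℕ → Bool) (E : X → X → Prop) (c' : X' → ℕ → Bool)
    (E' : X' → X' → Prop) : Prop :=
  ∃ F : X → X' → Prop, RelM M c c' F ∧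
    (∀ x ∈ PtM M c, ∃ x' ∈ PtM M c', F x x') ∧
    (∀ x' ∈ PtM M c', ∃ x ∈ PtM M c, F x x') ∧
    (∀ x ∈ PtM M c, ∀ y ∈ PtM M c, ∀ x' ∈ PtM M c', ∀ y' ∈ PtM M c', F x x' → F y y' →
      (E x y ↔ E' x' y')) ∧
    (∀ D, BorM M c D → InvM M c E D → ∃ D', BorM M c' D' ∧ InvM M c' E' D' ∧
      ∀ x ∈ PtM M c, ∀ x' ∈ PtM M c', F x x' → (x ∈ D ↔ x' ∈ D')) ∧
    (∀ D', BorM M c' D' → InvM M c' E' D' → ∃ D, BorM M c D ∧ InvM M c E D ∧
      ∀ x ∈ PtM M c, ∀ x' ∈ PtM M c', F x x' → (x ∈ D ↔ x' ∈ D'))

/-- The quotient of the coded space `(X, c)` by `E` is standard in `M`: it is isomorphic in `M` to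
a Borel subset `S` of the Cantor space. -/
def StdM {X : Type} (c : X → ℕ → Bool) (E : X → X → Prop) : Prop :=
  ∃ S : Set (ℕ → Bool), BorM M (fun ρ : ℕ → Bool => ρ) S ∧
    IsoM M c E (fun s : S => s.1) (fun s t : S => s = t)

/-- The spectra of the C*-algebras `A` and `B` with the dense sequences `x` and `y` are isomorphic
in `M`. -/
def SpecIsoM {A B : Type} [NonUnitalCStarAlgebra A] [NonUnitalCStarAlgebra B] (x : ℕ → A)
    (y : ℕ → B) : Prop :=
  IsoM M (rcode x) NEquiv (rcode y) NEquiv

/-- The spectrum of the C*-algebra `A` with the dense sequence `x` is standard in `M`. -/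
def SpecStdM {A : Type} [NonUnitalCStarAlgebra A] (x : ℕ → A) : Prop :=
  StdM M (rcode x) NEquiv

end

end

end DX
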