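import Pool.Agent.DX.BNm
import Pool.Agent.DX.Defs

set_option autoImplicit false

/-!
# The second model: dictionary

PROOFS (compare DX/ADict).
* `rZ_inj` : `natZ n ∈ rZ ρ ↔ ρ n = true` (`ZFSet.mem_range`, `natZ_injective`).
* `val_nf` : `ZFSet.ext`, `mem_val_relG`, `hs.st.natZ_mem (Or.inr ⟨n, rfl⟩)` is `val X g (nN n) = natZ n`,
  `hs.st.nat`; `ev g f n = true ↔ InG g {ω | f.1 ω n = true}` (`decide_eq_true_iff`).
* `rZ_mem_iff` : backward `val_nf`, `h.nf`. Forward: `rZ ρ = val X g u`, `u ∈ X`; `f` from `hG.real u`; for every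
  `n`: `natZ n ∈ val X g u ↔ ∃ p ∈ g, fmem (nN n) u p` (`Pool.Agent.RFN.val_mem_iff hs.st.op.atom`) `↔ InG g ..`.
* `pair_pN`, `pair_qN` : `Pool.Agent.RFN.val_opairN hs.st.op.atom.fil hs.st.op.pair`, `val_mem_iff`, `val_nf`,
  `hs.st.opair`, `h.nf`.
* `ev_eq` : `val_nf`, `rZ_inj`, `Pool.Agent.RFN.val_eq_iff hs.st.op.atom` and `feq_nf` (both names in `X`).
* `pair_nB` : `mem_val_relG`. Backward: the element `nm2 nN nf (n, f)` (in `X`). Forward: the pair is the value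
  of `nm2 nN nf (m, f')` with `nN m`, `nf f'` in `X` (`hs.st.proj`) and `Sub p (at' f' (s m))`, `p ∈ g`; so `m = n`
  (`ZFSet.pair_injective`, `natZ_injective`), `ev g f' = ev g f` (`rZ_inj`), so by `ev_eq` some `q ∈ g` is almost
  contained in `{f = f'}`; a common extension of `p` and `q` in `g` is almost contained in
  `at' f (s n)`. -/

namespace Pool.Agent.RFN.GX.DB

open Pool.Agent.ChoicelessEmb LName DX RB57 MeasureTheory

variable {K : Type}

theorem natZ_mem_rZ {ρ : Rl} {n : ℕ} : natZ n ∈ rZ ρ ↔ ρ n = true := by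
  constructor
  · intro h
    obtain ⟨⟨m, hm⟩, e⟩ := ZFSet.mem_range.1 h
    rw [← natZ_injective e]
    exact hm
  · intro h
    exact ZFSet.mem_range.2 ⟨⟨n, h⟩, rfl⟩

theorem rZ_inj : Function.Injective rZ := by
  intro ρ σ h
  funext n
  rw [Bool.eq_iff_iff, ← natZ_mem_rZ, ← natZ_mem_rZ, h]

/-- Two conditions in the filter have a common extension in the filter. -/
theorem dir_g (X : Set (Nm K)) {g : Set (Cd K)} [hs : SB X g] {p q : Cd K} (hp : p ∈ g)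
    (hq : q ∈ g) : ∃ r ∈ g, r ≤ p ∧ r ≤ q :=
  hs.st.op.atom.fil.dir p q hp hq

theorem sub_g {X : Set (Nm K)} {g : Set (Cd K)} [hs : SB X g] {p : Cd K} (hp : p ∈ hs.g0) :
    p ∈ g := hs.st.op.atom.sub hp

variable {X : Set (Nm K)} {g : Set (Cd K)} [hs : SB X g]

private theorem val_nNB (n : ℕ) : val X g (nN n) = natZ n :=
  hs.st.natZ_mem (Or.inr ⟨n, rfl⟩)

omit hs in
private theorem ev_iffB (f : Fr K) (n : ℕ) :
    ev g f n = true ↔ InG g {ω | f.1 ω n = true} :=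
  @decide_eq_true_iff _ (Classical.propDecidable _)

private theorem pair_iffB {u a b : Nm K} (hu : u ∈ X) (ha : a ∈ X) (hb : b ∈ X) :
    (val X g a).pair (val X g b) ∈ val X g u ↔ ∃ p ∈ g, fmem (opairN a b) u p := by
  rw [← Pool.Agent.RFN.val_opairN hs.st.op.atom.fil hs.st.op.pair ha hb]
  exact Pool.Agent.RFN.val_mem_iff hs.st.op.atom (hs.st.opair a ha b hb) hu

theorem val_nf (f : Fr K) : val X g (nf f) = rZ (ev g f) := by
  ext v
  rw [nf, mem_val_relG]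
  constructor
  · rintro ⟨n, hn, hp, rfl⟩
    rw [val_nNB]
    exact natZ_mem_rZ.2 ((ev_iffB f n).2 hp)
  · intro hv
    obtain ⟨⟨n, hn⟩, rfl⟩ := ZFSet.mem_range.1 hv
    exact ⟨n, hs.st.nat n, (ev_iffB f n).1 hn, (val_nNB n).symm⟩

theorem ev_eq {f f' : Fr K} (hf : nf f ∈ X) (hf' : nf f' ∈ X) :
    ev g f = ev g f' ↔ InG g {ω | f.1 ω = f'.1 ω} := by
  rw [← rZ_inj.eq_iff, ← val_nf (X := X), ← val_nf (X := X),
    Pool.Agent.RFN.val_eq_iff hs.st.op.atom hf hf']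
  exact exists_congr fun p => and_congr_right fun _ => feq_nf f f' p

variable (h : StC X) (hG : StG X hs.g0)

include h hG in
theorem rZ_mem_iff {ρ : Rl} : rZ ρ ∈ Mod X g ↔ ∃ f : Fr K, Hu X f ∧ ev g f = ρ := by
  constructor
  · rintro ⟨u, hu, e⟩
    obtain ⟨f, hf, hD⟩ := hG.real u hu
    refine ⟨f, hf, ?_⟩
    funext n
    have h1 : natZ n ∈ val X g u ↔ ∃ q ∈ g, fmem (nN n) u q := by
      rw [← val_nNB (X := X) (g := g) n]
      exact Pool.Agent.RFN.val_mem_iff hs.st.op.atom (hs.st.nat n) hu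
    rw [Bool.eq_iff_iff, ev_iffB, ← natZ_mem_rZ, ← e, h1]
    exact exists_congr fun p => and_congr_right fun _ => (hD n p).symm
  · rintro ⟨f, hf, rfl⟩
    exact ⟨nf f, h.nf f hf, val_nf f⟩

include h in
theorem ev_mem {f : Fr K} (hf : Hu X f) : rZ (ev g f) ∈ Mod X g :=
  ⟨nf f, h.nf f hf, val_nf f⟩

include h in
theorem pair_pN {u : Nm K} (hu : u ∈ X) {f f' : Fr K} (hf : Hu X f) (hf' : Hu X f') :
    (rZ (ev g f)).pair (rZ (ev g f')) ∈ val X g u ↔ Pr g u f f' := by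
  rw [← val_nf (X := X) f, ← val_nf (X := X) f']
  exact pair_iffB hu (h.nf f hf) (h.nf f' hf')

include h in
theorem pair_qN {u : Nm K} (hu : u ∈ X) {n : ℕ} {f : Fr K} (hf : Hu X f) :
    (natZ n).pair (rZ (ev g f)) ∈ val X g u ↔ ∃ p ∈ g, fmem (qN n f) u p := by
  rw [← val_nNB (X := X) (g := g) n, ← val_nf (X := X) f]
  exact pair_iffB hu (hs.st.nat n) (h.nf f hf)

include h in
theorem pair_nB {s : ℕ → MB K} {n : ℕ} {f : Fr K} (hf : Hu X f) :
    (natZ n).pair (rZ (ev g f)) ∈ val X g (nB s) ↔ InG g (at' f (s n)) := by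
  rw [nB, mem_val_relG]
  constructor
  · rintro ⟨⟨m, f'⟩, hX, ⟨p, hp, hR⟩, e⟩
    have h1 := hs.st.proj _ _ hX
    unfold nm2 at e
    rw [Pool.Agent.RFN.val_opairN hs.st.op.atom.fil hs.st.op.pair h1.1 h1.2] at e
    have e1 := ZFSet.pair_injective e
    have e2 : natZ n = natZ m := e1.1.trans (val_nNB m)
    have e3 : rZ (ev g f) = rZ (ev g f') := e1.2.trans (val_nf f')
    have e4 : n = m := natZ_injective e2
    subst e4
    obtain ⟨q, hq, h2⟩ := (ev_eq (h.nf f hf) h1.2).1 (rZ_inj e3)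
    obtain ⟨r, hr, hrp, hrq⟩ := dir_g X hp hq
    refine ⟨r, hr, sub_superset ?_ (sub_inter (sub_mono hrp hR) (sub_mono hrq h2))⟩
    rintro ω ⟨h3, h4⟩
    show (ω, f.1 ω) ∈ (s n).1
    have h5 : f.1 ω = f'.1 ω := h4
    rw [h5]
    exact h3
  · intro hI
    refine ⟨(n, f), hs.st.opair _ (hs.st.nat n) _ (h.nf f hf), hI, ?_⟩
    unfold nm2
    rw [Pool.Agent.RFN.val_opairN hs.st.op.atom.fil hs.st.op.pair (hs.st.nat n) (h.nf f hf),
      val_nf, val_nNB]

end Pool.Agent.RFN.GX.DB
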