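import Pool.Agent.DX.BNm

set_option autoImplicit false

/-!
# Relations between random names

PROOFS.
* `fm_congr` : if `Sub q {f = f'}`, `Sub q {h = h'}` then `Fm .. f h q → Fm .. f' h' q` (`fmem_pN`; the events
  `at' f D`, `at' f' D` agree on `{f = f'}`: `sub_inter`, `sub_superset`).
* `fm_mono` : `sub_mono`, `fmem_mono`; `fm_dense` : `sub_of_dense` (`at_meas`), `fmem_dense`.
* `tot_of` : let `q ≤ p`, `Sub q (at' f D)`. For every `r ≤ q`, not `BadT` at `r` gives `s ≤ r` and `h` with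
  `Fm .. f h s`. Apply `mix` to `W h s := Fm .. f h s` at `q` and `mixF`: `h`. If `s ≤ q` is almost contained in
  `A k` then `Fm .. f (t k) s`, and `h = t k` on `A k`, so `Fm .. f h s`; such `s` are dense; `fm_dense`.
  `ran_of` is the same.
* `eqv_of` : the event `{ω | Z (f ω) (f' ω) ↔ Z' (h ω) (h' ω)}` is measurable (`hZ`, `hZ'`); if `q ≤ p` is not
  almost contained in it then some `r ≤ q` is almost contained in its complement (`exists_sub_compl`)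
  and `BadE` holds at `r`. `good_of` is the same.
* `bor_of` : for an invariant `B` every `r ≤ p` has `q ≤ r` and `B'` with `Good .. q` (not `BadB` at `r`); `mix`,
  `mixB`: `B'`. `Good u D D' B B' p`: for `q ≤ p` and `Fm .. f h q` the `s ≤ q` almost contained in a piece are
  dense and there `(ω, h ω) ∈ B' ↔ (ω, h ω) ∈ t k`; `sub_of_dense`. `bor_of'` is the same. -/

namespace Pool.Agent.RFN.GX.DB

open Pool.Agent.ChoicelessEmb LName DX RB57 MeasureTheory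

variable {K : Type} {u : Nm K} {D D' B B' : MB K} {Z Z' : Rl → Rl → Prop} {p q : Cd K}

theorem fm_mono {f h : Fr K} (hq : q ≤ p) (hf : Fm u D D' f h p) : Fm u D D' f h q :=
  ⟨sub_mono hq hf.1, sub_mono hq hf.2.1, fmem_mono hf.2.2 hq⟩

theorem fm_dense {f h : Fr K} (hf : ∀ q ≤ p, ∃ r ≤ q, Fm u D D' f h r) : Fm u D D' f h p := by
  refine ⟨sub_of_dense (at_meas f D) fun q hq => ?_, sub_of_dense (at_meas h D') fun q hq => ?_,
    fmem_dense fun q hq => ?_⟩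
  · obtain ⟨r, hr, h1⟩ := hf q hq
    exact ⟨r, hr, h1.1⟩
  · obtain ⟨r, hr, h1⟩ := hf q hq
    exact ⟨r, hr, h1.2.1⟩
  · obtain ⟨r, hr, h1⟩ := hf q hq
    exact ⟨r, hr, h1.2.2⟩

theorem fm_congr {f f' h h' : Fr K} (e : Sub p {ω | f.1 ω = f'.1 ω})
    (e' : Sub p {ω | h.1 ω = h'.1 ω}) (hf : Fm u D D' f h p) : Fm u D D' f' h' p := by
  refine ⟨?_, ?_, fmem_pN e e' hf.2.2⟩
  · refine sub_superset ?_ (sub_inter e hf.1)
    rintro ω ⟨h1, h2⟩
    have h1' : f.1 ω = f'.1 ω := h1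
    have h2' : (ω, f.1 ω) ∈ D.1 := h2
    show (ω, f'.1 ω) ∈ D.1
    rw [← h1']; exact h2'
  · refine sub_superset ?_ (sub_inter e' hf.2.1)
    rintro ω ⟨h1, h2⟩
    have h1' : h.1 ω = h'.1 ω := h1
    have h2' : (ω, h.1 ω) ∈ D'.1 := h2
    show (ω, h'.1 ω) ∈ D'.1
    rw [← h1']; exact h2'

theorem sub_refl_eq (f : Fr K) (p : Cd K) : Sub p {ω | f.1 ω = f.1 ω} :=
  sub_superset (fun _ _ => rfl) (sub_univ p)

theorem tot_of (h : ∀ r ≤ p, ∀ f, ¬ BadT u D D' f r) : Tot u D D' p := by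
  intro q hq f hf
  have h1 : ∀ r ≤ q, ∃ s ≤ r, ∃ t, Fm u D D' f t s := by
    intro r hr
    by_contra hc
    push Not at hc
    exact h r (hr.trans hq) f ⟨sub_mono hr hf, hc⟩
  obtain ⟨A, t, hA, hd, hsub, hW⟩ := mix (fun t s => Fm u D D' f t s)
    (fun t p q hq hf => fm_mono hq hf) q h1
  obtain ⟨k, hk⟩ := mixF hA hd t
  refine ⟨k, fm_dense fun r hr => ?_⟩
  obtain ⟨n, s, hs, hsA⟩ := exists_sub_iUnion hA (sub_mono hr hsub)
  refine ⟨s, hs, fm_congr (sub_refl_eq f s) ?_ (hW n s hsA)⟩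
  exact sub_superset (fun ω hω => (hk n ω hω).symm) hsA

theorem ran_of (h : ∀ r ≤ p, ∀ f, ¬ BadR u D D' f r) : Ran u D D' p := by
  intro q hq f hf
  have h1 : ∀ r ≤ q, ∃ s ≤ r, ∃ t, Fm u D D' t f s := by
    intro r hr
    by_contra hc
    push Not at hc
    exact h r (hr.trans hq) f ⟨sub_mono hr hf, hc⟩
  obtain ⟨A, t, hA, hd, hsub, hW⟩ := mix (fun t s => Fm u D D' t f s)
    (fun t p q hq hf => fm_mono hq hf) q h1
  obtain ⟨k, hk⟩ := mixF hA hd t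
  refine ⟨k, fm_dense fun r hr => ?_⟩
  obtain ⟨n, s, hs, hsA⟩ := exists_sub_iUnion hA (sub_mono hr hsub)
  refine ⟨s, hs, fm_congr ?_ (sub_refl_eq f s) (hW n s hsA)⟩
  exact sub_superset (fun ω hω => (hk n ω hω).symm) hsA

theorem meas_iff {α : Type} [MeasurableSpace α] {S T : Set α} (hS : MeasurableSet S)
    (hT : MeasurableSet T) : MeasurableSet {a | a ∈ S ↔ a ∈ T} := by
  have : {a | a ∈ S ↔ a ∈ T} = (S ∩ T) ∪ (Sᶜ ∩ Tᶜ) := by
    ext a
    simp only [Set.mem_setOf_eq, Set.mem_union, Set.mem_inter_iff, Set.mem_compl_iff]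
    tauto
  rw [this]
  exact (hS.inter hT).union (hS.compl.inter hT.compl)

theorem eqv_of (hZ : MZ Z) (hZ' : MZ Z') (h : ∀ r ≤ p, ∀ t, ¬ BadE u D D' Z Z' t r) :
    Eqv u D D' Z Z' p := by
  intro q hq f f' k k' h1 h2
  have hm1 : MeasurableSet {ω : Om K | Z (f.1 ω) (f'.1 ω)} := (f.2.prodMk f'.2) hZ
  have hm2 : MeasurableSet {ω : Om K | Z' (k.1 ω) (k'.1 ω)} := (k.2.prodMk k'.2) hZ'
  have hm : MeasurableSet {ω : Om K | Z (f.1 ω) (f'.1 ω) ↔ Z' (k.1 ω) (k'.1 ω)} := meas_iff hm1 hm2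
  by_contra hc
  obtain ⟨r, hr, h3⟩ := exists_sub_compl hm hc
  exact h r (hr.trans hq) ((f, f'), (k, k')) ⟨fm_mono hr h1, fm_mono hr h2, h3⟩

theorem meas_at_iff (f h : Fr K) (B B' : MB K) :
    MeasurableSet {ω : Om K | (ω, f.1 ω) ∈ B.1 ↔ (ω, h.1 ω) ∈ B'.1} :=
  meas_iff (at_meas f B) (at_meas h B')

theorem good_of (h : ∀ r ≤ p, ∀ t, ¬ BadG u D D' B B' t r) : Good u D D' B B' p := by
  intro q hq f k h1
  by_contra hc
  obtain ⟨r, hr, h3⟩ := exists_sub_compl (meas_at_iff f k B B') hc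
  exact h r (hr.trans hq) (f, k) ⟨fm_mono hr h1, h3⟩

theorem good_mono (hq : q ≤ p) (h : Good u D D' B B' p) : Good u D D' B B' q :=
  fun r hr f k h1 => h r (hr.trans hq) f k h1

theorem bor_of (h : ∀ r ≤ p, ∀ B, ¬ BadB u D D' Z B r) : Bor u D D' Z p := by
  intro B hB
  have h1 : ∀ r ≤ p, ∃ s ≤ r, ∃ t, Good u D D' B t s := by
    intro r hr
    by_contra hc
    push Not at hc
    exact h r hr B ⟨hB, hc⟩
  obtain ⟨A, t, hA, hd, hsub, hW⟩ := mix (fun t s => Good u D D' B t s)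
    (fun t p q hq hf => good_mono hq hf) p h1
  obtain ⟨B', hB'⟩ := mixB hA hd t
  refine ⟨B', fun q hq f k h2 => ?_⟩
  refine sub_of_dense (meas_at_iff f k B B') fun r hr => ?_
  obtain ⟨n, s, hs, hsA⟩ := exists_sub_iUnion hA (sub_mono (hr.trans hq) hsub)
  refine ⟨s, hs, ?_⟩
  have h3 := hW n s hsA s le_rfl f k (fm_mono (hs.trans hr) h2)
  refine sub_superset ?_ (sub_inter hsA h3)
  rintro ω ⟨h4, h5⟩
  have h5' : (ω, f.1 ω) ∈ B.1 ↔ (ω, k.1 ω) ∈ (t n).1 := h5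
  exact h5'.trans (hB' n ω h4 (k.1 ω)).symm

theorem bor_of' (h : ∀ r ≤ p, ∀ B', ¬ BadB' u D D' Z' B' r) : Bor' u D D' Z' p := by
  intro B hB
  have h1 : ∀ r ≤ p, ∃ s ≤ r, ∃ t, Good u D D' t B s := by
    intro r hr
    by_contra hc
    push Not at hc
    exact h r hr B ⟨hB, hc⟩
  obtain ⟨A, t, hA, hd, hsub, hW⟩ := mix (fun t s => Good u D D' t B s)
    (fun t p q hq hf => good_mono hq hf) p h1
  obtain ⟨B', hB'⟩ := mixB hA hd t
  refine ⟨B', fun q hq f k h2 => ?_⟩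
  refine sub_of_dense (meas_at_iff f k B' B) fun r hr => ?_
  obtain ⟨n, s, hs, hsA⟩ := exists_sub_iUnion hA (sub_mono (hr.trans hq) hsub)
  refine ⟨s, hs, ?_⟩
  have h3 := hW n s hsA s le_rfl f k (fm_mono (hs.trans hr) h2)
  refine sub_superset ?_ (sub_inter hsA h3)
  rintro ω ⟨h4, h5⟩
  have h5' : (ω, f.1 ω) ∈ (t n).1 ↔ (ω, k.1 ω) ∈ B.1 := h5
  exact (hB' n ω h4 (f.1 ω)).trans h5'

theorem Gen.mono (hq : q ≤ p) (h : Gen u D D' Z Z' p) : Gen u D D' Z Z' q where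
  tot := fun r hr => h.tot r (hr.trans hq)
  ran := fun r hr => h.ran r (hr.trans hq)
  eqv := fun r hr => h.eqv r (hr.trans hq)
  bor := fun B hB => let ⟨B', hB'⟩ := h.bor B hB; ⟨B', good_mono hq hB'⟩
  bor' := fun B hB => let ⟨B', hB'⟩ := h.bor' B hB; ⟨B', good_mono hq hB'⟩

end Pool.Agent.RFN.GX.DB
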