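import Pool.Agent.DX.BAbs
import Pool.Agent.DX.BRel

set_option autoImplicit false

/-!
# The second model: an isomorphism of the model is forced by a condition

PROOF. For each of the five clauses the first alternative of `StJ` is impossible:
`tot`: `p ∈ g0`, `f` in the hull with `BadT .. f p`: `InG g (at' f D)`, so `hI.tot` gives `h` in the hull, conditions in
`g` for `at' h D'` and `fmem (pN f h) u`; at a common extension `q ≤ p` in `g` (twice `dir_g`) `Fm u D D' f h q`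
(`sub_mono`, `fmem_mono`), contradiction. `ran` is the same. `eqv`: `BadE .. t p` gives `InG`, `Pr` for the four names, so by
`hI.eqv` and `absZ`: `InG {Z f f'} ↔ InG {Z' h h'}`; with `decZ` the event `{Z f f' ↔ Z' h h'}` is `InG` in both
cases (`inG_inter`, `inG_mono`), contradiction with `not_both` at a common extension.
`bor`: `BadB .. B p`, `B` in the hull: `B'` from `hI.bor`; then `hJ.good .. B B'`: either `t` in the hull with
`BadG .. t q`, `q ∈ g0`: `InG (at' f B) ↔ InG (at' h B')`, with `inG_compl` for both the event `{f ∈ B ↔ h ∈ B'}` is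
`InG`, contradiction; or `q ∈ g0` with `Good .. q`: a common extension of `p` and `q` contradicts `BadB`
(`Good` is inherited by extensions). `bor'` is the same with `hI.bor'`.
So there are five conditions in `g0`; a common extension in `g`, then in `g0`
(`hs.st.op.atom.gen`), satisfies `Gen` (all the clauses are inherited, as in `Gen.mono`). -/

namespace Pool.Agent.RFN.GX.DB

open Pool.Agent.ChoicelessEmb LName DX RB57 MeasureTheory

variable {K : Type} {X : Set (Nm K)} {g : Set (Cd K)} [hs : SB X g] (h : StC X)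
  (hG : StG X hs.g0)

include h hG in
theorem gen_of {Z Z' : Rl → Rl → Prop} (hZ : MZ Z) (hZ' : MZ Z') (hX : Hu X (mZ hZ : MB K))
    (hX' : Hu X (mZ hZ' : MB K)) (hJ : StJ Z Z' X hs.g0) {u : Nm K} (hu : u ∈ X) {D D' : MB K}
    (hD : Hu X D) (hD' : Hu X D') (hI : HIso X g u D D' Z Z') :
    ∃ p ∈ g, Gen u D D' Z Z' p := by
  have hPr : ∀ {f k : Fr K} {p : Cd K}, p ∈ g → Fm u D D' f k p →
      InG g (at' f D) ∧ InG g (at' k D') ∧ Pr g u f k := fun hp hF =>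
    ⟨⟨_, hp, hF.1⟩, ⟨_, hp, hF.2.1⟩, ⟨_, hp, hF.2.2⟩⟩
  have hno : ∀ {S : Set (Om K)} {p : Cd K}, p ∈ g → Sub p Sᶜ → InG g S → False := by
    intro S p hp hN hS
    obtain ⟨q, hq, hqS⟩ := hS
    obtain ⟨r, hr, hrp, hrq⟩ := dir_g X hp hq
    exact not_both (sub_mono hrq hqS) (sub_mono hrp hN)
  obtain ⟨p1, hp1, t1⟩ : ∃ p ∈ hs.g0, Tot u D D' p := by
    rcases hJ.tot u hu D D' hD hD' with ⟨p, hp, f, hf, hB⟩ | h1
    · exfalso
      obtain ⟨k, hk, ⟨a, ha, haD⟩, ⟨b, hb, hbm⟩⟩ := hI.tot f hf ⟨p, sub_g hp, hB.1⟩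
      obtain ⟨c, hc, hca, hcb⟩ := dir_g X ha hb
      obtain ⟨d, hd, hdc, hdp⟩ := dir_g X hc (sub_g hp)
      exact hB.2 d hdp k ⟨sub_mono hdp hB.1, sub_mono (hdc.trans hca) haD,
        fmem_mono hbm (hdc.trans hcb)⟩
    · exact h1
  obtain ⟨p2, hp2, t2⟩ : ∃ p ∈ hs.g0, Ran u D D' p := by
    rcases hJ.ran u hu D D' hD hD' with ⟨p, hp, k, hk, hB⟩ | h1
    · exfalso
      obtain ⟨f, hf, ⟨a, ha, haD⟩, ⟨b, hb, hbm⟩⟩ := hI.ran k hk ⟨p, sub_g hp, hB.1⟩
      obtain ⟨c, hc, hca, hcb⟩ := dir_g X ha hb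
      obtain ⟨d, hd, hdc, hdp⟩ := dir_g X hc (sub_g hp)
      exact hB.2 d hdp f ⟨sub_mono (hdc.trans hca) haD, sub_mono hdp hB.1,
        fmem_mono hbm (hdc.trans hcb)⟩
    · exact h1
  obtain ⟨p3, hp3, t3⟩ : ∃ p ∈ hs.g0, Eqv u D D' Z Z' p := by
    rcases hJ.eqv u hu D D' hD hD' with ⟨p, hp, ⟨⟨f, f'⟩, ⟨k, k'⟩⟩, ⟨h1, h2, h3, h4⟩, hF, hF', hN⟩ | h1
    · exfalso
      simp only at h1 h2 h3 h4 hF hF' hN
      obtain ⟨a1, a2, a3⟩ := hPr (sub_g hp) hF
      obtain ⟨b1, b2, b3⟩ := hPr (sub_g hp) hF'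
      have e := hI.eqv f f' k k' h1 h2 h3 h4 a1 b1 a2 b2 a3 b3
      rw [absZ h hG hZ hX h1 h2, absZ h hG hZ' hX' h3 h4] at e
      have key : InG g {ω | Z (f.1 ω) (f'.1 ω) ↔ Z' (k.1 ω) (k'.1 ω)} := by
        by_cases c : InG g {ω | Z (f.1 ω) (f'.1 ω)}
        · exact inG_mono (fun ω hω => iff_of_true hω.1 hω.2) (inG_inter X c (e.1 c))
        · exact inG_mono (fun ω hω => iff_of_false hω.1 hω.2)
            (inG_inter X ((decZ h hG hZ hX h1 h2).2 c)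
              ((decZ h hG hZ' hX' h3 h4).2 (fun hc => c (e.2 hc))))
      exact hno (sub_g hp) hN key
    · exact h1
  have hgood : ∀ {B B' : MB K}, Hu X B → Hu X B' → (∀ f k : Fr K, Hu X f → Hu X k →
      InG g (at' f D) → InG g (at' k D') → Pr g u f k → (InG g (at' f B) ↔ InG g (at' k B'))) →
      ∃ q ∈ hs.g0, Good u D D' B B' q := by
    intro B B' hB hB' hc
    rcases hJ.good u hu D D' B B' hD hD' hB hB' with ⟨q, hq, ⟨f, k⟩, ⟨ht1, ht2⟩, hF, hN⟩ | h1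
    · exfalso
      simp only at ht1 ht2 hF hN
      obtain ⟨a1, a2, a3⟩ := hPr (sub_g hq) hF
      have e := hc f k ht1 ht2 a1 a2 a3
      have key : InG g {ω | (ω, f.1 ω) ∈ B.1 ↔ (ω, k.1 ω) ∈ B'.1} := by
        by_cases c : InG g (at' f B)
        · exact inG_mono (fun ω hω => iff_of_true hω.1 hω.2) (inG_inter X c (e.1 c))
        · exact inG_mono (fun ω hω => iff_of_false hω.1 hω.2)
            (inG_inter X ((inG_compl hG ht1 hB).2 c)
              ((inG_compl hG ht2 hB').2 (fun hc => c (e.2 hc))))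
      exact hno (sub_g hq) hN key
    · exact h1
  obtain ⟨p4, hp4, t4⟩ : ∃ p ∈ hs.g0, Bor u D D' Z p := by
    rcases hJ.bor u hu D D' hD hD' with ⟨p, hp, B, hB, hInv, hN⟩ | h1
    · exfalso
      obtain ⟨B', hB', hc⟩ := hI.bor B hB hInv
      obtain ⟨q, hq, hGd⟩ := hgood hB hB' hc
      obtain ⟨r, hr, hrp, hrq⟩ := dir_g X (sub_g hp) (sub_g hq)
      exact hN r hrp B' (fun s hsr => hGd s (hsr.trans hrq))
    · exact h1
  obtain ⟨p5, hp5, t5⟩ : ∃ p ∈ hs.g0, Bor' u D D' Z' p := by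
    rcases hJ.bor' u hu D D' hD hD' with ⟨p, hp, B', hB', hInv, hN⟩ | h1
    · exfalso
      obtain ⟨B, hB, hc⟩ := hI.bor' B' hB' hInv
      obtain ⟨q, hq, hGd⟩ := hgood hB hB' hc
      obtain ⟨r, hr, hrp, hrq⟩ := dir_g X (sub_g hp) (sub_g hq)
      exact hN r hrp B (fun s hsr => hGd s (hsr.trans hrq))
    · exact h1
  obtain ⟨q1, hq1, a1, a2⟩ := dir_g X (sub_g hp1) (sub_g hp2)
  obtain ⟨q2, hq2, a3, a4⟩ := dir_g X hq1 (sub_g hp3)
  obtain ⟨q3, hq3, a5, a6⟩ := dir_g X hq2 (sub_g hp4)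
  obtain ⟨q4, hq4, a7, a8⟩ := dir_g X hq3 (sub_g hp5)
  have b3 : q4 ≤ p3 := (a7.trans a5).trans a4
  have b1 : q4 ≤ p1 := ((a7.trans a5).trans a3).trans a1
  have b2 : q4 ≤ p2 := ((a7.trans a5).trans a3).trans a2
  have b4 : q4 ≤ p4 := a7.trans a6
  refine ⟨q4, hq4, ⟨fun q hq => t1 q (hq.trans b1), fun q hq => t2 q (hq.trans b2),
    fun q hq => t3 q (hq.trans b3), fun B hB => ?_, fun B hB => ?_⟩⟩
  · obtain ⟨B', hB'⟩ := t4 B hB
    exact ⟨B', fun q hq => hB' q (hq.trans b4)⟩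
  · obtain ⟨B', hB'⟩ := t5 B hB
    exact ⟨B', fun q hq => hB' q (hq.trans a8)⟩

end Pool.Agent.RFN.GX.DB
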