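import Pool.Agent.DX.BBor

set_option autoImplicit false

/-!
# The second model: isomorphisms of the model in terms of names

PROOF. From `IsoM`: the relation `F` and `z = val X g u`. For `f` in the hull with `InG g (at' f D)`:
`(gp g, ev g f) ∈ D` (`abs`), so `ev g f = c x` for some `x` (`hc`, `ev_mem`), a point in the model. Points
`x'` in the model have `c' x' = ev g h`, `h` in the hull, `InG g (at' h D')` (`rZ_mem_iff`, `hc'`, `abs`). For such `f`, `h`: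
`F x x' ↔ Pr g u f h` (`pair_pN`). `tot`, `ran`, `eqv` (`hE`, `hE'`) are the clauses of `IsoM`. `bor`: for `B` in the
hull, invariant: `S = {x | x ∈ PtM ∧ (gp g, c x) ∈ B.1}` is `BorM` (`borM_of`) and invariant (`InvD` at `ω = gp g`,
`hc` backward, `hE`); `S'` from `IsoM`; `B'` from `borM_to` for `c'`, `D'`, `hc'`; `abs` for `f, B` and `h, B'`. -/

namespace Pool.Agent.RFN.GX.DB

open Pool.Agent.ChoicelessEmb LName DX RB57 MeasureTheory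

variable {K : Type} {X : Set (Nm K)} {g : Set (Cd K)} [hs : SB X g] (h : StC X)
  (hG : StG X hs.g0)

include h hG in
theorem hIso_of {X' X'' : Type} {c : X' → Rl} {c' : X'' → Rl} {E : X' → X' → Prop}
    {E' : X'' → X'' → Prop} {D D' : MB K} {Z Z' : Rl → Rl → Prop} (hD : Hu X D) (hD' : Hu X D')
    (hc : ∀ ρ, rZ ρ ∈ Mod X g → ((gp g, ρ) ∈ D.1 ↔ ∃ x, c x = ρ))
    (hc' : ∀ ρ, rZ ρ ∈ Mod X g → ((gp g, ρ) ∈ D'.1 ↔ ∃ x, c' x = ρ))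
    (hE : ∀ x y, E x y ↔ Z (c x) (c y)) (hE' : ∀ x y, E' x y ↔ Z' (c' x) (c' y))
    (hI : IsoM (Mod X g) c E c' E') : ∃ u ∈ X, HIso X g u D D' Z Z' := by
  obtain ⟨F, ⟨z, hz, hF⟩, hTot, hRan, hEqv, hBor, hBor'⟩ := hI
  obtain ⟨u, hu, rfl⟩ := hz
  -- points of the spaces and names
  have P1 : ∀ f : Fr K, Hu X f → InG g (at' f D) → ∃ x ∈ PtM (Mod X g) c, c x = ev g f := by
    intro f hf hfD
    obtain ⟨x, hx⟩ := (hc (ev g f) (ev_mem h hf)).1 ((abs h hG hf hD).2 hfD)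
    refine ⟨x, ?_, hx⟩
    show rZ (c x) ∈ Mod X g
    rw [hx]
    exact ev_mem h hf
  have P1' : ∀ f : Fr K, Hu X f → InG g (at' f D') →
      ∃ x ∈ PtM (Mod X g) c', c' x = ev g f := by
    intro f hf hfD
    obtain ⟨x, hx⟩ := (hc' (ev g f) (ev_mem h hf)).1 ((abs h hG hf hD').2 hfD)
    refine ⟨x, ?_, hx⟩
    show rZ (c' x) ∈ Mod X g
    rw [hx]
    exact ev_mem h hf
  have P2 : ∀ x ∈ PtM (Mod X g) c, ∃ f : Fr K, Hu X f ∧ InG g (at' f D) ∧ c x = ev g f := by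
    intro x hx
    obtain ⟨f, hf, hfx⟩ := (rZ_mem_iff h hG).1 (show rZ (c x) ∈ Mod X g from hx)
    refine ⟨f, hf, (abs h hG hf hD).1 ?_, hfx.symm⟩
    rw [hfx]
    exact (hc (c x) hx).2 ⟨x, rfl⟩
  have P2' : ∀ x ∈ PtM (Mod X g) c', ∃ f : Fr K, Hu X f ∧ InG g (at' f D') ∧
      c' x = ev g f := by
    intro x hx
    obtain ⟨f, hf, hfx⟩ := (rZ_mem_iff h hG).1 (show rZ (c' x) ∈ Mod X g from hx)
    refine ⟨f, hf, (abs h hG hf hD').1 ?_, hfx.symm⟩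
    rw [hfx]
    exact (hc' (c' x) hx).2 ⟨x, rfl⟩
  have P3 : ∀ x ∈ PtM (Mod X g) c, ∀ x' ∈ PtM (Mod X g) c', ∀ f f' : Fr K, Hu X f → Hu X f' →
      c x = ev g f → c' x' = ev g f' → (F x x' ↔ Pr g u f f') := by
    intro x hx x' hx' f f' hf hf' e e'
    rw [hF x hx x' hx', e, e']
    exact pair_pN h hu hf hf'
  refine ⟨u, hu, ⟨?_, ?_, ?_, ?_, ?_⟩⟩
  · intro f hf hfD
    obtain ⟨x, hx, e⟩ := P1 f hf hfD
    obtain ⟨x', hx', hFx⟩ := hTot x hx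
    obtain ⟨f', hf', hfD', e'⟩ := P2' x' hx'
    exact ⟨f', hf', hfD', (P3 x hx x' hx' f f' hf hf' e e').1 hFx⟩
  · intro f' hf' hfD'
    obtain ⟨x', hx', e'⟩ := P1' f' hf' hfD'
    obtain ⟨x, hx, hFx⟩ := hRan x' hx'
    obtain ⟨f, hf, hfD, e⟩ := P2 x hx
    exact ⟨f, hf, hfD, (P3 x hx x' hx' f f' hf hf' e e').1 hFx⟩
  · intro f₁ f₂ k₁ k₂ hf₁ hf₂ hk₁ hk₂ hD₁ hD₂ hE₁ hE₂ hp₁ hp₂
    obtain ⟨x, hx, e⟩ := P1 f₁ hf₁ hD₁
    obtain ⟨y, hy, ey⟩ := P1 f₂ hf₂ hD₂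
    obtain ⟨x', hx', e'⟩ := P1' k₁ hk₁ hE₁
    obtain ⟨y', hy', ey'⟩ := P1' k₂ hk₂ hE₂
    have h1 := hEqv x hx y hy x' hx' y' hy' ((P3 x hx x' hx' f₁ k₁ hf₁ hk₁ e e').2 hp₁)
      ((P3 y hy y' hy' f₂ k₂ hf₂ hk₂ ey ey').2 hp₂)
    rw [hE, hE', e, ey, e', ey'] at h1
    exact h1
  · intro B hB hInv
    obtain ⟨S', hS', -, hSS⟩ := hBor _ (borM_of h hG c hB) (by
      intro x hx y hy hxy
      have h1 := hInv (gp g) (c x) (c y) ((hc (c x) hx).2 ⟨x, rfl⟩)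
        ((hc (c y) hy).2 ⟨y, rfl⟩) ((hE x y).1 hxy)
      exact ⟨fun h2 => ⟨hy, h1.1 h2.2⟩, fun h2 => ⟨hx, h1.2 h2.2⟩⟩)
    obtain ⟨B', hB', hSB⟩ := borM_to h hG c' hD' hc' hS'
    refine ⟨B', hB', fun f k hf hk hfD hkD hp => ?_⟩
    obtain ⟨x, hx, e⟩ := P1 f hf hfD
    obtain ⟨x', hx', e'⟩ := P1' k hk hkD
    have h1 := hSS x hx x' hx' ((P3 x hx x' hx' f k hf hk e e').2 hp)
    rw [← abs h hG hf hB, ← abs h hG hk hB', ← e, ← e']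
    constructor
    · intro h2
      exact ((hSB x').1 (h1.1 ⟨hx, h2⟩)).2
    · intro h2
      exact (h1.2 ((hSB x').2 ⟨hx', h2⟩)).2
  · intro B' hB' hInv
    obtain ⟨S, hS, -, hSS⟩ := hBor' _ (borM_of h hG c' hB') (by
      intro x hx y hy hxy
      have h1 := hInv (gp g) (c' x) (c' y) ((hc' (c' x) hx).2 ⟨x, rfl⟩)
        ((hc' (c' y) hy).2 ⟨y, rfl⟩) ((hE' x y).1 hxy)
      exact ⟨fun h2 => ⟨hy, h1.1 h2.2⟩, fun h2 => ⟨hx, h1.2 h2.2⟩⟩)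
    obtain ⟨B, hB, hSB⟩ := borM_to h hG c hD hc hS
    refine ⟨B, hB, fun f k hf hk hfD hkD hp => ?_⟩
    obtain ⟨x, hx, e⟩ := P1 f hf hfD
    obtain ⟨x', hx', e'⟩ := P1' k hk hkD
    have h1 := hSS x hx x' hx' ((P3 x hx x' hx' f k hf hk e e').2 hp)
    rw [← abs h hG hf hB, ← abs h hG hk hB', ← e, ← e']
    constructor
    · intro h2
      exact (h1.1 ((hSB x).2 ⟨hx, h2⟩)).2
    · intro h2
      exact ((hSB x).1 (h1.2 ⟨hx', h2⟩)).2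

end Pool.Agent.RFN.GX.DB
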