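import Pool.Agent.DX.BRel
import Pool.Agent.DX.Congr

set_option autoImplicit false

/-!
# From a condition which forces an isomorphism to a random isomorphism

`inF f` : a measurable map `f : Om K → Q.Pt` as a name of a real.

PROOFS. `D = mR hR`: `at' f D = {ω | f.1 ω ∈ Q.R}`.
* `riso_of` : for measurable `f : Om K → Q.Pt` the clause `tot` at `q = p` (`Sub p (at' (inF f) D)`: the set is
  everything) gives `h : Fr K` with `Fm .. (inF f) h p`; `Φ f ω := ⟨h ω, _⟩` if `h ω ∈ Q'.R`, else a fixed point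
  (`hne`); measurable (`Measurable.subtype_mk`, `Measurable.ite`); `Sub p {ω | h ω = Φ f ω}`, so by `fm_congr`
  `Fm .. (inF f) (inF (Φ f)) p` (for non-measurable `f` let `Φ f` be constant). `r1` : clause `eqv` at `q = p`
  and `sub_iff_ae`. `r2` : clause `ran` at `q = p` gives `f : Fr K` with `Fm .. f (inF h) p`; modify `f` to a map into
  `Q.R` (`hne0`); then `eqv` for `(f, Φ f)`, `(f, h)`: a.e. on `p`: `E (f ω) (f ω) ↔ E' (Φ f ω) (h ω)`, and `E` is reflexive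
  (`hrefl`). `r3` : for `D0` measurable in `Om K × Q.Pt` with invariant sections let
  `B := {(ω, ρ) | ∃ hρ : ρ ∈ Q.R, (ω, ⟨ρ, hρ⟩) ∈ D0}`: measurable (image of `D0` under the measurable embedding
  `Prod.map id Subtype.val`: `MeasurableEmbedding.prodMap`/`MeasurableEmbedding.subtype_coe hR`), `InvD`; `B'` from
  `bor`; `D0' := {(ω, s) | (ω, s.1) ∈ B'}`. For `f`, `h`: `f2` from `r2` with `Fm .. f2 (inF h) p` (the `f2` of the proof of
  `r2`) : a.e. on `p`: `Φ f ~ h` iff `f ~ f2` (`eqv` for `(f, Φ f)`, `(f2, h)` gives `E f f2 ↔ E' (Φ f) h`), so `(ω, f ω) ∈ D0 ↔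
  (ω, f2 ω) ∈ D0` by invariance, and `Good` for `(f2, h)`: `(ω, f2 ω) ∈ B ↔ (ω, h ω) ∈ B'`.
* `rstd_of` : for every `n`, `bor'` for `B' = {(ω, ρ) | ρ n = true}` (`mB (BC.basic (inr n))`; `InvD` because `Z'` is
  equality) gives `B n`; `θ (ω, s) n := decide ((ω, s.1) ∈ B n)`, measurable. For `f` let `h` be from `tot`:
  a.e. on `p`: `(ω, f ω) ∈ B n ↔ h ω n = true` for all `n` (`Good`, `ae_all_iff`), so `θ (ω, f ω) = h ω`; the same for
  `f'`, `h'`; and `eqv`: `E (f ω) (f' ω) ↔ h ω = h' ω`. -/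

namespace Pool.Agent.RFN.GX.DB

open Pool.Agent.ChoicelessEmb LName DX RB57 MeasureTheory

variable {K : Type} {u : Nm K} {p : Cd K}

open Classical in
/-- A real as a point. -/
private noncomputable def tpt (R : Set Rl) (ρ0 : {ρ : Rl // ρ ∈ R}) (ρ : Rl) : {ρ : Rl // ρ ∈ R} :=
  ⟨if ρ ∈ R then ρ else ρ0.1, by
    split_ifs with h
    · exact h
    · exact ρ0.2⟩

private theorem tpt_meas {R : Set Rl} (hR : MeasurableSet R) (ρ0 : {ρ : Rl // ρ ∈ R}) :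
    Measurable (tpt R ρ0) := by
  classical
  exact Measurable.subtype_mk (Measurable.ite hR measurable_id measurable_const)

private theorem tpt_val {R : Set Rl} (ρ0 : {ρ : Rl // ρ ∈ R}) {ρ : Rl} (h : ρ ∈ R) :
    (tpt R ρ0 ρ).1 = ρ := if_pos h

private theorem tpt_coe {R : Set Rl} (ρ0 : {ρ : Rl // ρ ∈ R}) (s : {ρ : Rl // ρ ∈ R}) :
    tpt R ρ0 s.1 = s := Subtype.ext (if_pos s.2)

/-- A measurable map to the points as a name of a real. -/
private def inF {Q : QS} (f : Om K → Q.Pt) (hf : Measurable f) : Fr K :=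
  ⟨fun ω => (f ω).1, measurable_subtype_coe.comp hf⟩

private theorem sub_inF {Q : QS} (hR : MeasurableSet Q.R) (f : Om K → Q.Pt) (hf : Measurable f) :
    Sub p (at' (inF f hf) (mR hR : MB K)) := by
  have h : at' (inF f hf) (mR hR : MB K) = Set.univ := by
    ext ω
    exact ⟨fun _ => trivial, fun _ => (f ω).2⟩
  rw [h]
  exact sub_univ p

/-- A random isomorphism. -/
theorem riso_of {Q Q' : QS} (hR : MeasurableSet Q.R) (hR' : MeasurableSet Q'.R)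
    (hne : Q.R.Nonempty) (hne' : Q'.R.Nonempty) (hrefl : ∀ s ∈ Q.R, Q.E s s) (hE : MZ Q.E)
    (hE' : MZ Q'.E) (h : Gen u (mR hR : MB K) (mR hR') Q.E Q'.E p) :
    ∃ Φ, RIso Q.rel Q'.rel p.s Φ := by
  classical
  obtain ⟨a, ha⟩ := hne
  obtain ⟨b, hb⟩ := hne'
  -- images
  have himg : ∀ f : Om K → Q.Pt, ∃ g : Om K → Q'.Pt, Measurable g ∧ ∀ (hf : Measurable f)
      (hg : Measurable g), Fm u (mR hR : MB K) (mR hR') (inF f hf) (inF g hg) p := by
    intro f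
    by_cases hf : Measurable f
    · obtain ⟨k, hk⟩ := h.tot p le_rfl (inF f hf) (sub_inF hR f hf)
      have hm : Measurable (fun ω => tpt Q'.R ⟨b, hb⟩ (k.1 ω)) := (tpt_meas hR' ⟨b, hb⟩).comp k.2
      refine ⟨fun ω => tpt Q'.R ⟨b, hb⟩ (k.1 ω), hm, fun hf' hg => ?_⟩
      refine fm_congr ?_ ?_ hk
      · exact sub_superset (fun ω _ => rfl) (sub_univ p)
      · exact sub_superset (fun ω hω => (tpt_val ⟨b, hb⟩ hω).symm) hk.2.1
    · exact ⟨fun _ => ⟨b, hb⟩, measurable_const, fun hf' => absurd hf' hf⟩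
  have hpre : ∀ k : Om K → Q'.Pt, ∀ hk : Measurable k, ∃ (f : Om K → Q.Pt) (hf : Measurable f),
      Fm u (mR hR : MB K) (mR hR') (inF f hf) (inF k hk) p := by
    intro k hk
    obtain ⟨f, hf⟩ := h.ran p le_rfl (inF k hk) (sub_inF hR' k hk)
    refine ⟨fun ω => tpt Q.R ⟨a, ha⟩ (f.1 ω), (tpt_meas hR ⟨a, ha⟩).comp f.2, ?_⟩
    refine fm_congr ?_ ?_ hf
    · exact sub_superset (fun ω hω => (tpt_val ⟨a, ha⟩ hω).symm) hf.1
    · exact sub_superset (fun ω _ => rfl) (sub_univ p)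
  choose Φ hΦm hΦ using himg
  have heqv : ∀ (f f' : Om K → Q.Pt) (k k' : Om K → Q'.Pt) (hf : Measurable f)
      (hf' : Measurable f') (hk : Measurable k) (hk' : Measurable k'),
      Fm u (mR hR : MB K) (mR hR') (inF f hf) (inF k hk) p →
      Fm u (mR hR : MB K) (mR hR') (inF f' hf') (inF k' hk') p →
      ∀ᵐ ω ∂(P K), ω ∈ p.s → (Q.rel (f ω) (f' ω) ↔ Q'.rel (k ω) (k' ω)) := by
    intro f f' k k' hf hf' hk hk' h1 h2
    exact sub_iff_ae.1 (h.eqv p le_rfl _ _ _ _ h1 h2)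
  refine ⟨Φ, ⟨fun f _ => hΦm f, ?_, ?_, ?_⟩⟩
  · intro f f' hf hf'
    exact heqv f f' (Φ f) (Φ f') hf hf' (hΦm f) (hΦm f') (hΦ f hf (hΦm f)) (hΦ f' hf' (hΦm f'))
  · intro k hk
    obtain ⟨f, hf, hfk⟩ := hpre k hk
    refine ⟨f, hf, ?_⟩
    filter_upwards [heqv f f (Φ f) k hf hf (hΦm f) hk (hΦ f hf (hΦm f)) hfk] with ω hω hp
    exact (hω hp).1 (hrefl _ (f ω).2)
  · intro D hD hinv
    have hBm : MeasurableSet {z : Om K × Rl | (z.1, tpt Q.R ⟨a, ha⟩ z.2) ∈ D} :=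
      (measurable_fst.prodMk ((tpt_meas hR ⟨a, ha⟩).comp measurable_snd)) hD
    have hBi : InvD (mR hR : MB K) Q.E ⟨{z : Om K × Rl | (z.1, tpt Q.R ⟨a, ha⟩ z.2) ∈ D}, hBm⟩ := by
      intro ω ρ σ hρ hσ hZ
      refine hinv ω (tpt Q.R ⟨a, ha⟩ ρ) (tpt Q.R ⟨a, ha⟩ σ) ?_
      show Q.E (tpt Q.R ⟨a, ha⟩ ρ).1 (tpt Q.R ⟨a, ha⟩ σ).1
      rw [tpt_val _ hρ, tpt_val _ hσ]
      exact hZ
    obtain ⟨B', hB'⟩ := h.bor _ hBi
    refine ⟨{z | (z.1, z.2.1) ∈ B'.1},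
      (measurable_fst.prodMk (measurable_subtype_coe.comp measurable_snd)) B'.2, ?_⟩
    intro f k hf hk
    obtain ⟨f2, hf2, hf2k⟩ := hpre k hk
    have h1 := heqv f f2 (Φ f) k hf hf2 (hΦm f) hk (hΦ f hf (hΦm f)) hf2k
    have h2 := sub_iff_ae.1 (hB' p le_rfl _ _ hf2k)
    filter_upwards [h1, h2] with ω hω1 hω2 hp hrel
    have h3 : Q.rel (f ω) (f2 ω) := (hω1 hp).2 hrel
    have h4 := hω2 hp
    have h5 : ((ω, tpt Q.R ⟨a, ha⟩ (f2 ω).1) ∈ D ↔ (ω, (k ω).1) ∈ B'.1) := h4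
    rw [tpt_coe] at h5
    exact (hinv ω _ _ h3).trans h5

open Classical in
/-- A random classification. -/
theorem rstd_of {Q : QS} (hR : MeasurableSet Q.R) (hE : MZ Q.E) {D' : MB K}
    (h : Gen u (mR hR : MB K) D' Q.E (fun ρ σ => ρ = σ) p) :
    ∃ θ, RStd Q.rel p.s θ := by
  have hB : ∀ n : ℕ, ∃ B : MB K, Good u (mR hR : MB K) D' B (mB (BC.basic (Sum.inr n))) p := by
    intro n
    refine h.bor' (mB (BC.basic (Sum.inr n))) ?_
    rintro ω ρ σ - - rfl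
    exact Iff.rfl
  choose B hB using hB
  have hθ : Measurable (fun z : Om K × Q.Pt => fun n => decide ((z.1, z.2.1) ∈ (B n).1)) := by
    refine measurable_pi_iff.2 fun n => ?_
    refine measurable_to_bool ?_
    have h1 : (fun z : Om K × Q.Pt => decide ((z.1, z.2.1) ∈ (B n).1)) ⁻¹' {true} =
        (fun z : Om K × Q.Pt => ((z.1, z.2.1) : Om K × Rl)) ⁻¹' (B n).1 := by
      ext z
      simp
    rw [h1]
    exact (measurable_fst.prodMk (measurable_subtype_coe.comp measurable_snd)) (B n).2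
  refine ⟨fun z n => decide ((z.1, z.2.1) ∈ (B n).1), ⟨hθ, ?_⟩⟩
  have key : ∀ (f : Om K → Q.Pt) (hf : Measurable f) (k : Fr K),
      Fm u (mR hR : MB K) D' (inF f hf) k p →
      ∀ᵐ ω ∂(P K), ω ∈ p.s → (fun n => decide ((ω, (f ω).1) ∈ (B n).1)) = k.1 ω := by
    intro f hf k hk
    have h1 : ∀ n, ∀ᵐ ω ∂(P K), ω ∈ p.s →
        ((ω, (f ω).1) ∈ (B n).1 ↔ k.1 ω n = true) :=
      fun n => sub_iff_ae.1 (hB n p le_rfl _ _ hk)
    filter_upwards [ae_all_iff.2 h1] with ω hω hp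
    funext n
    have h2 := hω n hp
    rcases hk' : k.1 ω n with _ | _
    · rw [hk'] at h2
      exact decide_eq_false (fun h3 => absurd (h2.1 h3) (by decide))
    · rw [hk'] at h2
      exact decide_eq_true (h2.2 rfl)
  intro f f' hf hf'
  obtain ⟨k, hk⟩ := h.tot p le_rfl (inF f hf) (sub_inF hR f hf)
  obtain ⟨k', hk'⟩ := h.tot p le_rfl (inF f' hf') (sub_inF hR f' hf')
  filter_upwards [key f hf k hk, key f' hf' k' hk',
    sub_iff_ae.1 (h.eqv p le_rfl _ _ _ _ hk hk')] with ω h1 h2 h3 hp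
  have h4 : (Q.E (f ω).1 (f' ω).1 ↔ k.1 ω = k'.1 ω) := h3 hp
  show Q.E (f ω).1 (f' ω).1 ↔ (fun n => decide ((ω, (f ω).1) ∈ (B n).1)) =
    (fun n => decide ((ω, (f' ω).1) ∈ (B n).1))
  rw [h1 hp, h2 hp]
  exact h4

end Pool.Agent.RFN.GX.DB
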