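import Pool.Agent.DX.BSec

set_option autoImplicit false

/-!
# Genericity can be met (random reals)

PROOFS. `dec` : `req_hdense` with `T := Fr K × MB K`, `T' := Unit`, `D t _ := {p | Sub p (at' t.1 t.2) ∨ ..}`
(`exists_dec`, `at_meas`). `un` : `req_halt` with `T := Fr K × (ℕ → MB K)`, `T' := ℕ`. `real` : `req_nrefl` with
`T := Unit`, `T' := Fr K` (the predicate does not depend on the condition; `exists_real`; some
condition is in `g0`: `GFil.gen` and `top_mem`). `sec` : `req_nalt` with `T := MB K × ℕ × MB K` and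
`T' := Fr K`, `Bad := NegB`, `secB_of_not_neg`. `seq` : `req_nalt` with `T := MB K`, `T' := ℕ` and
`Bad u D n := {p | ∀ q ≤ p, ∀ B, ¬ SecB u D n B q}`: the first alternative contradicts the hypothesis
(common extension in `g` of the two conditions: `GFil.fil.dir`; `secB_mono`); otherwise some `p ∈ g0`
has `∀ n, ∀ r ≤ p, ∃ q ≤ r, ∃ B, SecB u D n B q`, so `exists_secB` gives `s` for this `p`; `req_nrefl` with
`T' := ℕ → MB K` puts `s` into the hull. Elements of products are in the hull by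
`req_hop2 Prod.mk`. -/

namespace Pool.Agent.RFN.GX.DB

open Pool.Agent.ChoicelessEmb LName DX RB57 MeasureTheory

variable {K : Type}

theorem req_stG : Req fun (X : Set (Nm K)) g0 _ => StG X g0 := by
  have hpair1 : Req fun (X : Set (Nm K)) (_ _ : Set (Cd K)) =>
      ∀ t : Fr K, ∀ t' : MB K, Hu X t → Hu X t' → Hu X (t, t') := req_hop2 Prod.mk
  have hpair2 : Req fun (X : Set (Nm K)) (_ _ : Set (Cd K)) =>
      ∀ t : Fr K, ∀ t' : ℕ → MB K, Hu X t → Hu X t' → Hu X (t, t') := req_hop2 Prod.mk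
  have hpair3 : Req fun (X : Set (Nm K)) (_ _ : Set (Cd K)) =>
      ∀ t : MB K, ∀ t' : MB K, Hu X t → Hu X t' → Hu X (t, t') := req_hop2 Prod.mk
  have hunit : Req fun (X : Set (Nm K)) (_ _ : Set (Cd K)) => Hu X () := req_hconst ()
  have h1 : Req fun (X : Set (Nm K)) (g0 _ : Set (Cd K)) => ∀ t : Fr K × MB K, Hu X t →
      (∀ p : Cd K, ∃ r ≤ p, ∃ _t' : Unit, r ∈ {p | Sub p (at' t.1 t.2) ∨ Sub p (at' t.1 t.2)ᶜ}) →
      ∃ p ∈ g0, ∃ t' : Unit, Hu X t' ∧ p ∈ {p | Sub p (at' t.1 t.2) ∨ Sub p (at' t.1 t.2)ᶜ} :=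
    req_hdense (fun (t : Fr K × MB K) (_ : Unit) =>
      {p | Sub p (at' t.1 t.2) ∨ Sub p (at' t.1 t.2)ᶜ})
  have h2 : Req fun (X : Set (Nm K)) (g0 _ : Set (Cd K)) => ∀ t : Fr K × (ℕ → MB K), Hu X t →
      (∃ p ∈ g0, ∃ t' : ℕ, Hu X t' ∧ p ∈ {p | Sub p (at' t.1 (t.2 t'))}) ∨
        ∃ p ∈ g0, ∀ r ≤ p, ∀ t' : ℕ, r ∉ {p | Sub p (at' t.1 (t.2 t'))} :=
    req_halt (fun (t : Fr K × (ℕ → MB K)) (n : ℕ) => {p | Sub p (at' t.1 (t.2 n))})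
  have h3 : Req fun (X : Set (Nm K)) (g0 _ : Set (Cd K)) => ∀ u ∈ X, ∀ t : Unit, Hu X t →
      ∀ r ∈ g0, (∃ f : Fr K, ∀ n p, fmem (nN n) u p ↔ Sub p {ω | f.1 ω n = true}) →
      ∃ f : Fr K, Hu X f ∧ ∀ n p, fmem (nN n) u p ↔ Sub p {ω | f.1 ω n = true} :=
    req_nrefl (fun (u : Nm K) (_ : Unit) (_ : Cd K) (f : Fr K) =>
      ∀ n p, fmem (nN n) u p ↔ Sub p {ω | f.1 ω n = true})
  have h4 : Req fun (X : Set (Nm K)) (g0 _ : Set (Cd K)) => ∀ n : ℕ, ∀ u ∈ X,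
      ∀ t : MB K × MB K, Hu X t →
      (∃ p ∈ g0, ∃ f : Fr K, Hu X f ∧ p ∈ {p | NegB u t.1 n t.2 f p}) ∨
        ∃ p ∈ g0, ∀ r ≤ p, ∀ f : Fr K, r ∉ {p | NegB u t.1 n t.2 f p} :=
    Req.forall fun n => req_nalt (fun (u : Nm K) (t : MB K × MB K) (f : Fr K) =>
      {p | NegB u t.1 n t.2 f p})
  have h5 : Req fun (X : Set (Nm K)) (g0 _ : Set (Cd K)) => ∀ u ∈ X, ∀ D : MB K, Hu X D →
      (∃ p ∈ g0, ∃ n : ℕ, Hu X n ∧ p ∈ {p | ∀ q ≤ p, ∀ B, ¬ SecB u D n B q}) ∨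
        ∃ p ∈ g0, ∀ r ≤ p, ∀ n : ℕ, r ∉ {p | ∀ q ≤ p, ∀ B, ¬ SecB u D n B q} :=
    req_nalt (fun (u : Nm K) (D : MB K) (n : ℕ) => {p | ∀ q ≤ p, ∀ B, ¬ SecB u D n B q})
  have h6 : Req fun (X : Set (Nm K)) (g0 _ : Set (Cd K)) => ∀ u ∈ X, ∀ D : MB K, Hu X D →
      ∀ r ∈ g0, (∃ s : ℕ → MB K, ∀ n, SecB u D n (s n) r) →
      ∃ s : ℕ → MB K, Hu X s ∧ ∀ n, SecB u D n (s n) r :=
    req_nrefl (fun (u : Nm K) (D : MB K) (r : Cd K) (s : ℕ → MB K) => ∀ n, SecB u D n (s n) r)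
  refine ((hpair1.and (hpair2.and (hpair3.and hunit))).and
    ((h1.and (h2.and h3)).and (h4.and (h5.and h6)))).mono ?_
  rintro X g0 g hg ⟨⟨c1, c2, c3, c4⟩, ⟨d1, d2, d3⟩, d4, d5, d6⟩
  obtain ⟨p0, hp0, -⟩ := hg.gen ⊤ hg.fil.top_mem
  refine ⟨?_, ?_, ?_, ?_, ?_⟩
  · intro f hf B hB
    obtain ⟨p, hp, -, -, h⟩ := d1 (f, B) (c1 f B hf hB) (fun p => by
      obtain ⟨q, hq, h⟩ := exists_dec p (at_meas f B)
      exact ⟨q, hq, (), h⟩)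
    exact ⟨p, hp, h⟩
  · intro f hf s hs
    rcases d2 (f, s) (c2 f s hf hs) with ⟨p, hp, n, -, h⟩ | ⟨p, hp, h⟩
    · exact Or.inl ⟨p, hp, n, h⟩
    · exact Or.inr ⟨p, hp, h⟩
  · intro u hu
    exact d3 u hu () c4 p0 hp0 (exists_real u)
  · intro u hu D hD n B hB
    rcases d4 n u hu (D, B) (c3 D B hD hB) with ⟨p, hp, f, hf, h⟩ | ⟨p, hp, h⟩
    · exact Or.inl ⟨p, hp, f, hf, h⟩
    · exact Or.inr ⟨p, hp, secB_of_not_neg h⟩
  · intro u hu D hD hn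
    rcases d5 u hu D hD with ⟨p, hp, n, -, h⟩ | ⟨p, hp, h⟩
    · exfalso
      obtain ⟨p', hp', B, hB⟩ := hn n
      obtain ⟨q, hq, hq1, hq2⟩ := hg.fil.dir p p' (hg.sub hp) (hg.sub hp')
      exact h q hq1 B (secB_mono hq2 hB)
    · obtain ⟨s, hs⟩ := exists_secB (u := u) (D := D) (p := p) (fun n r hr => by
        have h7 := h r hr n
        simp only [Set.mem_setOf_eq] at h7
        push Not at h7
        exact h7)
      obtain ⟨s', hs', h8⟩ := d6 u hu D hD p hp ⟨s, hs⟩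
      exact ⟨p, hp, s', hs', h8⟩

end Pool.Agent.RFN.GX.DB
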