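import Pool.Agent.DX.BRel

set_option autoImplicit false

/-!
# Genericity for relations can be met (random reals)

PROOFS. Each field is `req_nalt` (`T := MB K × MB K`, or `T := (MB K × MB K) × (MB K × MB K)` for `good`;
`T' := Fr K`, `(Fr K × Fr K) × (Fr K × Fr K)`, `MB K`, `Fr K × Fr K`) with the set `BadT`, `BadR`, `BadE`, `BadB`,
`BadB'`, `BadG` and the lemmas `tot_of`, `ran_of`, `eqv_of`, `bor_of`, `bor_of'`, `good_of` of DX/BRel. The components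
of an element of the hull of a product type are in the hull: `req_hop Prod.fst`,
`req_hop Prod.snd` (for the types that occur); pairs: `req_hop2 Prod.mk`. -/

namespace Pool.Agent.RFN.GX.DB

open Pool.Agent.ChoicelessEmb LName DX RB57 MeasureTheory

variable {K : Type}

theorem req_stJ {Z Z' : Rl → Rl → Prop} (hZ : MZ Z) (hZ' : MZ Z') :
    Req fun (X : Set (Nm K)) g0 _ => StJ Z Z' X g0 := by
  have hp : Req fun (X : Set (Nm K)) (_ _ : Set (Cd K)) =>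
      ∀ t : MB K, ∀ t' : MB K, Hu X t → Hu X t' → Hu X (t, t') := req_hop2 Prod.mk
  have hpp : Req fun (X : Set (Nm K)) (_ _ : Set (Cd K)) =>
      ∀ t : MB K × MB K, ∀ t' : MB K × MB K, Hu X t → Hu X t' → Hu X (t, t') := req_hop2 Prod.mk
  have f1 : Req fun (X : Set (Nm K)) (_ _ : Set (Cd K)) =>
      ∀ t : Fr K × Fr K, Hu X t → Hu X t.1 := req_hop Prod.fst
  have f2 : Req fun (X : Set (Nm K)) (_ _ : Set (Cd K)) =>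
      ∀ t : Fr K × Fr K, Hu X t → Hu X t.2 := req_hop Prod.snd
  have g1 : Req fun (X : Set (Nm K)) (_ _ : Set (Cd K)) =>
      ∀ t : (Fr K × Fr K) × (Fr K × Fr K), Hu X t → Hu X t.1 := req_hop Prod.fst
  have g2 : Req fun (X : Set (Nm K)) (_ _ : Set (Cd K)) =>
      ∀ t : (Fr K × Fr K) × (Fr K × Fr K), Hu X t → Hu X t.2 := req_hop Prod.snd
  have h1 : Req fun (X : Set (Nm K)) (g0 _ : Set (Cd K)) => ∀ u ∈ X, ∀ t : MB K × MB K, Hu X t →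
      (∃ p ∈ g0, ∃ f : Fr K, Hu X f ∧ p ∈ {p | BadT u t.1 t.2 f p}) ∨
        ∃ p ∈ g0, ∀ r ≤ p, ∀ f : Fr K, r ∉ {p | BadT u t.1 t.2 f p} :=
    req_nalt (fun (u : Nm K) (t : MB K × MB K) (f : Fr K) => {p | BadT u t.1 t.2 f p})
  have h2 : Req fun (X : Set (Nm K)) (g0 _ : Set (Cd K)) => ∀ u ∈ X, ∀ t : MB K × MB K, Hu X t →
      (∃ p ∈ g0, ∃ f : Fr K, Hu X f ∧ p ∈ {p | BadR u t.1 t.2 f p}) ∨
        ∃ p ∈ g0, ∀ r ≤ p, ∀ f : Fr K, r ∉ {p | BadR u t.1 t.2 f p} :=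
    req_nalt (fun (u : Nm K) (t : MB K × MB K) (f : Fr K) => {p | BadR u t.1 t.2 f p})
  have h3 : Req fun (X : Set (Nm K)) (g0 _ : Set (Cd K)) => ∀ u ∈ X, ∀ t : MB K × MB K, Hu X t →
      (∃ p ∈ g0, ∃ f : (Fr K × Fr K) × (Fr K × Fr K), Hu X f ∧
        p ∈ {p | BadE u t.1 t.2 Z Z' f p}) ∨
        ∃ p ∈ g0, ∀ r ≤ p, ∀ f : (Fr K × Fr K) × (Fr K × Fr K),
          r ∉ {p | BadE u t.1 t.2 Z Z' f p} :=
    req_nalt (fun (u : Nm K) (t : MB K × MB K) (f : (Fr K × Fr K) × (Fr K × Fr K)) =>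
      {p | BadE u t.1 t.2 Z Z' f p})
  have h4 : Req fun (X : Set (Nm K)) (g0 _ : Set (Cd K)) => ∀ u ∈ X, ∀ t : MB K × MB K, Hu X t →
      (∃ p ∈ g0, ∃ f : MB K, Hu X f ∧ p ∈ {p | BadB u t.1 t.2 Z f p}) ∨
        ∃ p ∈ g0, ∀ r ≤ p, ∀ f : MB K, r ∉ {p | BadB u t.1 t.2 Z f p} :=
    req_nalt (fun (u : Nm K) (t : MB K × MB K) (f : MB K) => {p | BadB u t.1 t.2 Z f p})
  have h5 : Req fun (X : Set (Nm K)) (g0 _ : Set (Cd K)) => ∀ u ∈ X, ∀ t : MB K × MB K, Hu X t →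
      (∃ p ∈ g0, ∃ f : MB K, Hu X f ∧ p ∈ {p | BadB' u t.1 t.2 Z' f p}) ∨
        ∃ p ∈ g0, ∀ r ≤ p, ∀ f : MB K, r ∉ {p | BadB' u t.1 t.2 Z' f p} :=
    req_nalt (fun (u : Nm K) (t : MB K × MB K) (f : MB K) => {p | BadB' u t.1 t.2 Z' f p})
  have h6 : Req fun (X : Set (Nm K)) (g0 _ : Set (Cd K)) => ∀ u ∈ X,
      ∀ t : (MB K × MB K) × (MB K × MB K), Hu X t →
      (∃ p ∈ g0, ∃ f : Fr K × Fr K, Hu X f ∧ p ∈ {p | BadG u t.1.1 t.1.2 t.2.1 t.2.2 f p}) ∨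
        ∃ p ∈ g0, ∀ r ≤ p, ∀ f : Fr K × Fr K, r ∉ {p | BadG u t.1.1 t.1.2 t.2.1 t.2.2 f p} :=
    req_nalt (fun (u : Nm K) (t : (MB K × MB K) × (MB K × MB K)) (f : Fr K × Fr K) =>
      {p | BadG u t.1.1 t.1.2 t.2.1 t.2.2 f p})
  refine ((((hp.and hpp).and (f1.and f2)).and ((g1.and g2).and (h1.and h2))).and
    ((h3.and h4).and (h5.and h6))).mono ?_
  rintro X g0 g _ ⟨⟨⟨⟨c1, c2⟩, ⟨c3, c4⟩⟩, ⟨⟨c5, c6⟩, ⟨d1, d2⟩⟩⟩, ⟨⟨d3, d4⟩, ⟨d5, d6⟩⟩⟩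
  refine ⟨?_, ?_, ?_, ?_, ?_, ?_⟩
  · intro u hu D D' hD hD'
    rcases d1 u hu (D, D') (c1 D D' hD hD') with ⟨p, hp, f, hf, h⟩ | ⟨p, hp, h⟩
    · exact Or.inl ⟨p, hp, f, hf, h⟩
    · exact Or.inr ⟨p, hp, tot_of h⟩
  · intro u hu D D' hD hD'
    rcases d2 u hu (D, D') (c1 D D' hD hD') with ⟨p, hp, f, hf, h⟩ | ⟨p, hp, h⟩
    · exact Or.inl ⟨p, hp, f, hf, h⟩
    · exact Or.inr ⟨p, hp, ran_of h⟩
  · intro u hu D D' hD hD'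
    rcases d3 u hu (D, D') (c1 D D' hD hD') with ⟨p, hp, f, hf, h⟩ | ⟨p, hp, h⟩
    · have e1 := c5 f hf
      have e2 := c6 f hf
      exact Or.inl ⟨p, hp, f, ⟨c3 _ e1, c4 _ e1, c3 _ e2, c4 _ e2⟩, h⟩
    · exact Or.inr ⟨p, hp, eqv_of hZ hZ' h⟩
  · intro u hu D D' hD hD'
    rcases d4 u hu (D, D') (c1 D D' hD hD') with ⟨p, hp, f, hf, h⟩ | ⟨p, hp, h⟩
    · exact Or.inl ⟨p, hp, f, hf, h⟩
    · exact Or.inr ⟨p, hp, bor_of h⟩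
  · intro u hu D D' hD hD'
    rcases d5 u hu (D, D') (c1 D D' hD hD') with ⟨p, hp, f, hf, h⟩ | ⟨p, hp, h⟩
    · exact Or.inl ⟨p, hp, f, hf, h⟩
    · exact Or.inr ⟨p, hp, bor_of' h⟩
  · intro u hu D D' B B' hD hD' hB hB'
    rcases d6 u hu ((D, D'), (B, B')) (c2 _ _ (c1 D D' hD hD') (c1 B B' hB hB')) with
      ⟨p, hp, f, hf, h⟩ | ⟨p, hp, h⟩
    · exact Or.inl ⟨p, hp, f, ⟨c3 _ hf, c4 _ hf⟩, h⟩
    · exact Or.inr ⟨p, hp, good_of h⟩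

end Pool.Agent.RFN.GX.DB
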