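import Pool.Agent.DX.BReqC
import Pool.Agent.DX.BReqG
import Pool.Agent.DX.BReqJ
import Pool.Agent.DX.BHIso
import Pool.Agent.DX.BGen
import Pool.Agent.DX.BOut

set_option autoImplicit false

/-! # The second model -/

namespace Pool.Agent.RFN.GX.DB

open Pool.Agent.ChoicelessEmb LName DX RB57 MeasureTheory

open Pool.Agent.H78.ZF (ZFM IsZFModel)

variable {K : Type}

theorem mz_eq : MZ (fun ρ σ : Rl => ρ = σ) := measurableSet_eq_fun measurable_fst measurable_snd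

open Classical in
theorem ev_cF {X : Set (Nm K)} {g : Set (Cd K)} [hs : SB X g] (a : Rl) : ev g (cF a) = a := by
  funext n
  have h1 : (ev g (cF a) n = true) ↔ a n = true := by
    unfold ev
    rw [decide_eq_true_iff]
    constructor
    · rintro ⟨p, _, hp⟩
      by_contra h
      have h2 : ({ω : Om K | (cF a : Fr K).1 ω n = true}) = ∅ := by
        ext ω
        simpa [cF] using h
      rw [h2] at hp
      exact p.pos (by simpa [Sub] using hp)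
    · intro h
      refine ⟨⊤, top_g (X := X), ?_⟩
      have h2 : ({ω : Om K | (cF a : Fr K).1 ω n = true}) = Set.univ := by
        ext ω
        simpa [cF] using h
      rw [h2]
      exact sub_univ _
  cases h2 : a n <;> cases h3 : ev g (cF a) n <;> simp_all

theorem exists_modelB (K : Type) (Q Q' : QS) (hR : MeasurableSet Q.R) (hR' : MeasurableSet Q'.R)
    (hne : Q.R.Nonempty) (hne' : Q'.R.Nonempty) (hrefl : ∀ s ∈ Q.R, Q.E s s) (hE : MZ Q.E)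
    (hE' : MZ Q'.E) (a b : Rl) :
    ∃ (M : Set ZFSet.{0}) (h : IsZFModel fun x y : M => x.1 ∈ y.1),
      M.Countable ∧ (∀ x ∈ M, ∀ y ∈ x, y ∈ M) ∧
        (letI : ZFM M := ⟨_, h⟩; Choice M) ∧ rZ a ∈ M ∧ rZ b ∈ M ∧
        (Q.Iso M Q' → ∃ (E0 : Set (Om K)) (Φ : _), MeasurableSet E0 ∧ P K E0 ≠ 0 ∧
          RIso Q.rel Q'.rel E0 Φ) ∧
        (Q.Standard M → ∃ (E0 : Set (Om K)) (θ : _), MeasurableSet E0 ∧ P K E0 ≠ 0 ∧
          RStd Q.rel E0 θ) ∧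
        (Q'.Standard M → ∃ (E0 : Set (Om K)) (θ : _), MeasurableSet E0 ∧ P K E0 ≠ 0 ∧
          RStd Q'.rel E0 θ) := by
  obtain ⟨X, g0, g, hc, _, h1, h2, h3, ⟨h4, h5, h6⟩, ⟨c1, c2, c3⟩, ⟨c4, c5, c6⟩, c7, c8⟩ :=
    ((req_stB (P := Cd K)).and (req_stC.and (req_stG.and
      (((req_stJ hE hE').and ((req_stJ hE mz_eq).and (req_stJ hE' mz_eq))).and
      (((req_hconst (mZ hE : MB K)).and ((req_hconst (mZ hE' : MB K)).and
        (req_hconst (mZ mz_eq : MB K)))).and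
      (((req_hconst (mR hR : MB K)).and ((req_hconst (mR hR' : MB K)).and
        (req_hconst (mR MeasurableSet.univ : MB K)))).and
      ((req_hconst (cF a : Fr K)).and (req_hconst (cF b : Fr K))))))))).exists
  let hs : SB X g := ⟨g0, h1⟩
  have hG : StG X hs.g0 := h3
  have key : ∀ (Q : QS) (hR : MeasurableSet Q.R) (hE : MZ Q.E), Hu X (mZ hE : MB K) →
      Hu X (mR hR : MB K) → StJ Q.E (fun ρ σ : Rl => ρ = σ) X hs.g0 → Q.Standard (Mod X g) →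
      ∃ (E0 : Set (Om K)) (θ : _), MeasurableSet E0 ∧ P K E0 ≠ 0 ∧ RStd Q.rel E0 θ := by
    intro Q hR hE e1 e2 e3 hS
    obtain ⟨S, hS, hI⟩ := hS
    obtain ⟨B, hB, hSB⟩ := borM_to h2 hG (fun ρ : Rl => ρ) c6
      (fun ρ _ => ⟨fun _ => ⟨ρ, rfl⟩, fun _ => Set.mem_univ ρ⟩) hS
    obtain ⟨u, hu, hH⟩ := hIso_of h2 hG (Z := Q.E) (Z' := fun ρ σ : Rl => ρ = σ) e2 hB
      (fun ρ _ => ⟨fun h => ⟨⟨ρ, h⟩, rfl⟩, fun ⟨x, hx⟩ => hx ▸ x.2⟩)
      (fun ρ hρ => ⟨fun h => ⟨⟨ρ, (hSB ρ).2 ⟨hρ, h⟩⟩, rfl⟩, fun ⟨x, hx⟩ => by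
        have := ((hSB x.1).1 x.2).2
        rw [← hx]
        exact this⟩)
      (fun x y => Iff.rfl) (fun x y => Subtype.ext_iff) hI
    obtain ⟨p, _, hp⟩ := gen_of h2 hG hE mz_eq e1 c3 e3 hu e2 hB hH
    obtain ⟨θ, hθ⟩ := rstd_of hR hE hp
    exact ⟨p.s, θ, p.meas, p.pos, hθ⟩
  refine ⟨Mod X g, hs.st.isZF, hc.image _, Mod_trans, choice_mod, ?_, ?_, ?_, ?_, ?_⟩
  · rw [← ev_cF (X := X) (g := g) a]
    exact ev_mem h2 c7
  · rw [← ev_cF (X := X) (g := g) b]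
    exact ev_mem h2 c8
  · intro hI
    obtain ⟨u, hu, hH⟩ := hIso_of h2 hG (Z := Q.E) (Z' := Q'.E) c4 c5
      (fun ρ _ => ⟨fun h => ⟨⟨ρ, h⟩, rfl⟩, fun ⟨x, hx⟩ => hx ▸ x.2⟩)
      (fun ρ _ => ⟨fun h => ⟨⟨ρ, h⟩, rfl⟩, fun ⟨x, hx⟩ => hx ▸ x.2⟩)
      (fun x y => Iff.rfl) (fun x y => Iff.rfl) hI
    obtain ⟨p, _, hp⟩ := gen_of h2 hG hE hE' c1 c2 h4 hu c4 c5 hH
    obtain ⟨Φ, hΦ⟩ := riso_of hR hR' hne hne' hrefl hE hE' hp
    exact ⟨p.s, Φ, p.meas, p.pos, hΦ⟩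
  · exact key Q hR hE c1 c4 h5
  · exact key Q' hR' hE' c2 c5 h6

end Pool.Agent.RFN.GX.DB
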