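import Pool.Agent.DX.BSt

set_option autoImplicit false

/-!
# Random names: atomic forcing, mixing

PROOFS.
* `nN_eq` : `feq_checkN` (checkN names which are forced equal are equal), `natZ_injective`.
* `fmem_nf` : backward `fmem_of_ch` with the element `(nN n, p)` of `nf f` (`mem_ch_relG`). Forward: every
  `q ≤ p` has `r ≤ q` and `(nN m, d)` in `nf f` with `r ≤ d`, `feq (nN n) (nN m) r`, so `m = n` and
  `Sub r {f n}` (`sub_mono`); `sub_of_dense`.
* `feq_nf` : backward `feq_of_fmem` and `fmem_nf`. Forward: for every `n`, `Sub p {ω | f ω n = h ω n}`: otherwise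
  (`exists_sub_compl`, `exists_dec`) some `q ≤ p` is almost contained in `{f n = 1, h n = 0}` or in
  `{f n = 0, h n = 1}`; by `fmem_nf` and `fmem_congr_right` (for `feq_mono`) contradiction with `not_both`;
  then `sub_iInter`.
* `pairN_congr` : `feq_of_fmem`, `mem_ch_pairN`; `opairN_congr` from it.
* `fmem_pN`, `fmem_qN` : `fmem_congr_left`, `opairN_congr`, `feq_nf`.
* `mixF` : `h ω = (t n).1 ω` for `ω ∈ A n`, constant outside `⋃ A n`; measurable: for a measurable `S` the
  preimage is `⋃ n, (A n ∩ (t n).1 ⁻¹' S)` and possibly the complement of `⋃ A n` (or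
  `measurable_of_...piecewise`, `exists_measurable_piecewise`).
* `mixB` : `B = ⋃ n, (A n ×ˢ univ) ∩ (t n)`.
* `exists_real` : for every `n` apply `ess` to `{p | fmem (nN n) u p}` (`fmem_mono`, `fmem_dense`): `S n`;
  `f ω n = true` iff `ω ∈ S n` (classical `decide`), measurable by `measurable_pi_iff` and
  `measurable_to_bool`/`Measurable.ite`. -/

namespace Pool.Agent.RFN.GX.DB

open Pool.Agent.ChoicelessEmb LName DX RB57 MeasureTheory

variable {K : Type}

theorem meas_bit (f : Fr K) (n : ℕ) : MeasurableSet {ω | f.1 ω n = true} :=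
  ((measurable_pi_apply (X := fun _ : ℕ => Bool) n).comp f.2)
    (MeasurableSet.of_discrete (s := {true}))

theorem nN_eq {m n : ℕ} {p : Cd K} (h : feq (nN m) (nN n) p) : m = n :=
  natZ_injective (feq_checkN h)

theorem fmem_nf (n : ℕ) (f : Fr K) (p : Cd K) :
    fmem (nN n) (nf f) p ↔ Sub p {ω | f.1 ω n = true} := by
  constructor
  · intro h
    refine sub_of_dense (meas_bit f n) fun q hq => ?_
    obtain ⟨r, hr, w, d, hw, hd, h1⟩ := h q hq
    obtain ⟨m, hm, rfl⟩ := mem_ch_relG.1 hw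
    have hmn := nN_eq h1
    subst hmn
    exact ⟨r, hr, sub_mono hd hm⟩
  · intro h
    exact fmem_of_ch (mem_ch_relG.2 ⟨n, h, rfl⟩) le_rfl

theorem feq_nf_aux {f h : Fr K} {p : Cd K} (e : Sub p {ω | f.1 ω = h.1 ω}) (n : ℕ)
    (h1 : Sub p {ω | f.1 ω n = true}) : Sub p {ω | h.1 ω n = true} := by
  refine sub_superset ?_ (sub_inter e h1)
  rintro ω ⟨h2, h3⟩
  have h2' : f.1 ω = h.1 ω := h2
  have h3' : f.1 ω n = true := h3
  show h.1 ω n = true
  rw [← h2']
  exact h3'

theorem feq_nf_ex {f h : Fr K} {p : Cd K} (e : feq (nf f) (nf h) p) (n : ℕ) {q : Cd K}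
    (hq : q ≤ p) (h1 : Sub q {ω | f.1 ω n = true}) : Sub q {ω | h.1 ω n = true} :=
  (fmem_nf n h q).1 (fmem_congr_right (feq_mono e hq) ((fmem_nf n f q).2 h1))

theorem feq_nf (f h : Fr K) (p : Cd K) : feq (nf f) (nf h) p ↔ Sub p {ω | f.1 ω = h.1 ω} := by
  constructor
  · intro e
    have key : ∀ n, Sub p {ω | f.1 ω n = h.1 ω n} := by
      intro n
      have hms : MeasurableSet {ω | f.1 ω n = h.1 ω n} :=
        measurableSet_eq_fun
          ((measurable_pi_apply (X := fun _ : ℕ => Bool) n).comp f.2)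
          ((measurable_pi_apply (X := fun _ : ℕ => Bool) n).comp h.2)
      by_contra hn
      obtain ⟨q, hq, h1⟩ := exists_sub_compl hms hn
      obtain ⟨r, hr, h2⟩ := exists_dec q (meas_bit f n)
      have h1' := sub_mono hr h1
      rcases h2 with h2 | h2
      · have h3 := feq_nf_ex e n (hr.trans hq) h2
        refine not_both (S := {ω | f.1 ω n = h.1 ω n}) ?_ h1'
        refine sub_superset ?_ (sub_inter h2 h3)
        rintro ω ⟨h4, h5⟩
        have h4' : f.1 ω n = true := h4
        have h5' : h.1 ω n = true := h5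
        show f.1 ω n = h.1 ω n
        rw [h4', h5']
      · have h3 : Sub r {ω | h.1 ω n = true} := by
          refine sub_superset ?_ (sub_inter h1' h2)
          rintro ω ⟨h4, h5⟩
          have h4' : ¬ (f.1 ω n = h.1 ω n) := h4
          have h5' : ¬ (f.1 ω n = true) := h5
          show h.1 ω n = true
          cases hf : f.1 ω n <;> cases hh : h.1 ω n <;> simp_all
        have h4 := feq_nf_ex (feq_symm e) n (hr.trans hq) h3
        exact not_both h4 h2
    refine sub_superset ?_ (sub_iInter key)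
    intro ω hω
    have h1 := Set.mem_iInter.1 hω
    show f.1 ω = h.1 ω
    funext n
    exact h1 n
  · intro e
    refine feq_of_fmem ?_ ?_
    · intro u c hu q hq hc
      obtain ⟨n, hn, rfl⟩ := mem_ch_relG.1 hu
      exact (fmem_nf n h q).2 (feq_nf_aux (sub_mono hq e) n (sub_mono hc hn))
    · intro u c hu q hq hc
      obtain ⟨n, hn, rfl⟩ := mem_ch_relG.1 hu
      refine (fmem_nf n f q).2 (feq_nf_aux ?_ n (sub_mono hc hn))
      refine sub_superset ?_ (sub_mono hq e)
      intro ω hω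
      exact Eq.symm hω

theorem pairN_congr {a b a' b' : Nm K} {p : Cd K} (h : feq a a' p) (h' : feq b b' p) :
    feq (pairN a b) (pairN a' b') p := by
  refine feq_of_fmem ?_ ?_
  · intro u c hu q hq hc
    obtain ⟨h1 | h1, h2⟩ := mem_ch_pairN.1 hu
    · subst h1
      exact fmem_congr_left (feq_symm (feq_mono h hq))
        (fmem_of_ch (mem_ch_pairN.2 ⟨Or.inl rfl, rfl⟩) le_top)
    · subst h1
      exact fmem_congr_left (feq_symm (feq_mono h' hq))
        (fmem_of_ch (mem_ch_pairN.2 ⟨Or.inr rfl, rfl⟩) le_top)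
  · intro u c hu q hq hc
    obtain ⟨h1 | h1, h2⟩ := mem_ch_pairN.1 hu
    · subst h1
      exact fmem_congr_left (feq_mono h hq)
        (fmem_of_ch (mem_ch_pairN.2 ⟨Or.inl rfl, rfl⟩) le_top)
    · subst h1
      exact fmem_congr_left (feq_mono h' hq)
        (fmem_of_ch (mem_ch_pairN.2 ⟨Or.inr rfl, rfl⟩) le_top)

theorem opairN_congr {a b a' b' : Nm K} {p : Cd K} (h : feq a a' p) (h' : feq b b' p) :
    feq (opairN a b) (opairN a' b') p := by
  unfold opairN
  exact pairN_congr (pairN_congr h h) (pairN_congr h h')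

theorem fmem_pN {u : Nm K} {f f' h h' : Fr K} {p : Cd K} (e : Sub p {ω | f.1 ω = f'.1 ω})
    (e' : Sub p {ω | h.1 ω = h'.1 ω}) (hm : fmem (pN f h) u p) : fmem (pN f' h') u p :=
  fmem_congr_left (opairN_congr ((feq_nf f f' p).2 e) ((feq_nf h h' p).2 e')) hm

theorem fmem_qN {u : Nm K} {n : ℕ} {f f' : Fr K} {p : Cd K} (e : Sub p {ω | f.1 ω = f'.1 ω})
    (hm : fmem (qN n f) u p) : fmem (qN n f') u p :=
  fmem_congr_left (opairN_congr (feq_refl _ p) ((feq_nf f f' p).2 e)) hm

theorem mixF {A : ℕ → Set (Om K)} (hA : ∀ n, MeasurableSet (A n))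
    (hd : ∀ m n, m ≠ n → Disjoint (A m) (A n)) (t : ℕ → Fr K) :
    ∃ h : Fr K, ∀ n, ∀ ω ∈ A n, h.1 ω = (t n).1 ω := by
  obtain ⟨h, hm, he⟩ := exists_measurable_piecewise A hA (fun n => (t n).1) (fun n => (t n).2)
    (by
      intro m n hmn ω hω
      exact (Set.disjoint_iff.1 (hd m n hmn) hω).elim)
  exact ⟨⟨h, hm⟩, fun n ω hω => he n hω⟩

theorem mixB {A : ℕ → Set (Om K)} (hA : ∀ n, MeasurableSet (A n))
    (hd : ∀ m n, m ≠ n → Disjoint (A m) (A n)) (t : ℕ → MB K) :
    ∃ B : MB K, ∀ n, ∀ ω ∈ A n, ∀ ρ, (ω, ρ) ∈ B.1 ↔ (ω, ρ) ∈ (t n).1 := by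
  refine ⟨⟨⋃ n, (A n ×ˢ Set.univ) ∩ (t n).1,
    MeasurableSet.iUnion fun n => ((hA n).prod MeasurableSet.univ).inter (t n).2⟩, ?_⟩
  intro n ω hω ρ
  constructor
  · intro h
    obtain ⟨m, hm⟩ := Set.mem_iUnion.1 h
    by_cases hmn : m = n
    · subst hmn
      exact hm.2
    · exact (Set.disjoint_iff.1 (hd m n hmn) (⟨hm.1.1, hω⟩ : ω ∈ A m ∩ A n)).elim
  · intro h
    exact Set.mem_iUnion.2 ⟨n, ⟨⟨hω, Set.mem_univ _⟩, h⟩⟩

open Classical in
/-- Every name is the name of a real, as far as the elements `nN n` are concerned. -/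
theorem exists_real (u : Nm K) :
    ∃ f : Fr K, ∀ n p, fmem (nN n) u p ↔ Sub p {ω | f.1 ω n = true} := by
  have h := fun n => ess {p : Cd K | fmem (nN n) u p} (fun p hp q hq => fmem_mono hp hq)
    (fun p hp => fmem_dense hp)
  choose S hS hS' using h
  refine ⟨⟨fun ω n => decide (ω ∈ S n), ?_⟩, ?_⟩
  · refine measurable_pi_iff.2 fun n => ?_
    refine measurable_to_bool ?_
    have : (fun ω => decide (ω ∈ S n)) ⁻¹' {true} = S n := by
      ext ω
      simp
    rw [this]
    exact hS n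
  · intro n p
    have : {ω | decide (ω ∈ S n) = true} = S n := by
      ext ω
      simp
    show fmem (nN n) u p ↔ Sub p {ω | decide (ω ∈ S n) = true}
    rw [this]
    exact hS' n p

end Pool.Agent.RFN.GX.DB
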