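import Pool.Agent.DX.BSt

set_option autoImplicit false

/-!
# The closure properties of the hull can be met (random reals)

PROOFS. `exists_code` : `exists_BC eK` (the index type is nonempty): the product sigma-algebra of
`Om K × Rl` is generated by the sets `eK i`: `MeasurableSpace.prod` is the join of the two comaps, and the
product sigma-algebras of `Om K = K → ℕ → Bool` and `Rl` are joins of comaps of the coordinates to
`Bool` (see `exists_BC_real` in DX/BC for the last step).
`req_stC` : a conjunction of `req_hname` (`nf`, `nB`), `req_hrefl0` (`code`, with `exists_code`), `req_hop`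
(`mB`, `compl'`, `union'`: classical or `match` inverse of the constructor, `seqb`, `mC`, `mU`), `Req.forall`
with `req_hop` (`seqc`, `seq`) or `req_hconst` (`bas`), `req_hconst` (`mP`), `req_hop2` (`jF`). -/

namespace Pool.Agent.RFN.GX.DB

open Pool.Agent.ChoicelessEmb LName DX RB57 MeasureTheory

variable {K : Type}

theorem eK_gen : (inferInstance : MeasurableSpace (Om K × Rl)) ≤
    MeasurableSpace.generateFrom (Set.range (eK (K := K))) := by
  have hgen : ∀ i : IK K, MeasurableSet[MeasurableSpace.generateFrom (Set.range (eK (K := K)))]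
      (eK i) := fun i => MeasurableSpace.measurableSet_generateFrom ⟨i, rfl⟩
  refine sup_le ?_ ?_
  · refine Measurable.comap_le ?_
    refine @measurable_pi_lambda _ _ _
      (MeasurableSpace.generateFrom (Set.range (eK (K := K)))) _ _ fun k => ?_
    refine @measurable_pi_lambda _ _ _
      (MeasurableSpace.generateFrom (Set.range (eK (K := K)))) _ _ fun n => ?_
    refine @measurable_to_bool _
      (MeasurableSpace.generateFrom (Set.range (eK (K := K)))) _ ?_
    exact hgen (Sum.inl (k, n))
  · refine Measurable.comap_le ?_
    refine @measurable_pi_lambda _ _ _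
      (MeasurableSpace.generateFrom (Set.range (eK (K := K)))) _ _ fun n => ?_
    refine @measurable_to_bool _
      (MeasurableSpace.generateFrom (Set.range (eK (K := K)))) _ ?_
    exact hgen (Sum.inr n)

theorem exists_code (B : MB K) : ∃ b : BC (IK K), mB b = B := by
  have : Nonempty (IK K) := ⟨Sum.inr 0⟩
  obtain ⟨b, hb⟩ := exists_BC (eK (K := K)) (eK_gen B.1 B.2)
  exact ⟨b, Subtype.ext hb⟩

/-- the inverse of the constructor compl -/
def unC : BC (IK K) → BC (IK K)
  | BC.compl b => b
  | c => c

/-- the inverse of the constructor union -/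
def unU : BC (IK K) → ℕ → BC (IK K)
  | BC.union s => s
  | c => fun _ => c

theorem req_stC : Req fun (X : Set (Nm K)) _ _ => StC X := by
  refine ((req_hname (P := Cd K) (nf (K := K))).and
    ((req_hname (P := Cd K) (nB (K := K))).and
    ((req_hrefl0 (P := Cd K) fun (B : MB K) (b : BC (IK K)) => mB b = B).and
    ((req_hop (P := Cd K) (mB (K := K))).and
    ((req_hop (P := Cd K) (unC (K := K))).and
    ((req_hop (P := Cd K) (unU (K := K))).and
    ((req_hop (P := Cd K) fun (s : ℕ → BC (IK K)) n => mB (s n)).and
    ((Req.forall fun n : ℕ => req_hop (P := Cd K) fun (s : ℕ → BC (IK K)) => s n).and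
    ((Req.forall fun n : ℕ => req_hconst (P := Cd K) (mB (BC.basic (Sum.inr n)) : MB K)).and
    ((req_hop (P := Cd K) (mC (K := K))).and
    ((req_hop (P := Cd K) (mU (K := K))).and
    ((Req.forall fun n : ℕ => req_hop (P := Cd K) fun (s : ℕ → MB K) => s n).and
    ((req_hconst (P := Cd K) (mP : ℕ → MB K)).and
    (req_hop2 (P := Cd K) (jF (K := K)))))))))))))))).mono ?_
  rintro X g0 g _ ⟨h1, h2, h3, h4, h5, h6, h7, h8, h9, h10, h11, h12, h13, h14⟩
  exact
    { nf := h1
      nB := h2
      code := fun B hB => h3 B hB (exists_code B)
      mB := h4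
      compl' := fun b hb => h5 _ hb
      union' := fun s hs => h6 _ hs
      seqb := h7
      seqc := fun s hs n => h8 n s hs
      bas := h9
      mC := h10
      mU := h11
      seq := fun s hs n => h12 n s hs
      mP := h13
      jF := h14 }

end Pool.Agent.RFN.GX.DB
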