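import Pool.Agent.GEX.Base

set_option autoImplicit false

/-!
# The hull: the objects of the Lean universe which are captured by the set of names

`Hu X t` : the canonical name of `t : T` is in `X`. All the requirements below are immediate from
`reqc_op`, `reqc_dec`, `reqc_refl`, `Req.refl`, `Req.dec` (RFN/Req, RFN/ReqC).
-/

namespace Pool.Agent.RFN.GX

open Pool.Agent.ChoicelessEmb LName

section

variable {P : Type} [Preorder P] [OrderTop P]

/-- `t` is in the hull. -/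
def Hu (X : Set (LName P)) {T : Type} (t : T) : Prop := (ckT T t : LName P) ∈ X

theorem req_hconst {T : Type} (t : T) : Req fun (X : Set (LName P)) _ _ => Hu X t :=
  Req.const _

theorem req_hop {T T' : Type} (f : T → T') :
    Req fun (X : Set (LName P)) _ _ => ∀ t, Hu X t → Hu X (f t) :=
  reqc_op (ckT T) (ckT_inj T) (ckT T') f

theorem req_hop2 {T T' T'' : Type} (f : T → T' → T'') :
    Req fun (X : Set (LName P)) _ _ => ∀ t t', Hu X t → Hu X t' → Hu X (f t t') := by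
  refine ((reqc_op (nm2 (ckT T) (ckT T')) (nm2_inj (ckT_inj T) (ckT_inj T')) (ckT T'')
    (fun t => f t.1 t.2)).and req_proj).mono ?_
  rintro X g0 g _ ⟨h1, h2, _⟩ t t' ht ht'
  exact h1 (t, t') (h2 _ ht _ ht')

/-- Names of objects of the hull. -/
theorem req_hname {T : Type} (nm : T → LName P) :
    Req fun (X : Set (LName P)) _ _ => ∀ t, Hu X t → nm t ∈ X :=
  reqc_op (ckT T) (ckT_inj T) nm id

theorem req_hdec {T : Type} (D : T → Set P) :
    Req fun (X : Set (LName P)) g0 _ => ∀ t, Hu X t → Dec0 g0 (D t) :=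
  reqc_dec (ckT T) (ckT_inj T) D

theorem req_hrefl {T T' : Type} (Q : T → P → T' → Prop) :
    Req fun (X : Set (LName P)) g0 _ => ∀ t, Hu X t → ∀ r ∈ g0, (∃ t', Q t r t') →
      ∃ t', Hu X t' ∧ Q t r t' :=
  reqc_refl (ckT T) (ckT_inj T) (ckT T') Q

/-- Witnesses which do not depend on a condition. -/
theorem req_hrefl0 {T T' : Type} (Q : T → T' → Prop) :
    Req fun (X : Set (LName P)) _ _ => ∀ t, Hu X t → (∃ t', Q t t') →
      ∃ t', Hu X t' ∧ Q t t' := by
  refine (req_hrefl (P := P) fun t _ t' => Q t t').mono ?_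
  intro X g0 g hg h t ht h'
  obtain ⟨p, hp, _⟩ := hg.gen ⊤ hg.fil.top_mem
  exact h t ht p hp h'

/-- The same with a name as a parameter. -/
theorem req_ndec {T : Type} (D : LName P → T → Set P) :
    Req fun (X : Set (LName P)) g0 _ => ∀ u ∈ X, ∀ t, Hu X t → Dec0 g0 (D u t) := by
  refine ((reqc_dec (fun v : LName P × T => opairN v.1 (ckT T v.2)) (fun a b e => Prod.ext
    (opairN_inj e).1 (ckT_inj T (opairN_inj e).2)) (fun v => D v.1 v.2)).and req_proj).mono ?_
  rintro X g0 g _ ⟨h1, h2, _⟩ u hu t ht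
  exact h1 (u, t) (h2 _ hu _ ht)

theorem req_nrefl {T T' : Type} (Q : LName P → T → P → T' → Prop) :
    Req fun (X : Set (LName P)) g0 _ => ∀ u ∈ X, ∀ t, Hu X t → ∀ r ∈ g0, (∃ t', Q u t r t') →
      ∃ t', Hu X t' ∧ Q u t r t' := by
  refine ((reqc_refl (fun v : LName P × T => opairN v.1 (ckT T v.2)) (fun a b e => Prod.ext
    (opairN_inj e).1 (ckT_inj T (opairN_inj e).2)) (ckT T') (fun v r t' => Q v.1 v.2 r t')).and
    req_proj).mono ?_
  rintro X g0 g _ ⟨h1, h2, _⟩ u hu t ht r hr h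
  exact h1 (u, t) (h2 _ hu _ ht) r hr h

/-- Either a bad condition with an index in the hull is in `g0`, or some condition of `g0` has no
bad extension. -/
theorem req_nalt {T T' : Type} (Bad : LName P → T → T' → Set P) :
    Req fun (X : Set (LName P)) g0 _ => ∀ u ∈ X, ∀ t, Hu X t →
      (∃ p ∈ g0, ∃ t', Hu X t' ∧ p ∈ Bad u t t') ∨ ∃ p ∈ g0, ∀ r ≤ p, ∀ t', r ∉ Bad u t t' := by
  refine ((req_ndec fun u t => {p : P | ∃ t', p ∈ Bad u t t'}).and
    (req_nrefl fun u t r t' => r ∈ Bad u t t')).mono ?_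
  rintro X g0 g _ ⟨h1, h2⟩ u hu t ht
  obtain ⟨p, hp, h | h⟩ := h1 u hu t ht
  · left
    obtain ⟨t', h3, h4⟩ := h2 u hu t ht p hp h
    exact ⟨p, hp, t', h3, h4⟩
  · right
    exact ⟨p, hp, fun r hr i hi => h r hr ⟨i, hi⟩⟩

/-- The same without a name. -/
theorem req_halt {T T' : Type} (Bad : T → T' → Set P) :
    Req fun (X : Set (LName P)) g0 _ => ∀ t, Hu X t →
      (∃ p ∈ g0, ∃ t', Hu X t' ∧ p ∈ Bad t t') ∨ ∃ p ∈ g0, ∀ r ≤ p, ∀ t', r ∉ Bad t t' := by
  refine ((req_hdec fun t => {p : P | ∃ t', p ∈ Bad t t'}).and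
    (req_hrefl fun t r t' => r ∈ Bad t t')).mono ?_
  rintro X g0 g _ ⟨h1, h2⟩ t ht
  obtain ⟨p, hp, h | h⟩ := h1 t ht
  · left
    obtain ⟨t', h3, h4⟩ := h2 t ht p hp h
    exact ⟨p, hp, t', h3, h4⟩
  · right
    exact ⟨p, hp, fun r hr i hi => h r hr ⟨i, hi⟩⟩

/-- A dense set of conditions with an index: some condition in `g0` is in it, with an index in the
hull. -/
theorem req_hdense {T T' : Type} (D : T → T' → Set P) :
    Req fun (X : Set (LName P)) g0 _ => ∀ t, Hu X t → (∀ p : P, ∃ r ≤ p, ∃ t', r ∈ D t t') →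
      ∃ p ∈ g0, ∃ t', Hu X t' ∧ p ∈ D t t' := by
  refine (req_halt D).mono ?_
  intro X g0 g _ h t ht hd
  rcases h t ht with h1 | ⟨p, _, h1⟩
  · exact h1
  · obtain ⟨r, hr, t', h2⟩ := hd p
    exact absurd h2 (h1 r hr t')

end

end Pool.Agent.RFN.GX
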