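import Pool.Agent.DX.RPMix
import Pool.Agent.DX.BC
import Pool.Agent.DX.Hull

set_option autoImplicit false

/-!
# The second model (random reals): names and requirements (definitions)

`Fr K` : the measurable functions `Om K → (ℕ → Bool)` (names of reals); `MB K` : the measurable subsets of
`Om K × (ℕ → Bool)` (names of Borel sets). `gp g` is the generic point, `ev g f` the value of `f`.
`fs (jn ρ σ) = ρ`, `sn (jn ρ σ) = σ` : coding of pairs of reals.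
-/

namespace Pool.Agent.RFN.GX.DB

open Pool.Agent.ChoicelessEmb LName DX RB57 MeasureTheory

/-- The reals. -/
abbrev Rl : Type := ℕ → Bool

/-- The names. -/
abbrev Nm (K : Type) : Type 1 := LName (Cd K)

/-- Names of reals. -/
abbrev Fr (K : Type) : Type := {f : Om K → Rl // Measurable f}

/-- Names of Borel sets of reals. -/
abbrev MB (K : Type) : Type := {D : Set (Om K × Rl) // MeasurableSet D}

noncomputable section

variable {K : Type}

/-- The name of the real `f`. -/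
def nf (f : Fr K) : Nm K := relG nN fun n p => Sub p {ω | f.1 ω n = true}

/-- The event `f ∈ B`. -/
def at' (f : Fr K) (B : MB K) : Set (Om K) := {ω | (ω, f.1 ω) ∈ B.1}

theorem at_meas (f : Fr K) (B : MB K) : MeasurableSet (at' f B) :=
  (measurable_id.prodMk f.2) B.2

/-- The name of a sequence of Borel sets. -/
def nB (s : ℕ → MB K) : Nm K := relG (nm2 nN nf) fun t p => Sub p (at' t.2 (s t.1))

/-- The name of the pair of the reals `f`, `h`. -/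
def pN (f h : Fr K) : Nm K := opairN (nf f) (nf h)

/-- The name of the pair of the number `n` and the real `f`. -/
def qN (n : ℕ) (f : Fr K) : Nm K := opairN (nN n) (nf f)

/-- The event `S` occurs in the model. -/
def InG (g : Set (Cd K)) (S : Set (Om K)) : Prop := ∃ p ∈ g, Sub p S

open Classical in
/-- The value of the real `f`. -/
def ev (g : Set (Cd K)) (f : Fr K) : Rl := fun n => decide (InG g {ω | f.1 ω n = true})

open Classical in
/-- The generic point. -/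
def gp (g : Set (Cd K)) : Om K := fun k n => decide (InG g {ω | ω k n = true})

/-! ## Borel codes for subsets of `Om K × Rl` -/

/-- The index set. -/
abbrev IK (K : Type) : Type := (K × ℕ) ⊕ ℕ

/-- The generating family. -/
def eK : IK K → Set (Om K × Rl)
  | Sum.inl (k, n) => {z | z.1 k n = true}
  | Sum.inr n => {z | z.2 n = true}

theorem eK_meas (i : IK K) : MeasurableSet (eK i) := by
  rcases i with ⟨k, n⟩ | n
  · exact (((measurable_pi_apply (X := fun _ : ℕ => Bool) n).comp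
      (measurable_pi_apply (X := fun _ : K => Rl) k)).comp measurable_fst)
      (MeasurableSet.of_discrete (s := {true}))
  · exact ((measurable_pi_apply (X := fun _ : ℕ => Bool) n).comp measurable_snd)
      (MeasurableSet.of_discrete (s := {true}))

/-- The set with the code `b`. -/
def mB (b : BC (IK K)) : MB K := ⟨b.set eK, b.measurable_set eK_meas⟩

/-- The complement. -/
def mC (B : MB K) : MB K := ⟨B.1ᶜ, B.2.compl⟩

/-- The union. -/
def mU (s : ℕ → MB K) : MB K := ⟨⋃ n, (s n).1, MeasurableSet.iUnion fun n => (s n).2⟩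

/-! ## Pairs of reals -/

/-- The pair of two reals, coded by a real. -/
def jn (ρ σ : Rl) : Rl := fun n => if n % 2 = 0 then ρ (n / 2) else σ (n / 2)

/-- First component. -/
def fs (ρ : Rl) : Rl := fun n => ρ (2 * n)

/-- Second component. -/
def sn (ρ : Rl) : Rl := fun n => ρ (2 * n + 1)

theorem fs_jn (ρ σ : Rl) : fs (jn ρ σ) = ρ := by
  funext n
  simp [fs, jn]

theorem sn_jn (ρ σ : Rl) : sn (jn ρ σ) = σ := by
  funext n
  have h1 : (2 * n + 1) % 2 = 1 := by omega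
  have h2 : (2 * n + 1) / 2 = n := by omega
  simp [sn, jn, h1, h2]

theorem fs_meas : Measurable fs :=
  measurable_pi_iff.2 fun n => measurable_pi_apply (X := fun _ : ℕ => Bool) (2 * n)

theorem sn_meas : Measurable sn :=
  measurable_pi_iff.2 fun n => measurable_pi_apply (X := fun _ : ℕ => Bool) (2 * n + 1)

/-- The pair of two names. -/
def jF (f h : Fr K) : Fr K := ⟨fun ω => jn (f.1 ω) (h.1 ω), by
  refine measurable_pi_iff.2 fun n => ?_
  by_cases hn : n % 2 = 0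
  · simp only [jn, hn, if_true]
    exact (measurable_pi_apply (X := fun _ : ℕ => Bool) (n / 2)).comp f.2
  · simp only [jn, hn, if_false]
    exact (measurable_pi_apply (X := fun _ : ℕ => Bool) (n / 2)).comp h.2⟩

/-- `Z` is a Borel relation. -/
def MZ (Z : Rl → Rl → Prop) : Prop := MeasurableSet {p : Rl × Rl | Z p.1 p.2}

/-- The Borel relation `Z` as a set of pairs. -/
def mZ {Z : Rl → Rl → Prop} (hZ : MZ Z) : MB K :=
  ⟨{z | Z (fs z.2) (sn z.2)},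
    ((fs_meas.comp measurable_snd).prodMk (sn_meas.comp measurable_snd)) hZ⟩

/-- The set of points of the Borel set `R`. -/
def mR {R : Set Rl} (hR : MeasurableSet R) : MB K := ⟨{z | z.2 ∈ R}, measurable_snd hR⟩

/-- The constant name. -/
def cF (ρ : Rl) : Fr K := ⟨fun _ => ρ, measurable_const⟩

/-- A partition of everything, used for the set of all points. -/
def mP (n : ℕ) : MB K := if n = 0 then mB (BC.basic (Sum.inr 0)) else mC (mB (BC.basic (Sum.inr 0)))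

/-! ## Sections of names -/

/-- `p` decides the `n`-th section of `u` on the set `D`: it is the Borel set `B`. -/
def SecB (u : Nm K) (D : MB K) (n : ℕ) (B : MB K) (p : Cd K) : Prop :=
  ∀ q ≤ p, ∀ f : Fr K, Sub q (at' f D) → (fmem (qN n f) u q ↔ Sub q (at' f B))

/-- `p` decides that the `n`-th section of `u` is not `B` because of `f`. -/
def NegB (u : Nm K) (D : MB K) (n : ℕ) (B : MB K) (f : Fr K) (p : Cd K) : Prop :=
  Sub p (at' f D) ∧ ((Sub p (at' f B) ∧ ∀ r ≤ p, ¬ fmem (qN n f) u r) ∨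
    (Sub p (at' f B)ᶜ ∧ fmem (qN n f) u p))

/-! ## Relations between names -/

section rel

variable (u : Nm K) (D D' : MB K) (Z Z' : Rl → Rl → Prop)

/-- `p` forces that `f` is in `D`, `h` is in `D'` and the pair is in `u`. -/
def Fm (f h : Fr K) (p : Cd K) : Prop :=
  Sub p (at' f D) ∧ Sub p (at' h D') ∧ fmem (pN f h) u p

def BadT (f : Fr K) (p : Cd K) : Prop := Sub p (at' f D) ∧ ∀ q ≤ p, ∀ h, ¬ Fm u D D' f h q

def BadR (h : Fr K) (p : Cd K) : Prop := Sub p (at' h D') ∧ ∀ q ≤ p, ∀ f, ¬ Fm u D D' f h q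

/-- Total. -/
def Tot (p : Cd K) : Prop := ∀ q ≤ p, ∀ f, Sub q (at' f D) → ∃ h, Fm u D D' f h q

/-- Onto. -/
def Ran (p : Cd K) : Prop := ∀ q ≤ p, ∀ h, Sub q (at' h D') → ∃ f, Fm u D D' f h q

def BadE (t : (Fr K × Fr K) × (Fr K × Fr K)) (p : Cd K) : Prop :=
  Fm u D D' t.1.1 t.2.1 p ∧ Fm u D D' t.1.2 t.2.2 p ∧
    Sub p {ω | ¬ (Z (t.1.1.1 ω) (t.1.2.1 ω) ↔ Z' (t.2.1.1 ω) (t.2.2.1 ω))}

/-- The relations correspond. -/
def Eqv (p : Cd K) : Prop := ∀ q ≤ p, ∀ f f' h h', Fm u D D' f h q → Fm u D D' f' h' q →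
  Sub q {ω | Z (f.1 ω) (f'.1 ω) ↔ Z' (h.1 ω) (h'.1 ω)}

/-- `B` is invariant on `D`. -/
def InvD (B : MB K) : Prop := ∀ ω ρ σ, (ω, ρ) ∈ D.1 → (ω, σ) ∈ D.1 → Z ρ σ →
  ((ω, ρ) ∈ B.1 ↔ (ω, σ) ∈ B.1)

def BadG (B B' : MB K) (t : Fr K × Fr K) (p : Cd K) : Prop :=
  Fm u D D' t.1 t.2 p ∧ Sub p {ω | ¬ ((ω, t.1.1 ω) ∈ B.1 ↔ (ω, t.2.1 ω) ∈ B'.1)}

/-- `B` corresponds to `B'`. -/
def Good (B B' : MB K) (p : Cd K) : Prop :=
  ∀ q ≤ p, ∀ f h, Fm u D D' f h q → Sub q {ω | (ω, f.1 ω) ∈ B.1 ↔ (ω, h.1 ω) ∈ B'.1}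

def BadB (B : MB K) (p : Cd K) : Prop := InvD D Z B ∧ ∀ q ≤ p, ∀ B', ¬ Good u D D' B B' q

def BadB' (B' : MB K) (p : Cd K) : Prop := InvD D' Z' B' ∧ ∀ q ≤ p, ∀ B, ¬ Good u D D' B B' q

/-- Invariant Borel sets correspond to Borel sets. -/
def Bor (p : Cd K) : Prop := ∀ B, InvD D Z B → ∃ B', Good u D D' B B' p

def Bor' (p : Cd K) : Prop := ∀ B', InvD D' Z' B' → ∃ B, Good u D D' B B' p

/-- `p` forces that `u` induces an isomorphism of `D / Z` and `D' / Z'`. -/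
structure Gen (p : Cd K) : Prop where
  tot : Tot u D D' p
  ran : Ran u D D' p
  eqv : Eqv u D D' Z Z' p
  bor : Bor u D D' Z p
  bor' : Bor' u D D' Z' p

end rel

/-! ## The requirements -/

/-- Closure properties of the hull. -/
structure StC (X : Set (Nm K)) : Prop where
  nf : ∀ f : Fr K, Hu X f → nf f ∈ X
  nB : ∀ s : ℕ → MB K, Hu X s → nB s ∈ X
  code : ∀ B : MB K, Hu X B → ∃ b : BC (IK K), Hu X b ∧ mB b = B
  mB : ∀ b : BC (IK K), Hu X b → Hu X (mB b)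
  compl' : ∀ b : BC (IK K), Hu X (BC.compl b) → Hu X b
  union' : ∀ s : ℕ → BC (IK K), Hu X (BC.union s) → Hu X s
  seqb : ∀ s : ℕ → BC (IK K), Hu X s → Hu X (fun n => DB.mB (s n))
  seqc : ∀ s : ℕ → BC (IK K), Hu X s → ∀ n, Hu X (s n)
  bas : ∀ n : ℕ, Hu X (DB.mB (BC.basic (Sum.inr n)) : MB K)
  mC : ∀ B : MB K, Hu X B → Hu X (mC B)
  mU : ∀ s : ℕ → MB K, Hu X s → Hu X (mU s)
  seq : ∀ s : ℕ → MB K, Hu X s → ∀ n, Hu X (s n)
  mP : Hu X (mP : ℕ → MB K)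
  jF : ∀ f h : Fr K, Hu X f → Hu X h → Hu X (jF f h)

/-- Genericity. -/
structure StG (X : Set (Nm K)) (g0 : Set (Cd K)) : Prop where
  dec : ∀ f : Fr K, Hu X f → ∀ B : MB K, Hu X B →
    ∃ p ∈ g0, Sub p (at' f B) ∨ Sub p (at' f B)ᶜ
  un : ∀ f : Fr K, Hu X f → ∀ s : ℕ → MB K, Hu X s →
    (∃ p ∈ g0, ∃ n, Sub p (at' f (s n))) ∨ ∃ p ∈ g0, ∀ r ≤ p, ∀ n, ¬ Sub r (at' f (s n))
  real : ∀ u ∈ X, ∃ f : Fr K, Hu X f ∧ ∀ n p, fmem (nN n) u p ↔ Sub p {ω | f.1 ω n = true}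
  sec : ∀ u ∈ X, ∀ D : MB K, Hu X D → ∀ n, ∀ B : MB K, Hu X B →
    (∃ p ∈ g0, ∃ f : Fr K, Hu X f ∧ NegB u D n B f p) ∨ ∃ p ∈ g0, SecB u D n B p
  seq : ∀ u ∈ X, ∀ D : MB K, Hu X D → (∀ n, ∃ p ∈ g0, ∃ B : MB K, SecB u D n B p) →
    ∃ p ∈ g0, ∃ s : ℕ → MB K, Hu X s ∧ ∀ n, SecB u D n (s n) p

/-- Genericity for relations. -/
structure StJ (Z Z' : Rl → Rl → Prop) (X : Set (Nm K)) (g0 : Set (Cd K)) : Prop where
  tot : ∀ u ∈ X, ∀ D D' : MB K, Hu X D → Hu X D' →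
    (∃ p ∈ g0, ∃ f : Fr K, Hu X f ∧ BadT u D D' f p) ∨ ∃ p ∈ g0, Tot u D D' p
  ran : ∀ u ∈ X, ∀ D D' : MB K, Hu X D → Hu X D' →
    (∃ p ∈ g0, ∃ h : Fr K, Hu X h ∧ BadR u D D' h p) ∨ ∃ p ∈ g0, Ran u D D' p
  eqv : ∀ u ∈ X, ∀ D D' : MB K, Hu X D → Hu X D' →
    (∃ p ∈ g0, ∃ t : (Fr K × Fr K) × (Fr K × Fr K), (Hu X t.1.1 ∧ Hu X t.1.2 ∧ Hu X t.2.1 ∧
      Hu X t.2.2) ∧ BadE u D D' Z Z' t p) ∨ ∃ p ∈ g0, Eqv u D D' Z Z' p
  bor : ∀ u ∈ X, ∀ D D' : MB K, Hu X D → Hu X D' →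
    (∃ p ∈ g0, ∃ B : MB K, Hu X B ∧ BadB u D D' Z B p) ∨ ∃ p ∈ g0, Bor u D D' Z p
  bor' : ∀ u ∈ X, ∀ D D' : MB K, Hu X D → Hu X D' →
    (∃ p ∈ g0, ∃ B' : MB K, Hu X B' ∧ BadB' u D D' Z' B' p) ∨ ∃ p ∈ g0, Bor' u D D' Z' p
  good : ∀ u ∈ X, ∀ D D' B B' : MB K, Hu X D → Hu X D' → Hu X B → Hu X B' →
    (∃ p ∈ g0, ∃ t : Fr K × Fr K, (Hu X t.1 ∧ Hu X t.2) ∧ BadG u D D' B B' t p) ∨
      ∃ p ∈ g0, Good u D D' B B' p

/-- The pair of names `f`, `h` is in the relation `u` of the model. -/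
def Pr (g : Set (Cd K)) (u : Nm K) (f h : Fr K) : Prop := ∃ q ∈ g, fmem (pN f h) u q

/-- In the model `u` induces an isomorphism of `D / Z` and `D' / Z'`. -/
structure HIso (X : Set (Nm K)) (g : Set (Cd K)) (u : Nm K) (D D' : MB K)
    (Z Z' : Rl → Rl → Prop) : Prop where
  tot : ∀ f : Fr K, Hu X f → InG g (at' f D) →
    ∃ h : Fr K, Hu X h ∧ InG g (at' h D') ∧ Pr g u f h
  ran : ∀ h : Fr K, Hu X h → InG g (at' h D') →
    ∃ f : Fr K, Hu X f ∧ InG g (at' f D) ∧ Pr g u f h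
  eqv : ∀ f f' h h' : Fr K, Hu X f → Hu X f' → Hu X h → Hu X h' → InG g (at' f D) →
    InG g (at' f' D) → InG g (at' h D') → InG g (at' h' D') → Pr g u f h → Pr g u f' h' →
    (Z (ev g f) (ev g f') ↔ Z' (ev g h) (ev g h'))
  bor : ∀ B : MB K, Hu X B → InvD D Z B → ∃ B' : MB K, Hu X B' ∧ ∀ f h : Fr K, Hu X f → Hu X h →
    InG g (at' f D) → InG g (at' h D') → Pr g u f h → (InG g (at' f B) ↔ InG g (at' h B'))
  bor' : ∀ B' : MB K, Hu X B' → InvD D' Z' B' → ∃ B : MB K, Hu X B ∧ ∀ f h : Fr K, Hu X f →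
    Hu X h → InG g (at' f D) → InG g (at' h D') → Pr g u f h →
    (InG g (at' f B) ↔ InG g (at' h B'))

end

end Pool.Agent.RFN.GX.DB
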