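import Pool.Agent.DX.Defs
import Pool.Agent.RB57.Defs

set_option autoImplicit false

/-!
# Unital algebras; transport of random isomorphisms

PROOFS.
* `exists_bridge` : for unital `A` a non-unital star homomorphism `π : A → B(H)` which is irreducible in the
  sense of `NIsIrred` (nonzero) is unital: `p = π 1` is idempotent, its range
  `{v | p v = v}` is closed and invariant (`p (π a v) = π (1 * a) v = π a v`), so it is `⊤` (then `p = 1`) or `⊥` (then
  `π a = p (π a) = 0` for all `a`, contradiction with `∃ a, π a ≠ 0`). Conversely a unital star homomorphism is nonzero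
  because `HSp n` is nontrivial (`π 1 = 1`). `StarAlgHom.toNonUnitalStarAlgHom`. So the two sigma types are in bijection,
  componentwise over `n`; the topologies are induced by the same coefficient functions (`coeffN`,
  `ncoeff`), so the bijection is a homeomorphism (`Homeomorph.sigma..` or direct with `isOpen_sigma_iff`) and
  `Homeomorph.toMeasurableEquiv`. `UEquiv` and `NEquiv` are both: a unitary intertwiner exists (`opr π a v = π a v`).
* `riso_congr` : `Φ' f := e' ∘ Φ (e.symm ∘ f)`; `r3`: `D` is pulled back by `id × e`, `D'` pushed forward by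
  `id × e'` (preimage under `id × e'.symm`). `rstd_congr` : `θ' (ω, y) := θ (ω, e.symm y)`. -/

namespace DX

open MBS RB57 MeasureTheory

private theorem map_one_of {A : Type} [CStarAlgebra A] {n : Dim} {π : NRepN A n}
    (h : NIsIrred n π) : π 1 = 1 := by
  let K : Submodule ℂ (HSp n) := LinearMap.ker ((π 1 - 1 : HSp n →L[ℂ] HSp n) : HSp n →ₗ[ℂ] HSp n)
  have hK : ∀ v, v ∈ K ↔ π 1 v = v := by
    intro v
    show (π 1 - 1 : HSp n →L[ℂ] HSp n) v = 0 ↔ _
    rw [sub_apply, sub_eq_zero]
    rfl
  have hc : IsClosed (K : Set (HSp n)) :=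
    (π 1 - 1 : HSp n →L[ℂ] HSp n).isClosed_ker
  have h1 : ∀ (a : A) (v : HSp n), π 1 (π a v) = π a v := by
    intro a v
    have : π (1 * a) = π 1 * π a := map_mul π 1 a
    rw [one_mul] at this
    conv_rhs => rw [this]
    rfl
  rcases h.2 K hc (fun a v _ => (hK _).2 (h1 a v)) with h2 | h2
  · exfalso
    obtain ⟨a, ha⟩ := h.1
    apply ha
    ext1 v
    have h3 : π a v ∈ K := (hK _).2 (h1 a v)
    rw [h2, Submodule.mem_bot] at h3
    rw [h3]; rfl
  · ext1 v
    have h3 : v ∈ K := by rw [h2]; trivial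
    exact (hK v).1 h3

/-- the unital star homomorphism -/
private noncomputable def up {A : Type} [CStarAlgebra A] {n : Dim} (π : NRepN A n) (h : π 1 = 1) : RepN A n where
  toFun := π
  map_one' := h
  map_mul' := map_mul π
  map_zero' := map_zero π
  map_add' := map_add π
  commutes' := fun c => by
    rw [Algebra.algebraMap_eq_smul_one, Algebra.algebraMap_eq_smul_one]
    rw [map_smul, h]
  map_star' := map_star π

private theorem nontriv (n : Dim) : ∃ v : HSp n, v ≠ 0 := by
  refine ⟨δ (G := Idx n) (idx0 n), fun h => ?_⟩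
  have h2 : (δ (G := Idx n) (idx0 n) : L2 (Idx n)) (idx0 n) = 0 := by
    rw [h]; rfl
  simp [δ, lp.single_apply] at h2

/-- the homeomorphism for each dimension -/
private noncomputable def brN (A : Type) [CStarAlgebra A] (n : Dim) : NIrrN A n ≃ₜ IrrN A n where
  toFun π := ⟨up π.1 (map_one_of π.2), fun K hK h => π.2.2 K hK h⟩
  invFun π := ⟨π.1.toNonUnitalStarAlgHom, ⟨⟨1, fun h => by
    obtain ⟨v, hv⟩ := nontriv n
    apply hv
    have h1 : (π.1 1) v = 0 := by
      have : (π.1 1) = 0 := h
      rw [this]; rfl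
    rw [map_one] at h1
    exact h1⟩, fun K hK h => π.2 K hK h⟩⟩
  left_inv π := by
    apply Subtype.ext
    ext1 a
    rfl
  right_inv π := by
    apply Subtype.ext
    ext1 a
    rfl
  continuous_toFun := continuous_induced_rng.2
    (continuous_induced_dom (f := fun π : NIrrN A n => ncoeff n π.1))
  continuous_invFun := continuous_induced_rng.2
    (continuous_induced_dom (f := fun π : IrrN A n => coeffN n π.1))

theorem exists_bridge (A : Type) [CStarAlgebra A] :
    ∃ e : NIrr A ≃ᵐ Irr A, ∀ π π', UEquiv (e π) (e π') ↔ NEquiv π π' := by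
  let f : NIrr A ≃ₜ Irr A :=
    { toFun := fun p => ⟨p.1, brN A p.1 p.2⟩
      invFun := fun p => ⟨p.1, (brN A p.1).symm p.2⟩
      left_inv := fun p => by
        show (⟨p.1, (brN A p.1).symm (brN A p.1 p.2)⟩ : Σ n : Dim, NIrrN A n) = p
        rw [Homeomorph.symm_apply_apply]; rfl
      right_inv := fun p => by
        show (⟨p.1, (brN A p.1) ((brN A p.1).symm p.2)⟩ : Σ n : Dim, IrrN A n) = p
        rw [Homeomorph.apply_symm_apply]; rfl
      continuous_toFun := by
        refine continuous_sigma (σ := fun n : Dim => NIrrN A n) fun n => ?_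
        exact (continuous_sigmaMk (σ := fun n : Dim => IrrN A n)).comp (brN A n).continuous
      continuous_invFun := by
        refine continuous_sigma (σ := fun n : Dim => IrrN A n) fun n => ?_
        exact (continuous_sigmaMk (σ := fun n : Dim => NIrrN A n)).comp (brN A n).symm.continuous }
  exact ⟨f.toMeasurableEquiv, fun π π' => Iff.rfl⟩

variable {K X Y X' Y' : Type} [MeasurableSpace X] [MeasurableSpace Y] [MeasurableSpace X']
  [MeasurableSpace Y']

theorem riso_congr {E : X → X → Prop} {EY : Y → Y → Prop} {E' : X' → X' → Prop}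
    {EY' : Y' → Y' → Prop} (e : X ≃ᵐ Y) (e' : X' ≃ᵐ Y') (hE : ∀ x y, EY (e x) (e y) ↔ E x y)
    (hE' : ∀ x y, EY' (e' x) (e' y) ↔ E' x y) {E0 : Set (Om K)}
    {Φ : (Om K → X) → (Om K → X')} (h : RIso E E' E0 Φ) : ∃ Φ', RIso EY EY' E0 Φ' := by
  have hE1 : ∀ x y, EY x y ↔ E (e.symm x) (e.symm y) := fun x y => by
    rw [← hE]; simp
  have hE1' : ∀ x y, EY' x y ↔ E' (e'.symm x) (e'.symm y) := fun x y => by
    rw [← hE']; simp
  refine ⟨fun f ω => e' (Φ (fun ω => e.symm (f ω)) ω), ?_, ?_, ?_, ?_⟩
  · intro f hf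
    exact e'.measurable.comp (h.meas _ (e.symm.measurable.comp hf))
  · intro f f' hf hf'
    filter_upwards [h.r1 _ _ (e.symm.measurable.comp hf) (e.symm.measurable.comp hf')] with ω hω h0
    rw [hE1, hE']
    exact hω h0
  · intro k hk
    obtain ⟨f, hf, h2⟩ := h.r2 _ (e'.symm.measurable.comp hk)
    refine ⟨fun ω => e (f ω), e.measurable.comp hf, ?_⟩
    filter_upwards [h2] with ω hω h0
    rw [hE1']
    simpa using hω h0
  · intro D hD hinv
    obtain ⟨D', hD', h3⟩ := h.r3 ((fun p : Om K × X => (p.1, e p.2)) ⁻¹' D)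
      ((measurable_fst.prodMk (e.measurable.comp measurable_snd)) hD)
      (fun ω x y hxy => hinv ω _ _ ((hE x y).2 hxy))
    refine ⟨(fun p : Om K × Y' => (p.1, e'.symm p.2)) ⁻¹' D',
      (measurable_fst.prodMk (e'.symm.measurable.comp measurable_snd)) hD', fun f k hf hk => ?_⟩
    filter_upwards [h3 _ _ (e.symm.measurable.comp hf) (e'.symm.measurable.comp hk)] with ω hω h0 h1
    rw [hE1'] at h1
    have h4 := hω h0 (by simpa [Function.comp_def] using h1)
    simpa using h4

theorem rstd_congr {E : X → X → Prop} {EY : Y → Y → Prop} (e : X ≃ᵐ Y)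
    (hE : ∀ x y, EY (e x) (e y) ↔ E x y) {E0 : Set (Om K)} {θ : Om K × X → C}
    (h : RStd E E0 θ) : ∃ θ', RStd EY E0 θ' := by
  have hE1 : ∀ x y, EY x y ↔ E (e.symm x) (e.symm y) := fun x y => by
    rw [← hE]; simp
  refine ⟨fun p => θ (p.1, e.symm p.2),
    h.meas.comp (measurable_fst.prodMk (e.symm.measurable.comp measurable_snd)), ?_⟩
  intro f f' hf hf'
  filter_upwards [h.emb _ _ (e.symm.measurable.comp hf) (e.symm.measurable.comp hf')] with ω hω h0
  rw [hE1]
  exact hω h0

end DX
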