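import Pool.Agent.DX.Defs
import Pool.Agent.DX.PIso
import Pool.Agent.H69M.NMain

set_option autoImplicit false

/-!
# Interface to the C*-algebraic half (H69M, helper69)

The three facts on separable C*-algebras which the assembly uses.
-/

namespace DX

open MBS MeasureTheory TopologicalSpace

/-- The irreducible representations form a standard Borel space. -/
theorem nirr_standard (A : Type) [NonUnitalCStarAlgebra A] [SeparableSpace A] :
    StandardBorelSpace (NIrr A) := H69M.std_NIrr A

/-- Unitary equivalence is Borel. -/
theorem nequiv_meas (A : Type) [NonUnitalCStarAlgebra A] [SeparableSpace A] :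
    MeasurableSet {p : NIrr A × NIrr A | NEquiv p.1 p.2} := H69M.nequiv_meas A

/-- The sigma-closed partial order of partial isomorphisms of two nonstandard spectra. -/
theorem exists_piso (A B : Type) [NonUnitalCStarAlgebra A] [NonUnitalCStarAlgebra B]
    [SeparableSpace A] [SeparableSpace B] (hA : ¬ StandardBorelSpace (NSpec A))
    (hB : ¬ StandardBorelSpace (NSpec B)) :
    Nonempty (PIso (NEquiv (A := A)) (NEquiv (A := B))) :=
  H69M.piso_spec inferInstance inferInstance hA hB

end DX
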