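import Pool.Agent.DX.Defs
import Pool.Agent.MBS.RedE

set_option autoImplicit false

/-!
# DX/Gen : the code of an irreducible representation

For a dense sequence `x` in the C*-algebra `A`:
* `rcode_injective` : the code `rcode x π` determines the irreducible representation `π`;
* `borel_eq_comap` : the Borel sets of `Irr(A)` are the preimages of the Borel sets of the Cantor
  space under `rcode x`.
-/

namespace DX

open MBS
open scoped InnerProductSpace
open MeasureTheory

noncomputable section

variable {A : Type} [NonUnitalCStarAlgebra A]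

theorem nrep_norm_le {n : Dim} (π : NRepN A n) (a : A) : ‖π a‖ ≤ ‖a‖ :=
  NonUnitalStarAlgHom.norm_apply_le π a

/-- every standard basis vector is some `bvec n i` -/
theorem exists_bvec (n : Dim) (g : Idx n) : ∃ i, bvec n i = (δ g : HSp n) := by
  cases n with
  | none => exact ⟨g, rfl⟩
  | some m =>
    have hg : (show Fin (m + 1) from g).1 < m + 1 := (show Fin (m + 1) from g).2
    refine ⟨(show Fin (m + 1) from g).1, ?_⟩
    rw [bvec, dif_pos hg]
    rfl

/-- the matrix coefficients at the sequence `x` and the basis vectors -/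
def gN (x : ℕ → A) (n : Dim) (π : NIrrN A n) : ℕ × ℕ × ℕ → ℂ := fun p =>
  ⟪bvec n p.2.1, π.1 (x p.1) (bvec n p.2.2)⟫_ℂ

/-- uniform approximation -/
theorem cont_of_approx {X : Type} [TopologicalSpace X] {f : X → ℂ}
    (h : ∀ ε > 0, ∃ F : X → ℂ, Continuous F ∧ ∀ y, ‖f y - F y‖ < ε) : Continuous f := by
  apply continuous_of_uniform_approx_of_continuous
  intro u hu
  obtain ⟨ε, hε, hεu⟩ := Metric.mem_uniformity_dist.1 hu
  obtain ⟨F, hF, hfF⟩ := h ε hε
  refine ⟨F, hF, fun y => hεu ?_⟩
  rw [dist_eq_norm]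
  exact hfF y

theorem coef_bound {n : Dim} (π : NRepN A n) (a : A) (v w : HSp n) :
    ‖⟪v, π a w⟫_ℂ‖ ≤ ‖v‖ * (‖a‖ * ‖w‖) := by
  refine (norm_inner_le_norm _ _).trans ?_
  refine mul_le_mul_of_nonneg_left ?_ (norm_nonneg _)
  refine ((π a).le_opNorm w).trans ?_
  exact mul_le_mul_of_nonneg_right (nrep_norm_le π a) (norm_nonneg _)

/-- the topology of pointwise convergence of the coefficients at the sequence and the basis -/
@[instance_reducible] def tau (x : ℕ → A) (n : Dim) : TopologicalSpace (NIrrN A n) :=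
  TopologicalSpace.induced (gN x n) Pi.topologicalSpace

theorem cont_g (x : ℕ → A) (n : Dim) (k i j : ℕ) :
    @Continuous _ _ (tau x n) _ (fun π : NIrrN A n => ⟪bvec n i, π.1 (x k) (bvec n j)⟫_ℂ) := by
  let _ := tau x n
  have h : Continuous (gN x n) := continuous_induced_dom
  exact (continuous_apply (k, i, j)).comp h

theorem cont_g1 {x : ℕ → A} (hx : DenseRange x) (n : Dim) (a : A) (g h : Idx n) :
    @Continuous _ _ (tau x n) _ (fun π : NIrrN A n => ⟪(δ g : HSp n), π.1 a (δ h)⟫_ℂ) := by
  let _ := tau x n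
  obtain ⟨i, hi⟩ := exists_bvec n g
  obtain ⟨j, hj⟩ := exists_bvec n h
  refine cont_of_approx fun ε hε => ?_
  obtain ⟨k, hk⟩ := hx.exists_dist_lt a hε
  refine ⟨_, cont_g x n k i j, fun π => ?_⟩
  rw [hi, hj, ← inner_sub_right, ← sub_apply, ← map_sub]
  refine (coef_bound π.1 _ _ _).trans_lt ?_
  rw [norm_δ, norm_δ, one_mul, mul_one, ← dist_eq_norm]
  exact hk

theorem cont_g2 {x : ℕ → A} (hx : DenseRange x) (n : Dim) (a : A) (g : Idx n) (w : HSp n) :
    @Continuous _ _ (tau x n) _ (fun π : NIrrN A n => ⟪(δ g : HSp n), π.1 a w⟫_ℂ) := by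
  let _ := tau x n
  have h1 : ∀ w ∈ Submodule.span ℂ (Set.range (δ : Idx n → HSp n)),
      Continuous (fun π : NIrrN A n => ⟪(δ g : HSp n), π.1 a w⟫_ℂ) := by
    intro w hw
    induction hw using Submodule.span_induction with
    | mem w hw => obtain ⟨h, rfl⟩ := hw; exact cont_g1 hx n a g h
    | zero => simpa using (continuous_const : Continuous fun _ : NIrrN A n => (0 : ℂ))
    | add v w _ _ hv hw =>
      simp only [map_add, inner_add_right]
      exact hv.add hw
    | smul c w _ hw =>
      simp only [map_smul, inner_smul_right]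
      exact continuous_const.mul hw
  refine cont_of_approx fun ε hε => ?_
  have hpos : (0 : ℝ) < ε / (‖a‖ + 1) := by positivity
  obtain ⟨w', hw', hd⟩ := Metric.mem_closure_iff.1 (span_δ_dense (Idx n) w) _ hpos
  refine ⟨_, h1 w' hw', fun π => ?_⟩
  rw [← inner_sub_right, ← map_sub]
  refine (coef_bound π.1 _ _ _).trans_lt ?_
  rw [norm_δ, one_mul, ← dist_eq_norm]
  calc ‖a‖ * dist w w' ≤ (‖a‖ + 1) * dist w w' :=
        mul_le_mul_of_nonneg_right (by linarith) dist_nonneg
    _ < (‖a‖ + 1) * (ε / (‖a‖ + 1)) := mul_lt_mul_of_pos_left hd (by positivity)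
    _ = ε := by field_simp

theorem cont_g3 {x : ℕ → A} (hx : DenseRange x) (n : Dim) (a : A) (v w : HSp n) :
    @Continuous _ _ (tau x n) _ (fun π : NIrrN A n => ⟪v, π.1 a w⟫_ℂ) := by
  let _ := tau x n
  have h1 : ∀ v ∈ Submodule.span ℂ (Set.range (δ : Idx n → HSp n)),
      Continuous (fun π : NIrrN A n => ⟪v, π.1 a w⟫_ℂ) := by
    intro v hv
    induction hv using Submodule.span_induction with
    | mem v hv => obtain ⟨h, rfl⟩ := hv; exact cont_g2 hx n a h w
    | zero => simpa using (continuous_const : Continuous fun _ : NIrrN A n => (0 : ℂ))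
    | add v v' _ _ hv hv' =>
      simp only [inner_add_left]
      exact hv.add hv'
    | smul c v _ hv =>
      simp only [inner_smul_left]
      exact continuous_const.mul hv
  refine cont_of_approx fun ε hε => ?_
  have hpos : (0 : ℝ) < ε / (‖a‖ * ‖w‖ + 1) := by positivity
  obtain ⟨v', hv', hd⟩ := Metric.mem_closure_iff.1 (span_δ_dense (Idx n) v) _ hpos
  refine ⟨_, h1 v' hv', fun π => ?_⟩
  rw [← inner_sub_left]
  refine (coef_bound π.1 _ _ _).trans_lt ?_
  rw [← dist_eq_norm]
  calc dist v v' * (‖a‖ * ‖w‖) ≤ dist v v' * (‖a‖ * ‖w‖ + 1) :=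
        mul_le_mul_of_nonneg_left (by linarith) dist_nonneg
    _ < (ε / (‖a‖ * ‖w‖ + 1)) * (‖a‖ * ‖w‖ + 1) := mul_lt_mul_of_pos_right hd (by positivity)
    _ = ε := by field_simp

/-- the topology of pointwise weak operator convergence is given by countably many
coefficients -/
theorem top_eq_tau {x : ℕ → A} (hx : DenseRange x) (n : Dim) :
    (inferInstance : TopologicalSpace (NIrrN A n)) = tau x n := by
  refine le_antisymm ?_ ?_
  · refine continuous_iff_le_induced.1 (continuous_pi fun p => ?_)
    have h : Continuous (fun π : NIrrN A n => ncoeff n π.1) := continuous_induced_dom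
    exact (continuous_apply (x p.1, bvec n p.2.1, bvec n p.2.2)).comp h
  · refine continuous_iff_le_induced.1 ?_
    let _ := tau x n
    exact continuous_pi fun p => cont_g3 hx n p.1 p.2.1 p.2.2

/-! ### The Borel structure -/

/-- `⟨n, π⟩` -/
def mkN (n : Dim) (π : NIrrN A n) : NIrr A := ⟨n, π⟩

theorem isOpen_nirr_iff (U : Set (NIrr A)) : IsOpen U ↔ ∀ n, IsOpen (mkN n ⁻¹' U) :=
  isOpen_sigma_iff

theorem rcode_encode (x : ℕ → A) (π : NIrr A) (b : Bit) :
    rcode x π (Encodable.encode b) = rbit x π b := by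
  rw [rcode, Encodable.encodek]

/-- all coefficients of a representation of any dimension -/
def gAll (x : ℕ → A) (π : NIrr A) : ℕ × ℕ × ℕ → ℂ := gN x π.1 π.2

theorem measurable_rcode (x : ℕ → A) : Measurable (rcode x) := by
  refine measurable_pi_lambda _ fun m => ?_
  cases hm : (Encodable.decode m : Option Bit) with
  | none =>
    have h : (fun π : NIrr A => rcode x π m) = fun _ => false := by
      funext π
      rw [rcode, hm]
    rw [h]
    exact measurable_const
  | some b =>
    have h : (fun π : NIrr A => rcode x π m) = fun π => rbit x π b := by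
      funext π
      rw [rcode, hm]
    rw [h]
    refine measurable_to_bool ?_
    refine IsOpen.measurableSet ?_
    rcases b with d | ⟨k, i, j, b, q⟩
    · have h2 : (fun π : NIrr A => rbit x π (Sum.inl d)) ⁻¹' {true} =
          {π : NIrr A | π.1 = d} := by
        ext π
        simp [rbit]
      rw [h2, isOpen_nirr_iff]
      intro n
      by_cases hn : n = d
      · have h3 : (mkN n ⁻¹' {π : NIrr A | π.1 = d} : Set (NIrrN A n)) = Set.univ := by
          ext π
          simp [hn, mkN]
        rw [h3]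
        exact isOpen_univ
      · have h3 : (mkN n ⁻¹' {π : NIrr A | π.1 = d} : Set (NIrrN A n)) = ∅ := by
          ext π
          simp [hn, mkN]
        rw [h3]
        exact isOpen_empty
    · have h2 : (fun π : NIrr A => rbit x π (Sum.inr (k, i, j, b, q))) ⁻¹' {true} =
          {π : NIrr A | part b (gAll x π (k, i, j)) < (q : ℝ)} := by
        ext π
        simp [rbit, gAll, gN]
      rw [h2, isOpen_nirr_iff]
      intro n
      have h3 : Continuous (fun π : NIrrN A n => part b (gN x n π (k, i, j))) := by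
        have h4 : Continuous (fun π : NIrrN A n => ncoeff n π.1) := continuous_induced_dom
        have h5 := (continuous_apply (x k, bvec n i, bvec n j)).comp h4
        cases b
        · exact Complex.continuous_im.comp h5
        · exact Complex.continuous_re.comp h5
      exact isOpen_Iio.preimage h3

theorem dim_meas (x : ℕ → A) (d : Dim) :
    MeasurableSet[MeasurableSpace.comap (rcode x) inferInstance] {π : NIrr A | π.1 = d} := by
  refine ⟨(fun ρ : ℕ → Bool => ρ (Encodable.encode (Sum.inl d : Bit))) ⁻¹' {true},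
    measurable_pi_apply _ (measurableSet_singleton true), ?_⟩
  ext π
  simp only [Set.mem_preimage, Set.mem_ofPred_eq, Set.mem_singleton_iff]
  rw [rcode_encode]
  simp [rbit]

theorem gAll_meas (x : ℕ → A) :
    Measurable[MeasurableSpace.comap (rcode x) inferInstance] (gAll x) := by
  let _ : MeasurableSpace (NIrr A) := MeasurableSpace.comap (rcode x) inferInstance
  refine measurable_pi_lambda _ fun p => ?_
  have key : ∀ b, Measurable (fun π : NIrr A => part b (gAll x π p)) := by
    intro b
    have h1 : (borel ℝ) = MeasurableSpace.generateFrom (⋃ a : ℚ, {Set.Iio (a : ℝ)}) :=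
      Real.borel_eq_generateFrom_Iio_rat
    have h2 : (inferInstance : MeasurableSpace ℝ) =
        MeasurableSpace.generateFrom (⋃ a : ℚ, {Set.Iio (a : ℝ)}) := by
      rw [← h1]
      exact BorelSpace.measurable_eq
    rw [show (Real.measurableSpace) = MeasurableSpace.generateFrom
      (⋃ a : ℚ, {Set.Iio (a : ℝ)}) from h2]
    refine measurable_generateFrom fun t ht => ?_
    obtain ⟨q, hq⟩ := Set.mem_iUnion.1 ht
    rw [Set.mem_singleton_iff.1 hq]
    refine ⟨(fun ρ : ℕ → Bool => ρ (Encodable.encode
      (Sum.inr (p.1, p.2.1, p.2.2, b, q) : Bit))) ⁻¹' {true},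
      measurable_pi_apply _ (measurableSet_singleton true), ?_⟩
    ext π
    simp only [Set.mem_preimage, Set.mem_singleton_iff, Set.mem_Iio]
    rw [rcode_encode]
    simp [rbit, gAll, gN]
  exact measurable_of_re_im (𝕜 := ℂ) (key true) (key false)

/-- The Borel sets of `Irr(A)` are the preimages of Borel sets of the Cantor space under the
code map. -/
theorem borel_eq_comap {x : ℕ → A} (hx : DenseRange x) :
    (inferInstance : MeasurableSpace (NIrr A)) =
      MeasurableSpace.comap (rcode x) inferInstance := by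
  refine le_antisymm ?_ (measurable_rcode x).comap_le
  change borel (NIrr A) ≤ _
  refine MeasurableSpace.generateFrom_le fun U hU => ?_
  have hU' : IsOpen U := hU
  rw [isOpen_nirr_iff] at hU'
  have h1 : ∀ n : Dim, ∃ V : Set (ℕ × ℕ × ℕ → ℂ), IsOpen V ∧
      gN x n ⁻¹' V = (mkN n ⁻¹' U : Set (NIrrN A n)) := by
    intro n
    have h2 : @IsOpen _ (tau x n) (mkN n ⁻¹' U) := by
      rw [← top_eq_tau hx n]
      exact hU' n
    exact isOpen_induced_iff.1 h2
  choose V hV hVU using h1
  have h3 : U = ⋃ n : Dim, {π : NIrr A | π.1 = n} ∩ gAll x ⁻¹' (V n) := by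
    ext π
    obtain ⟨n, π⟩ := π
    simp only [Set.mem_iUnion, Set.mem_inter_iff, Set.mem_ofPred_eq, Set.mem_preimage]
    constructor
    · intro h
      refine ⟨n, rfl, ?_⟩
      have h4 : π ∈ gN x n ⁻¹' V n := by rw [hVU]; exact h
      exact h4
    · rintro ⟨m, rfl, h⟩
      have h4 : π ∈ gN x n ⁻¹' V n := h
      rw [hVU] at h4
      exact h4
  rw [h3]
  let _ : MeasurableSpace (NIrr A) := MeasurableSpace.comap (rcode x) inferInstance
  refine MeasurableSet.iUnion fun n => ?_
  exact (dim_meas x n).inter (gAll_meas x (hV n).measurableSet)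

/-! ### The code is injective -/

theorem nrep_cont {n : Dim} (π : NRepN A n) : Continuous (fun a => π a) := by
  refine (LipschitzWith.of_dist_le_mul (K := 1) fun a b => ?_).continuous
  rw [dist_eq_norm, dist_eq_norm, ← map_sub, NNReal.coe_one, one_mul]
  exact nrep_norm_le π _

theorem rcode_injective {x : ℕ → A} (hx : DenseRange x) : Function.Injective (rcode x) := by
  intro π σ h
  have hb : ∀ b : Bit, rbit x π b = rbit x σ b := fun b => by
    rw [← rcode_encode, ← rcode_encode, h]
  obtain ⟨n, π, hπ⟩ := π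
  obtain ⟨m, σ, hσ⟩ := σ
  have hn : m = n := by
    have h1 := hb (Sum.inl n)
    simpa [rbit] using h1
  subst hn
  have hp : ∀ (b : Bool) (k i j : ℕ), part b ⟪bvec m i, π (x k) (bvec m j)⟫_ℂ =
      part b ⟪bvec m i, σ (x k) (bvec m j)⟫_ℂ := by
    intro b k i j
    have h1 : ∀ q : ℚ, part b ⟪bvec m i, π (x k) (bvec m j)⟫_ℂ < (q : ℝ) ↔
        part b ⟪bvec m i, σ (x k) (bvec m j)⟫_ℂ < (q : ℝ) := by
      intro q
      have h2 := hb (Sum.inr (k, i, j, b, q))
      simpa [rbit] using h2
    refine le_antisymm ?_ ?_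
    · refine le_of_forall_gt fun r hr => ?_
      obtain ⟨q, hq1, hq2⟩ := exists_rat_btwn hr
      exact ((h1 q).2 hq1).trans hq2
    · refine le_of_forall_gt fun r hr => ?_
      obtain ⟨q, hq1, hq2⟩ := exists_rat_btwn hr
      exact ((h1 q).1 hq1).trans hq2
  have hc : ∀ (k i j : ℕ), ⟪bvec m i, π (x k) (bvec m j)⟫_ℂ =
      ⟪bvec m i, σ (x k) (bvec m j)⟫_ℂ := fun k i j =>
    Complex.ext (hp true k i j) (hp false k i j)
  have hk : ∀ k, π (x k) = σ (x k) := by
    intro k
    refine clm_ext_δ fun g => ?_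
    obtain ⟨j, hj⟩ := exists_bvec m g
    ext f
    obtain ⟨i, hi⟩ := exists_bvec m f
    have h1 := hc k i j
    rw [hi, hj, inner_δ, inner_δ] at h1
    exact h1
  have hπσ : π = σ := by
    refine NonUnitalStarAlgHom.ext fun a => ?_
    have h1 : (fun a => π a) = fun a => σ a :=
      hx.equalizer (nrep_cont π) (nrep_cont σ) (funext hk)
    exact congrFun h1 a
  subst hπσ
  rfl

end

end DX
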