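import Pool.Agent.DX.Defs
import Pool.Agent.ZFIter.End

set_option autoImplicit false

/-!
# The relation `IsoM` is symmetric

PROOF. Let `z ∈ M` describe `F`. In the model `M` of ZF (as a `ZFM` structure, library `H78/ZF`) let
`u = sUn (sUn z)` (it contains the components of all ordered pairs in `z`) and
`z' = {p ∈ prod u u | ∃ a b, p = opair b a ∧ opair a b ∈ z}` (`sep`, `mem_sep` with the definability classes, or
`H78.ZF` separation; `mem_prod`). Then `z' ∈ M` and `opair b a ∈ z' ↔ opair a b ∈ z`; `Emb.opair_mem` for the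
inclusion of `M` (as `emb_val` in GEX/Base) translates this to `ZFSet.pair`. The other clauses of
`IsoM` are exchanged. -/

namespace DX

open Pool.Agent.H78.ZF (ZFM IsZFModel)

variable {M : Set ZFSet.{0}}

theorem exists_inv (hM : IsZFModel fun x y : M => x.1 ∈ y.1) (htr : ∀ x ∈ M, ∀ y ∈ x, y ∈ M)
    {z : ZFSet.{0}} (hz : z ∈ M) :
    ∃ z' ∈ M, ∀ a ∈ M, ∀ b ∈ M, (b.pair a ∈ z' ↔ a.pair b ∈ z) := by
  letI inst : ZFM M := ⟨fun x y => x.1 ∈ y.1, hM⟩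
  have hE : Pool.Agent.ZFIter.Emb (M := M) (fun x => x.1) :=
    ⟨Subtype.val_injective, fun x w hw => ⟨⟨w, htr x.1 x.2 w hw⟩, rfl⟩, fun _ _ => Iff.rfl⟩
  obtain ⟨zz, hzz⟩ : ∃ zz : M, zz = ⟨z, hz⟩ := ⟨_, rfl⟩
  have key : ∃ z' : M, ∀ a b : M, (Pool.Agent.H78.ZF.opair b a ∈ z' ↔
      Pool.Agent.H78.ZF.opair a b ∈ zz) := by
    refine ⟨Pool.Agent.H78.ZF.sep (Pool.Agent.H78.ZF.prod
      (Pool.Agent.H78.ZF.sUn (Pool.Agent.H78.ZF.sUn zz))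
      (Pool.Agent.H78.ZF.sUn (Pool.Agent.H78.ZF.sUn zz)))
      (fun p => ∃ a b, p = Pool.Agent.H78.ZF.opair b a ∧ Pool.Agent.H78.ZF.opair a b ∈ zz),
      fun a b => ?_⟩
    rw [Pool.Agent.H78.ZF.mem_sep, Pool.Agent.H78.ZF.opair_mem_prod]
    constructor
    · rintro ⟨-, a', b', h1, h2⟩
      obtain ⟨rfl, rfl⟩ := Pool.Agent.H78.ZF.opair_inj h1
      exact h2
    · intro h
      have h1 : Pool.Agent.H78.ZF.upair a b ∈ Pool.Agent.H78.ZF.sUn zz := by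
        rw [Pool.Agent.H78.ZF.mem_sUn]
        refine ⟨_, h, ?_⟩
        unfold Pool.Agent.H78.ZF.opair
        rw [Pool.Agent.H78.ZF.mem_upair]
        exact Or.inr rfl
      refine ⟨⟨?_, ?_⟩, a, b, rfl, h⟩
      · rw [Pool.Agent.H78.ZF.mem_sUn]
        refine ⟨_, h1, ?_⟩
        rw [Pool.Agent.H78.ZF.mem_upair]
        exact Or.inr rfl
      · rw [Pool.Agent.H78.ZF.mem_sUn]
        refine ⟨_, h1, ?_⟩
        rw [Pool.Agent.H78.ZF.mem_upair]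
        exact Or.inl rfl
  obtain ⟨z', hz'⟩ := key
  refine ⟨z'.1, z'.2, fun a ha b hb => ?_⟩
  have h1 := hE.opair_mem ⟨b, hb⟩ ⟨a, ha⟩ z'
  have h2 := hE.opair_mem ⟨a, ha⟩ ⟨b, hb⟩ zz
  have h3 : zz.1 = z := by rw [hzz]
  rw [h3] at h2
  exact h1.symm.trans ((hz' ⟨a, ha⟩ ⟨b, hb⟩).trans h2)

theorem isoM_symm (hM : IsZFModel fun x y : M => x.1 ∈ y.1) (htr : ∀ x ∈ M, ∀ y ∈ x, y ∈ M)
    {X X' : Type} {c : X → ℕ → Bool} {E : X → X → Prop} {c' : X' → ℕ → Bool}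
    {E' : X' → X' → Prop} (h : IsoM M c E c' E') : IsoM M c' E' c E := by
  obtain ⟨F, ⟨z, hz, hF⟩, h1, h2, h3, h4, h5⟩ := h
  obtain ⟨z', hz', hzz⟩ := exists_inv hM htr hz
  refine ⟨fun x' x => F x x', ⟨z', hz', ?_⟩, h2, h1, ?_, ?_, ?_⟩
  · intro x' hx' x hx
    rw [hzz _ hx _ hx']
    exact hF x hx x' hx'
  · intro x' hx' y' hy' x hx y hy hxx hyy
    exact (h3 x hx y hy x' hx' y' hy' hxx hyy).symm
  · intro D' hD' hi
    obtain ⟨D, hD, hDi, hDD⟩ := h5 D' hD' hi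
    exact ⟨D, hD, hDi, fun x' hx' x hx hF => (hDD x hx x' hx' hF).symm⟩
  · intro D hD hi
    obtain ⟨D', hD', hDi, hDD⟩ := h4 D hD hi
    exact ⟨D', hD', hDi, fun x' hx' x hx hF => (hDD x hx x' hx' hF).symm⟩

end DX
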