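import Pool.Agent.DX.AlgQS
import Pool.Agent.DX.AFin
import Pool.Agent.DX.BFin
import Pool.Agent.DX.Bridge
import Pool.Agent.DX.CInt
import Pool.Agent.DX.Symm
import Pool.Agent.RB57.Inst
import Pool.Agent.RB57.Std

set_option autoImplicit false

/-! # Assembly -/

namespace DX

open MBS RB57 MeasureTheory TopologicalSpace Cardinal
open Pool.Agent.H78.ZF (ZFM IsZFModel)
open Pool.Agent.RFN (Choice)

theorem separable_of {A : Type} [TopologicalSpace A] {x : ℕ → A} (hx : DenseRange x) :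
    SeparableSpace A :=
  ⟨⟨Set.range x, Set.countable_range x, hx⟩⟩

theorem standard_of_equiv {X Y : Type} [MeasurableSpace X] [MeasurableSpace Y]
    [StandardBorelSpace X] (e : Y ≃ᵐ X) : StandardBorelSpace Y := by
  obtain ⟨τ, hb, hp⟩ := (inferInstance : StandardBorelSpace X).polish
  letI : TopologicalSpace Y := TopologicalSpace.induced e τ
  have h1 : Topology.IsClosedEmbedding e :=
    ⟨⟨⟨rfl⟩, e.injective⟩, by rw [e.surjective.range_eq]; exact isClosed_univ⟩
  have h2 : PolishSpace Y := h1.polishSpace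
  have h3 : BorelSpace Y := ⟨by
    refine e.measurableEmbedding.comap_eq.symm.trans ?_
    refine Eq.trans ?_ borel_comap.symm
    exact congrArg (MeasurableSpace.comap e) hb.measurable_eq⟩
  infer_instance

theorem standard_of_isEmpty {X : Type} [MeasurableSpace X] [IsEmpty X] : StandardBorelSpace X := by
  have : DiscreteMeasurableSpace X := ⟨fun s => by
    rw [Set.eq_empty_of_isEmpty s]
    exact MeasurableSet.empty⟩
  infer_instance

theorem nonempty_irr {A : Type} [CStarAlgebra A] (h : ¬ StandardBorelSpace (Spec A)) :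
    Nonempty (Irr A) := by
  by_contra hne
  rw [not_nonempty_iff] at hne
  apply h
  have : IsEmpty (Spec A) := ⟨fun q => Quotient.inductionOn q fun π => hne.elim π⟩
  exact standard_of_isEmpty

theorem uequiv_meas {A : Type} [CStarAlgebra A] (e : NIrr A ≃ᵐ Irr A)
    (he : ∀ π π', UEquiv (e π) (e π') ↔ NEquiv π π')
    (h : MeasurableSet {p : NIrr A × NIrr A | NEquiv p.1 p.2}) :
    MeasurableSet {p : Irr A × Irr A | UEquiv p.1 p.2} := by
  have h1 : {p : Irr A × Irr A | UEquiv p.1 p.2} =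
      (Prod.map e.symm e.symm) ⁻¹' {p : NIrr A × NIrr A | NEquiv p.1 p.2} := by
    ext p
    simp only [Set.mem_setOf_eq, Set.mem_preimage, Prod.map_fst, Prod.map_snd]
    rw [← he, e.apply_symm_apply, e.apply_symm_apply]
  rw [h1]
  exact (e.symm.measurable.prodMap e.symm.measurable) h

/-- The first model. -/
theorem exists_model1 :
    ∃ (M : Set ZFSet.{0}) (h : IsZFModel fun x y : M => x.1 ∈ y.1),
      M.Countable ∧ (∀ x ∈ M, ∀ y ∈ x, y ∈ M) ∧ (letI : ZFM M := ⟨_, h⟩; Choice M) ∧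
      ∀ (A B : Type) [NonUnitalCStarAlgebra A] [NonUnitalCStarAlgebra B] (x : ℕ → A) (y : ℕ → B),
        DenseRange x → DenseRange y → rZ (acode x) ∈ M → rZ (acode y) ∈ M →
        ¬ SpecStdM M x → ¬ SpecStdM M y → SpecIsoM M x y := by
  obtain ⟨M, h, h1, h2, h3, h4, h5⟩ := Pool.Agent.RFN.GX.DA.exists_modelA algQS
  refine ⟨M, h, h1, h2, h3, ?_⟩
  intro A B _ _ x y hx hy hxM hyM nx ny
  have sA := separable_of hx
  have sB := separable_of hy
  have bA := nirr_standard A
  have bB := nirr_standard B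
  have key : ∀ (A : Type) [NonUnitalCStarAlgebra A] (x : ℕ → A), DenseRange x →
      rZ (acode x) ∈ M → ¬ SpecStdM M x → ¬ StandardBorelSpace (NSpec A) := by
    intro A _ x hx hxM nx hs
    have sA := separable_of hx
    have bA := nirr_standard A
    apply nx
    apply specStd_of hx
    have h6 := h5 (acode x) hxM
    rw [algQS_acode hx] at h6
    exact h6 (ofAlg_meas hx) (exists_cls hx)
  have h6 := h4 (acode x) (acode y) hxM hyM
  rw [algQS_acode hx, algQS_acode hy] at h6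
  exact specIso_of hx hy (h6 (hasPI hx hy (exists_piso A B (key A x hx hxM nx)
    (key B y hy hyM ny))))

theorem exists_dense (A : Type) [NonUnitalCStarAlgebra A] [SeparableSpace A] :
    ∃ x : ℕ → A, DenseRange x := exists_dense_seq A

/-- A type of size `ℵ₂`. -/
abbrev K2 : Type := (ℵ_ 2 : Cardinal.{0}).out

theorem mk_K2 : ℵ_ 2 ≤ Cardinal.mk K2 := (Cardinal.mk_out _).ge

instance : Uncountable K2 := by
  rw [← Cardinal.aleph0_lt_mk_iff, Cardinal.mk_out]
  exact Cardinal.aleph0_lt_aleph.2 (by norm_num)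

/-- The second model. -/
theorem exists_model2 :
    ∃ (M : Set ZFSet.{0}) (h : IsZFModel fun x y : M => x.1 ∈ y.1),
      M.Countable ∧ (∀ x ∈ M, ∀ y ∈ x, y ∈ M) ∧ (letI : ZFM M := ⟨_, h⟩; Choice M) ∧
      ∃ (A B : Type) (_ : CStarAlgebra A) (_ : CStarAlgebra B) (x : ℕ → A) (y : ℕ → B),
        IsSimpleRing A ∧ IsSimpleRing B ∧ IsCAR A ∧ DenseRange x ∧ DenseRange y ∧
        rZ (acode x) ∈ M ∧ rZ (acode y) ∈ M ∧ ¬ SpecStdM M x ∧ ¬ SpecStdM M y ∧
        ¬ SpecIsoM M x y ∧ ¬ SpecIsoM M y x := by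
  have sA : SeparableSpace AAlg := red_separable
  have sB : SeparableSpace BAlg := red_separable
  obtain ⟨x, hx⟩ := exists_dense AAlg
  obtain ⟨y, hy⟩ := exists_dense BAlg
  have bA := nirr_standard AAlg
  have bB := nirr_standard BAlg
  have mA := nequiv_meas AAlg
  have mB := nequiv_meas BAlg
  obtain ⟨eA, hA⟩ := exists_bridge AAlg
  obtain ⟨eB, hB⟩ := exists_bridge BAlg
  have sbA : StandardBorelSpace (Irr AAlg) := standard_of_equiv eA.symm
  have sbB : StandardBorelSpace (Irr BAlg) := standard_of_equiv eB.symm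
  have umA := uequiv_meas eA hA mA
  have umB := uequiv_meas eB hB mB
  obtain ⟨πA⟩ := nonempty_irr (nonstd_red (I := ℕ) (H := Triv) freeA)
  obtain ⟨πB⟩ := nonempty_irr (nonstd_red (I := F2) (H := F2) freeB)
  obtain ⟨M, h, h1, h2, h3, h4, h5, h6, h7, h8⟩ :=
    Pool.Agent.RFN.GX.DB.exists_modelB K2 (ofAlg y) (ofAlg x) (ofAlg_meas hy) (ofAlg_meas hx)
      ⟨_, eB.symm πB, rfl⟩ ⟨_, eA.symm πA, rfl⟩
      (by rintro _ ⟨π, rfl⟩; exact ⟨π, π, rfl, rfl, NEquiv.refl π⟩)
      (graph_meas hy mB) (graph_meas hx mA) (acode x) (acode y)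
  have niso : ¬ SpecIsoM M y x := by
    intro hI
    obtain ⟨E0, Φ, hE0, h0, hΦ⟩ := h6 (specIso_to hy hx hI)
    obtain ⟨Φ', hΦ'⟩ := riso_congr (EY := UEquiv (A := BAlg)) (EY' := UEquiv (A := AAlg))
      ((mAlg y hy).symm.trans eB) ((mAlg x hx).symm.trans eA)
      (fun s t => by
        show UEquiv (eB ((mAlg y hy).symm s)) (eB ((mAlg y hy).symm t)) ↔ _
        rw [hB, ← mAlg_rel y hy, (mAlg y hy).apply_symm_apply, (mAlg y hy).apply_symm_apply])
      (fun s t => by
        show UEquiv (eA ((mAlg x hx).symm s)) (eA ((mAlg x hx).symm t)) ↔ _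
        rw [hA, ← mAlg_rel x hx, (mAlg x hx).apply_symm_apply, (mAlg x hx).apply_symm_apply]) hΦ
    exact no_riso_of sbA sbB umA umB mk_K2 hE0 h0 Φ' hΦ'
  refine ⟨M, h, h1, h2, h3, AAlg, BAlg, inferInstance, inferInstance, x, y,
    red_simple (minimal ℕ Triv) (dense_free ℕ Triv freeA),
    red_simple (minimal F2 F2) (dense_free F2 F2 freeB), isCAR_red, hx, hy, h4, h5, ?_, ?_,
    fun hI => niso (isoM_symm h h2 hI), niso⟩
  · intro hS
    obtain ⟨E0, θ, hE0, h0, hθ⟩ := h8 (specStd_to hx hS)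
    obtain ⟨θ', hθ'⟩ := rstd_congr (EY := UEquiv (A := AAlg)) ((mAlg x hx).symm.trans eA)
      (fun s t => by
        show UEquiv (eA ((mAlg x hx).symm s)) (eA ((mAlg x hx).symm t)) ↔ _
        rw [hA, ← mAlg_rel x hx, (mAlg x hx).apply_symm_apply, (mAlg x hx).apply_symm_apply]) hθ
    exact no_rstd_of freeA umA hE0 h0 θ' hθ'
  · intro hS
    obtain ⟨E0, θ, hE0, h0, hθ⟩ := h7 (specStd_to hy hS)
    obtain ⟨θ', hθ'⟩ := rstd_congr (EY := UEquiv (A := BAlg)) ((mAlg y hy).symm.trans eB)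
      (fun s t => by
        show UEquiv (eB ((mAlg y hy).symm s)) (eB ((mAlg y hy).symm t)) ↔ _
        rw [hB, ← mAlg_rel y hy, (mAlg y hy).apply_symm_apply, (mAlg y hy).apply_symm_apply]) hθ
    exact no_rstd_of freeB umB hE0 h0 θ' hθ'

end DX
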