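import Pool.Agent.DX.Congr
import Pool.Agent.DX.Hull

set_option autoImplicit false

/-!
# The first forcing notion: countable families of partial isomorphisms

For all pairs `j = (Q, Q')` of quotient spaces with a sigma-closed partial order of partial
isomorphisms a fixed one, `PI j`, is chosen. The conditions are the countable families of conditions.

PROOFS.
* `closed` : for every `j` let `n0` be the least `n` with `(f n).f j ≠ none` (if there is one);
  `(f n).f j = some (c n)` for `n ≥ n0` and `c (n + 1) ≤ c n`; `(PI j).closed` for `m ↦ c (n0 + m)` gives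
  a lower bound `d j`; put `d.f j = some (d j)`, `none` if there is no such `n`. The support is the
  union of the supports.
* `upd` : `Function.update p.f j (some d)` (`open Classical`), the support is
  `⊆ insert j (support p)`.
* `exists_some` : if `p.f j = none` take `d = (PI j).c0` in `upd`; else `p` itself.
-/

namespace Pool.Agent.RFN.GX.DA

open DX

/-- The pairs of quotient spaces. -/
abbrev J : Type := {j : QS × QS // QS.HasPI j.1 j.2}

/-- The partial order for the pair `j`. -/
noncomputable def PI (j : J) : PIso (QS.rel j.1.1) (QS.rel j.1.2) := j.2.2.2.some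

/-- The conditions. -/
structure Cn : Type where
  f : (j : J) → Option (PI j).C
  ctb : {j | f j ≠ none}.Countable

noncomputable instance : Preorder Cn where
  le q p := ∀ j c, p.f j = some c → ∃ d, q.f j = some d ∧ (PI j).le d c
  le_refl p j c h := ⟨c, h, (PI j).refl c⟩
  le_trans r q p h1 h2 := by
    intro j c hc
    obtain ⟨d, hd, hdc⟩ := h2 j c hc
    obtain ⟨e, he, hed⟩ := h1 j d hd
    exact ⟨e, he, (PI j).trans e d c hed hdc⟩

theorem le_def {q p : Cn} : q ≤ p ↔ ∀ j c, p.f j = some c → ∃ d, q.f j = some d ∧ (PI j).le d c :=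
  Iff.rfl

noncomputable instance : OrderTop Cn where
  top := ⟨fun _ => none, by simp⟩
  le_top p := by
    intro j c h
    exact absurd h (by simp)

/-- One coordinate of a descending sequence has a lower bound. -/
theorem closed_at (f : ℕ → Cn) (hf : ∀ n, f (n + 1) ≤ f n) (j : J) (h : ∃ n, (f n).f j ≠ none) :
    ∃ d : (PI j).C, ∀ n c, (f n).f j = some c → (PI j).le d c := by
  obtain ⟨n0, hn0⟩ := h
  have h1 : ∀ m, ∃ c, (f (n0 + m)).f j = some c := by
    intro m
    induction m with
    | zero => exact Option.ne_none_iff_exists'.1 hn0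
    | succ m ih =>
      obtain ⟨c, hc⟩ := ih
      obtain ⟨d, hd, _⟩ := le_def.1 (hf (n0 + m)) j c hc
      exact ⟨d, hd⟩
  choose c hc using h1
  have h2 : ∀ m, (PI j).le (c (m + 1)) (c m) := by
    intro m
    obtain ⟨d, hd, hdc⟩ := le_def.1 (hf (n0 + m)) j (c m) (hc m)
    have h3 : some d = some (c (m + 1)) := hd.symm.trans (hc (m + 1))
    rw [← Option.some.inj h3]
    exact hdc
  obtain ⟨d, hd⟩ := (PI j).closed c h2
  have h4 : ∀ n m, f (n + m) ≤ f n := by
    intro n m
    induction m with
    | zero => exact le_refl _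
    | succ m ih => exact (hf (n + m)).trans ih
  refine ⟨d, fun n b hb => ?_⟩
  obtain ⟨e, he, hle⟩ := le_def.1 (h4 n n0) j b hb
  have h5 : some e = some (c n) := by
    rw [← he, ← hc n, Nat.add_comm]
  have h6 : e = c n := Option.some.inj h5
  subst h6
  exact (PI j).trans _ _ _ (hd n) hle

theorem closed (f : ℕ → Cn) (hf : ∀ n, f (n + 1) ≤ f n) : ∃ d : Cn, ∀ n, d ≤ f n := by
  classical
  refine ⟨⟨fun j => if h : ∃ n, (f n).f j ≠ none then some (closed_at f hf j h).choose else none,
    ?_⟩, fun n => ?_⟩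
  · refine (Set.countable_iUnion fun n => (f n).ctb).mono ?_
    intro j hj
    by_cases h : ∃ n, (f n).f j ≠ none
    · obtain ⟨n, hn⟩ := h
      exact Set.mem_iUnion.2 ⟨n, hn⟩
    · exact absurd (dif_neg h) hj
  · intro j c hc
    have h : ∃ n, (f n).f j ≠ none := ⟨n, by rw [hc]; exact Option.some_ne_none c⟩
    exact ⟨_, dif_pos h, (closed_at f hf j h).choose_spec n c hc⟩

theorem upd (p : Cn) (j : J) (d : (PI j).C) (h : ∀ c, p.f j = some c → (PI j).le d c) :
    ∃ q ≤ p, q.f j = some d := by
  classical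
  refine ⟨⟨Function.update p.f j (some d), ?_⟩, ?_, Function.update_self j (some d) p.f⟩
  · refine (p.ctb.insert j).mono ?_
    intro i hi
    by_cases hij : i = j
    · exact Or.inl hij
    · right
      have h1 : Function.update p.f j (some d) i ≠ none := hi
      rwa [Function.update_of_ne hij] at h1
  · intro i c hc
    by_cases hij : i = j
    · subst hij
      exact ⟨d, Function.update_self i (some d) p.f, h c hc⟩
    · refine ⟨c, ?_, (PI i).refl c⟩
      show Function.update p.f j (some d) i = some c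
      rw [Function.update_of_ne hij]
      exact hc

theorem exists_some (p : Cn) (j : J) : ∃ q ≤ p, ∃ c, q.f j = some c := by
  by_cases h : p.f j = none
  · obtain ⟨q, hq, hj⟩ := upd p j (PI j).c0 (by intro c hc; rw [h] at hc; simp at hc)
    exact ⟨q, hq, _, hj⟩
  · exact ⟨p, le_refl p, Option.ne_none_iff_exists'.1 h⟩

/-- Sequences of requirements can be met by one condition. -/
theorem fusion {T : Type} (W : ℕ → T → Cn → Prop) (hm : ∀ n t p q, q ≤ p → W n t p → W n t q)
    (p : Cn) (h : ∀ n, ∀ r ≤ p, ∃ q ≤ r, ∃ t, W n t q) :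
    ∃ q ≤ p, ∃ s : ℕ → T, ∀ n, W n (s n) q := by
  classical
  have step : ∀ n (r : {r : Cn // r ≤ p}), ∃ q : {r : Cn // r ≤ p}, q.1 ≤ r.1 ∧ ∃ t, W n t q.1 := by
    intro n r
    obtain ⟨q, hq, t, ht⟩ := h n r.1 r.2
    exact ⟨⟨q, hq.trans r.2⟩, hq, t, ht⟩
  choose F hF hW using step
  let g : ℕ → {r : Cn // r ≤ p} := fun n => Nat.rec ⟨p, le_refl p⟩ (fun n r => F n r) n
  have hg : ∀ n, g (n + 1) = F n (g n) := fun n => rfl
  obtain ⟨d, hd⟩ := closed (fun n => (g n).1) (fun n => by
    show (g (n + 1)).1 ≤ (g n).1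
    rw [hg]
    exact hF n (g n))
  refine ⟨d, hd 0, ?_⟩
  have h2 : ∀ n, ∃ t, W n t d := by
    intro n
    obtain ⟨t, ht⟩ := hW n (g n)
    refine ⟨t, hm n t _ d ?_ ht⟩
    have h3 := hd (n + 1)
    rw [hg] at h3
    exact h3
  choose s hs using h2
  exact ⟨s, hs⟩

end Pool.Agent.RFN.GX.DA
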