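import Pool.Agent.DX.Defs

set_option autoImplicit false

/-!
# The definitions which occur in the result

The same notions as in `DX/Defs.lean`, over named types for the Hilbert spaces and for the bounded
operators on them (so that the terms stay short).
-/

namespace DXP

open MBS DX
open scoped InnerProductSpace

noncomputable section

/-- The fixed Hilbert space of dimension `n` : square summable functions on `Idx n`. -/
def HS (n : Dim) : Type := lp (fun _ : Idx n => ℂ) 2

instance (n : Dim) : NormedAddCommGroup (HS n) :=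
  (inferInstance : NormedAddCommGroup (lp (fun _ : Idx n => ℂ) 2))

instance (n : Dim) : InnerProductSpace ℂ (HS n) :=
  (inferInstance : InnerProductSpace ℂ (lp (fun _ : Idx n => ℂ) 2))

instance (n : Dim) : CompleteSpace (HS n) :=
  (inferInstance : CompleteSpace (lp (fun _ : Idx n => ℂ) 2))

/-- The C*-algebra of the bounded operators on the fixed Hilbert space of dimension `n`. -/
def BH (n : Dim) : Type := HS n →L[ℂ] HS n

instance (n : Dim) : CStarAlgebra (BH n) := (inferInstance : CStarAlgebra (HS n →L[ℂ] HS n))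

/-- The value of an operator at a vector. -/
def BH.ap {n : Dim} (T : BH n) (v : HS n) : HS n := (show HS n →L[ℂ] HS n from T) v

/-- The inner product. -/
def ip {n : Dim} (v w : HS n) : ℂ := ⟪v, w⟫_ℂ

/-- The unitary operators. -/
def Uni (n m : Dim) : Type := HS n ≃ₗᵢ[ℂ] HS m

/-- The value of a unitary operator at a vector. -/
def Uni.ap {n m : Dim} (U : Uni n m) (v : HS n) : HS m := (show HS n ≃ₗᵢ[ℂ] HS m from U) v

/-- The `i`-th vector of the standard basis (zero if there is no such vector). -/
def bv (n : Dim) (i : ℕ) : HS n := bvec n i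

/-- The representations of the (possibly non-unital) C*-algebra `A` on the fixed Hilbert space of
dimension `n`. -/
def Rp (A : Type) [NonUnitalCStarAlgebra A] (n : Dim) : Type := A →⋆ₙₐ[ℂ] BH n

section

variable {A : Type} [NonUnitalCStarAlgebra A]

/-- The operator `π a`. -/
def Rp.op {n : Dim} (π : Rp A n) (a : A) : BH n := (show A →⋆ₙₐ[ℂ] BH n from π) a

/-- The representation `π` is irreducible (and not zero). -/
def IsIrr (n : Dim) (π : Rp A n) : Prop :=
  (∃ a, π.op a ≠ 0) ∧ ∀ K : Submodule ℂ (HS n), IsClosed (K : Set (HS n)) →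
    (∀ a, ∀ v ∈ K, (π.op a).ap v ∈ K) → K = ⊥ ∨ K = ⊤

/-- The matrix coefficients of a representation. -/
def coeff (n : Dim) (π : Rp A n) : A × HS n × HS n → ℂ := fun p => ip p.2.1 ((π.op p.1).ap p.2.2)

end

/-- `Irr_n(A)` -/
def IrrN (A : Type) [NonUnitalCStarAlgebra A] (n : Dim) : Type := {π : Rp A n // IsIrr n π}

/-- The topology of pointwise weak operator convergence on `Irr_n(A)`. -/
instance (A : Type) [NonUnitalCStarAlgebra A] (n : Dim) : TopologicalSpace (IrrN A n) :=
  TopologicalSpace.induced (fun π : IrrN A n => coeff n π.1) Pi.topologicalSpace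

/-- `Irr(A)`, the disjoint union of the `Irr_n(A)`. -/
def Irr (A : Type) [NonUnitalCStarAlgebra A] : Type := Σ n : Dim, IrrN A n

instance (A : Type) [NonUnitalCStarAlgebra A] : TopologicalSpace (Irr A) :=
  (inferInstance : TopologicalSpace (Σ n : Dim, IrrN A n))

instance (A : Type) [NonUnitalCStarAlgebra A] : MeasurableSpace (Irr A) := borel _

/-- Unitary equivalence of irreducible representations. -/
def UEq {A : Type} [NonUnitalCStarAlgebra A] (σ τ : Irr A) : Prop :=
  ∃ U : Uni σ.1 τ.1, ∀ (a : A) (v : HS σ.1), U.ap ((σ.2.1.op a).ap v) = (τ.2.1.op a).ap (U.ap v)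

theorem uEq_equivalence (A : Type) [NonUnitalCStarAlgebra A] : Equivalence (UEq (A := A)) :=
  (nSetoid A).iseqv

/-- Unitary equivalence as a setoid. -/
def uSetoid (A : Type) [NonUnitalCStarAlgebra A] : Setoid (Irr A) := ⟨UEq, uEq_equivalence A⟩

/-- The spectrum of `A`. -/
def Sp (A : Type) [NonUnitalCStarAlgebra A] : Type := Quotient (uSetoid A)

/-- The Mackey Borel structure. -/
instance (A : Type) [NonUnitalCStarAlgebra A] : MeasurableSpace (Sp A) :=
  MeasurableSpace.map (fun σ : Irr A => (Quotient.mk (uSetoid A) σ : Sp A)) inferInstance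

open Classical in
/-- The bits of the code of the representation `π`: its dimension, and the real parts and the
imaginary parts of its matrix coefficients at the elements `x k` and the basis vectors. -/
def rb {A : Type} [NonUnitalCStarAlgebra A] (x : ℕ → A) (π : Irr A) : Bit → Bool
  | Sum.inl d => decide (π.1 = d)
  | Sum.inr (k, i, j, b, q) =>
      decide (part b (ip (bv π.1 i) ((π.2.1.op (x k)).ap (bv π.1 j))) < (q : ℝ))

/-- The code of the irreducible representation `π` of the C*-algebra `A` with the dense
sequence `x`. -/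
def rc {A : Type} [NonUnitalCStarAlgebra A] (x : ℕ → A) (π : Irr A) : ℕ → Bool := fun m =>
  match (Encodable.decode m : Option Bit) with
  | some b => rb x π b
  | none => false

/-- The spectra of the C*-algebras `A` and `B` with the dense sequences `x` and `y` are isomorphic
in `M`. -/
def SpIsoM (M : Set ZFSet.{0}) {A B : Type} [NonUnitalCStarAlgebra A] [NonUnitalCStarAlgebra B]
    (x : ℕ → A) (y : ℕ → B) : Prop :=
  IsoM M (rc x) UEq (rc y) UEq

/-- The spectrum of the C*-algebra `A` with the dense sequence `x` is standard in `M`. -/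
def SpStdM (M : Set ZFSet.{0}) {A : Type} [NonUnitalCStarAlgebra A] (x : ℕ → A) : Prop :=
  StdM M (rc x) UEq

/-! ## These are the notions of `DX/Defs.lean` -/

theorem irr_eq (A : Type) [NonUnitalCStarAlgebra A] : Irr A = NIrr A := rfl

theorem isoM_iff (M : Set ZFSet.{0}) {A B : Type} [NonUnitalCStarAlgebra A]
    [NonUnitalCStarAlgebra B] (x : ℕ → A) (y : ℕ → B) : SpIsoM M x y ↔ SpecIsoM M x y := Iff.rfl

theorem stdM_iff (M : Set ZFSet.{0}) {A : Type} [NonUnitalCStarAlgebra A] (x : ℕ → A) :
    SpStdM M x ↔ SpecStdM M x := Iff.rfl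

theorem sp_std (A : Type) [NonUnitalCStarAlgebra A] :
    StandardBorelSpace (Sp A) ↔ StandardBorelSpace (NSpec A) := Iff.rfl

theorem sp_iso (A B : Type) [NonUnitalCStarAlgebra A] [NonUnitalCStarAlgebra B] :
    Nonempty (Sp A ≃ᵐ Sp B) ↔ Nonempty (NSpec A ≃ᵐ NSpec B) := Iff.rfl

end

end DXP
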