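import Pool.Agent.DX.Defs

set_option autoImplicit false

/-!
# The code of a representation determines it

PROOFS.
* `span_bvec` : `HSp n` is the Hilbert space `lp (fun _ : Idx n => ℂ) 2`; the vectors `bvec n i`,
  `i ∈ ℕ`, are all the `δ a`, `a : Idx n` (and perhaps 0): `n = none`: `Idx none = ℕ`; `n = some m`:
  `Idx (some m) = Fin (m + 1)`. The `lp.single 2 a 1` span a dense subspace
  (`lp.hasSum_single`, `HasSum.mem_of...`; or: a vector orthogonal to all `δ a` is zero,
  `Submodule.topologicalClosure_eq_top_iff`; see MBS, e.g. MBS/Schur or MBS/IndIrr).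
* `rcode_inj` : from `rcode x π = rcode x π'` all the bits agree (`Encodable.encodek`); the bits
  `Sum.inl d` give `π.1 = π'.1`; after `cases` on the equality of the dimensions
  the bits `Sum.inr (k, i, j, b, q)` give the equality of the real and imaginary parts of
  `⟪bvec i, π (x k) (bvec j)⟫` (two real numbers with the same rationals above them are equal); so
  `π (x k) (bvec j) = π' (x k) (bvec j)` (`span_bvec`), `π (x k) = π' (x k)` (continuous linear maps
  which agree on a set with dense span), and `π = π'` as `x` has dense range and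
  *-homomorphisms of C*-algebras are continuous (`NonUnitalStarAlgHom.norm_apply_le` or
  `map_continuous`).
* `rbit_measurable` : `{π | π.1 = d}` is clopen in the sigma type; on each component the
  coefficient `π ↦ ⟪v, π a w⟫` is continuous by definition of the topology (`continuous_induced_dom`,
  `continuous_apply`), so `{π | part b (..) < q}` is open; use `isOpen_sigma_iff`.
* `rcode_measurable` : `measurable_pi_iff`, each bit is `rbit x π b` or constant.
* `rcode_emb` : `Measurable.measurableEmbedding` (Lusin-Souslin).
-/

namespace DX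

open MBS MeasureTheory
open scoped InnerProductSpace

/-- the span of the basis vectors is dense -/
theorem dx_span_δ_dense (G : Type) :
    Dense (Submodule.span ℂ (Set.range (δ : G → L2 G)) : Set (L2 G)) := by
  classical
  intro f
  have h := lp.hasSum_single (E := fun _ : G => ℂ) (p := 2) (by norm_num) f
  refine mem_closure_of_tendsto h (Filter.Eventually.of_forall fun s => ?_)
  refine Submodule.sum_mem _ fun i _ => ?_
  have : (lp.single 2 i (f i) : L2 G) = (f i : ℂ) • δ i := by
    ext k
    simp only [δ, lp.single_apply, Pi.single_apply, lp.coeFn_smul, Pi.smul_apply, smul_eq_mul]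
    by_cases hk : k = i
    · subst hk; simp
    · simp [hk]
  rw [this]
  exact Submodule.smul_mem _ _ (Submodule.subset_span ⟨i, rfl⟩)

theorem range_δ_sub (n : Dim) : Set.range (δ : Idx n → L2 (Idx n)) ⊆ Set.range (bvec n) := by
  rintro _ ⟨g, rfl⟩
  cases n with
  | none => exact ⟨(g : ℕ), rfl⟩
  | some n =>
    refine ⟨(g : Fin (n + 1)).val, ?_⟩
    unfold bvec
    simp only
    exact dif_pos (g : Fin (n + 1)).isLt

theorem dense_bvec (n : Dim) : Dense (Submodule.span ℂ (Set.range (bvec n)) : Set (HSp n)) :=
  (dx_span_δ_dense (Idx n)).mono (Submodule.span_mono (range_δ_sub n))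

theorem span_bvec (n : Dim) :
    (Submodule.span ℂ (Set.range (bvec n))).topologicalClosure = ⊤ :=
  Submodule.dense_iff_topologicalClosure_eq_top.mp (dense_bvec n)

theorem vec_ext {n : Dim} {v w : HSp n} (h : ∀ i, ⟪bvec n i, v⟫_ℂ = ⟪bvec n i, w⟫_ℂ) : v = w := by
  have h1 : innerSL ℂ v = innerSL ℂ w := by
    refine ContinuousLinearMap.ext_on (dense_bvec n) ?_
    rintro _ ⟨i, rfl⟩
    rw [innerSL_apply_apply, innerSL_apply_apply, ← inner_conj_symm, h i, inner_conj_symm]
  refine ext_inner_right ℂ fun u => ?_
  have := congrArg (fun f => f u) h1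
  simpa using this

theorem op_ext {n : Dim} {S T : HSp n →L[ℂ] HSp n} (h : ∀ i j, ⟪bvec n i, S (bvec n j)⟫_ℂ = ⟪bvec n i, T (bvec n j)⟫_ℂ) :
    S = T := by
  refine ContinuousLinearMap.ext_on (dense_bvec n) ?_
  rintro _ ⟨j, rfl⟩
  exact vec_ext fun i => h i j

variable {A : Type} [NonUnitalCStarAlgebra A] {x : ℕ → A}

theorem rcode_apply (π : NIrr A) (b : Bit) : rcode x π (Encodable.encode b) = rbit x π b := by
  simp [rcode, Encodable.encodek]

theorem part_ext {z z' : ℂ} (h : ∀ b, ∀ q : ℚ, part b z < (q : ℝ) ↔ part b z' < (q : ℝ)) : z = z' :=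
  Complex.ext (eq_of_forall_lt_rat_iff_lt (h true)) (eq_of_forall_lt_rat_iff_lt (h false))

theorem nrep_continuous {n : Dim} (π : NRepN A n) : Continuous π := by
  have h := NonUnitalStarAlgHom.norm_apply_le (F := NRepN A n) π
  exact AddMonoidHomClass.continuous_of_bound π 1 (by simpa only [one_mul] using h)

theorem rep_ext (hx : DenseRange x) {n : Dim} {π π' : NRepN A n} (h : ∀ k, π (x k) = π' (x k)) :
    π = π' := by
  have := hx.equalizer (nrep_continuous π) (nrep_continuous π') (funext h)
  exact DFunLike.coe_injective this

theorem rcode_inj (hx : DenseRange x) : Function.Injective (rcode x) := by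
  intro π π' hππ
  have hb : ∀ b, rbit x π b = rbit x π' b := fun b => by
    rw [← rcode_apply, ← rcode_apply, hππ]
  have hdim : π'.1 = π.1 := by
    have h1 := hb (Sum.inl π.1)
    simp only [rbit, decide_true] at h1
    exact of_decide_eq_true h1.symm
  obtain ⟨n, π, hπ⟩ := π
  obtain ⟨n', π', hπ'⟩ := π'
  simp only at hdim
  subst hdim
  have hrep : π = π' := by
    refine rep_ext hx fun k => op_ext fun i j => part_ext fun b q => ?_
    exact decide_eq_decide.mp (hb (Sum.inr (k, i, j, b, q)))
  subst hrep
  rfl

theorem part_continuous (b : Bool) : Continuous (part b) := by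
  cases b
  · exact Complex.continuous_im
  · exact Complex.continuous_re

theorem nirr_isOpen {s : Set (NIrr A)} (h : ∀ n, IsOpen {π : NIrrN A n | (⟨n, π⟩ : NIrr A) ∈ s}) :
    IsOpen s := by
  have : @IsOpen (Σ n : Dim, NIrrN A n) _ s := isOpen_sigma_iff.mpr h
  exact this

theorem rbit_measurable (b : Bit) : Measurable fun π : NIrr A => rbit x π b := by
  apply measurable_to_bool
  apply IsOpen.measurableSet
  rcases b with d | ⟨k, i, j, b, q⟩
  · apply nirr_isOpen
    intro n
    by_cases hn : n = d
    · convert isOpen_univ
      exact Set.eq_univ_of_forall fun π => decide_eq_true hn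
    · convert isOpen_empty
      exact Set.eq_empty_of_forall_notMem fun π h => hn (of_decide_eq_true h)
  · apply nirr_isOpen
    intro n
    have h0 : Continuous (fun π : NIrrN A n => ncoeff n π.1) := continuous_induced_dom
    have h1 : Continuous (fun π : NIrrN A n => ncoeff n π.1 (x k, bvec n i, bvec n j)) :=
      (continuous_pi_iff.mp h0) (x k, bvec n i, bvec n j)
    have h2 : IsOpen {π : NIrrN A n | part b (ncoeff n π.1 (x k, bvec n i, bvec n j)) < (q : ℝ)} :=
      isOpen_lt ((part_continuous b).comp h1) continuous_const
    convert h2 using 1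
    ext π
    exact decide_eq_true_iff

theorem rcode_measurable : Measurable (rcode x) := by
  rw [measurable_pi_iff]
  intro m
  unfold rcode
  generalize (Encodable.decode m : Option Bit) = o
  cases o with
  | none => exact measurable_const
  | some b => exact rbit_measurable b

theorem rcode_emb [StandardBorelSpace (NIrr A)] (hx : DenseRange x) :
    MeasurableEmbedding (rcode x) :=
  rcode_measurable.measurableEmbedding (rcode_inj hx)

end DX
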