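import Pool.Agent.RB57.Defs

set_option autoImplicit false

/-!
# The random algebra

The conditions are the measurable sets of positive measure in `Om K`; `q ≤ p` iff `q` is almost
contained in `p`. `Sub p S` : `p` is almost contained in `S` (`p` forces that the random point is in `S`).

PROOFS (elementary measure theory; `P K (p.s \ S) = 0`).
* `sub_inter`, `sub_iInter` : `p.s \ ⋂ S n = ⋃ (p.s \ S n)`, `measure_iUnion_null`.
* `not_both` : `p.s ⊆ (p.s \ S) ∪ (p.s \ Sᶜ)` would be null.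
* `exists_sub_compl` : the condition `p.s \ S` has positive measure.
* `exists_sub_iUnion` : if `P K (p.s ∩ S n) = 0` for all `n` then `P K p.s ≤ P K (p.s \ ⋃ S n) + ∑ .. = 0`;
  otherwise `q.s = p.s ∩ S n`.
* `sub_of_dense` : otherwise `exists_sub_compl` gives `q ≤ p` with `Sub q Sᶜ`, and `r ≤ q` with `Sub r S`:
  `not_both`.
-/

namespace Pool.Agent.RFN.GX.DB

open RB57 MeasureTheory

/-- The conditions. -/
structure Cd (K : Type) : Type where
  s : Set (Om K)
  meas : MeasurableSet s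
  pos : P K s ≠ 0

variable {K : Type}

/-- `p` is almost contained in `S`. -/
def Sub (p : Cd K) (S : Set (Om K)) : Prop := P K (p.s \ S) = 0

noncomputable instance : Preorder (Cd K) where
  le q p := Sub q p.s
  le_refl p := by
    show P K (p.s \ p.s) = 0
    simp
  le_trans r q p h1 h2 := by
    have h1' : P K (r.s \ q.s) = 0 := h1
    have h2' : P K (q.s \ p.s) = 0 := h2
    show P K (r.s \ p.s) = 0
    have h3 : r.s \ p.s ⊆ (r.s \ q.s) ∪ (q.s \ p.s) := by
      rintro x ⟨h4, h5⟩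
      by_cases h : x ∈ q.s
      · exact Or.inr ⟨h, h5⟩
      · exact Or.inl ⟨h4, h⟩
    exact measure_mono_null h3 (measure_union_null h1' h2')

theorem le_iff {q p : Cd K} : q ≤ p ↔ Sub q p.s := Iff.rfl

noncomputable instance : OrderTop (Cd K) where
  top := ⟨Set.univ, MeasurableSet.univ, by simp⟩
  le_top p := by
    show P K (p.s \ Set.univ) = 0
    simp

theorem sub_self (p : Cd K) : Sub p p.s := le_refl p

theorem sub_univ (p : Cd K) : Sub p Set.univ := by
  simp [Sub]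

theorem sub_superset {p : Cd K} {S S' : Set (Om K)} (h : S ⊆ S') (hp : Sub p S) : Sub p S' :=
  measure_mono_null (Set.sdiff_subset_sdiff_right h) hp

/-- `p` is almost contained in `S` iff almost all points of `p` are in `S`. -/
theorem sub_iff_ae {p : Cd K} {S : Set (Om K)} : Sub p S ↔ ∀ᵐ ω ∂(P K), ω ∈ p.s → ω ∈ S := by
  rw [ae_iff]
  have h : {ω | ¬(ω ∈ p.s → ω ∈ S)} = p.s \ S := by
    ext ω
    rw [Set.mem_sdiff]
    exact Classical.not_imp
  rw [h]
  rfl

theorem sub_mono {p q : Cd K} {S : Set (Om K)} (hq : q ≤ p) (hp : Sub p S) : Sub q S := by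
  have h1 : P K (q.s \ p.s) = 0 := hq
  have h2 : P K (p.s \ S) = 0 := hp
  have h3 : q.s \ S ⊆ (q.s \ p.s) ∪ (p.s \ S) := by
    rintro x ⟨h4, h5⟩
    by_cases h : x ∈ p.s
    · exact Or.inr ⟨h, h5⟩
    · exact Or.inl ⟨h4, h⟩
  exact measure_mono_null h3 (measure_union_null h1 h2)

theorem sub_inter {p : Cd K} {S S' : Set (Om K)} (h : Sub p S) (h' : Sub p S') :
    Sub p (S ∩ S') := by
  have h1 : p.s \ (S ∩ S') ⊆ (p.s \ S) ∪ (p.s \ S') := by
    rintro x ⟨h4, h5⟩
    by_cases h6 : x ∈ S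
    · exact Or.inr ⟨h4, fun h7 => h5 ⟨h6, h7⟩⟩
    · exact Or.inl ⟨h4, h6⟩
  exact measure_mono_null h1 (measure_union_null h h')

theorem sub_iInter {p : Cd K} {S : ℕ → Set (Om K)} (h : ∀ n, Sub p (S n)) :
    Sub p (⋂ n, S n) := by
  have h1 : p.s \ (⋂ n, S n) ⊆ ⋃ n, (p.s \ S n) := by
    rintro x ⟨h4, h5⟩
    rw [Set.mem_iInter] at h5
    push Not at h5
    obtain ⟨n, hn⟩ := h5
    exact Set.mem_iUnion.2 ⟨n, h4, hn⟩
  exact measure_mono_null h1 (measure_iUnion_null h)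

theorem not_both {p : Cd K} {S : Set (Om K)} (h : Sub p S) (h' : Sub p Sᶜ) : False := by
  have h1 : p.s ⊆ (p.s \ S) ∪ (p.s \ Sᶜ) := by
    intro x hx
    by_cases h6 : x ∈ S
    · exact Or.inr ⟨hx, fun h7 => h7 h6⟩
    · exact Or.inl ⟨hx, h6⟩
  exact p.pos (measure_mono_null h1 (measure_union_null h h'))

/-- A condition which is not almost contained in `S`. -/
theorem exists_sub_compl {p : Cd K} {S : Set (Om K)} (hS : MeasurableSet S) (h : ¬ Sub p S) :
    ∃ q ≤ p, Sub q Sᶜ := by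
  refine ⟨⟨p.s \ S, p.meas.diff hS, h⟩, ?_, ?_⟩
  · show P K ((p.s \ S) \ p.s) = 0
    have h1 : (p.s \ S) \ p.s = ∅ := by
      ext x
      simp only [Set.mem_sdiff, Set.mem_empty_iff_false, iff_false]
      tauto
    rw [h1, measure_empty]
  · show P K ((p.s \ S) \ Sᶜ) = 0
    have h1 : (p.s \ S) \ Sᶜ = ∅ := by
      ext x
      simp only [Set.mem_sdiff, Set.mem_compl_iff, Set.mem_empty_iff_false, iff_false]
      tauto
    rw [h1, measure_empty]

theorem exists_dec (p : Cd K) {S : Set (Om K)} (hS : MeasurableSet S) :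
    ∃ q ≤ p, Sub q S ∨ Sub q Sᶜ := by
  by_cases h : Sub p S
  · exact ⟨p, le_refl p, Or.inl h⟩
  · obtain ⟨q, hq, h1⟩ := exists_sub_compl hS h
    exact ⟨q, hq, Or.inr h1⟩

theorem exists_sub_iUnion {p : Cd K} {S : ℕ → Set (Om K)} (hS : ∀ n, MeasurableSet (S n))
    (h : Sub p (⋃ n, S n)) : ∃ n, ∃ q ≤ p, Sub q (S n) := by
  by_cases hc : ∀ n, P K (p.s ∩ S n) = 0
  · exfalso
    have h1 : p.s ⊆ (p.s \ ⋃ n, S n) ∪ ⋃ n, (p.s ∩ S n) := by
      intro x hx
      by_cases h6 : x ∈ ⋃ n, S n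
      · obtain ⟨n, hn⟩ := Set.mem_iUnion.1 h6
        exact Or.inr (Set.mem_iUnion.2 ⟨n, hx, hn⟩)
      · exact Or.inl ⟨hx, h6⟩
    exact p.pos (measure_mono_null h1 (measure_union_null h (measure_iUnion_null hc)))
  · push Not at hc
    obtain ⟨n, hn⟩ := hc
    refine ⟨n, ⟨p.s ∩ S n, p.meas.inter (hS n), hn⟩, ?_, ?_⟩
    · show P K ((p.s ∩ S n) \ p.s) = 0
      have h1 : (p.s ∩ S n) \ p.s = ∅ := by
        ext x
        simp only [Set.mem_sdiff, Set.mem_inter_iff, Set.mem_empty_iff_false, iff_false]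
        tauto
      rw [h1, measure_empty]
    · show P K ((p.s ∩ S n) \ S n) = 0
      have h1 : (p.s ∩ S n) \ S n = ∅ := by
        ext x
        simp only [Set.mem_sdiff, Set.mem_inter_iff, Set.mem_empty_iff_false, iff_false]
        tauto
      rw [h1, measure_empty]

theorem sub_of_dense {p : Cd K} {S : Set (Om K)} (hS : MeasurableSet S)
    (h : ∀ q ≤ p, ∃ r ≤ q, Sub r S) : Sub p S := by
  by_contra hc
  obtain ⟨q, hq, h1⟩ := exists_sub_compl hS hc
  obtain ⟨r, hr, h2⟩ := h q hq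
  exact not_both h2 (sub_mono hr h1)

end Pool.Agent.RFN.GX.DB
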