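import Pool.Agent.DX.RP

set_option autoImplicit false

/-!
# Exhaustion and mixing in the random algebra

PROOFS.
* `exists_sup` : for a set `U` of conditions there is a sequence in `U` (if `U` is nonempty) such
  that every condition in `U` is almost contained in its union. Proof: `a := sup` of the numbers
  `P K (⋃ n, (f n).s)`, `f : ℕ → Cd K` with values in `U` (`≤ 1`); choose `f i` with
  `a - 1/(i+1) < P K (⋃ n, (f i n).s)` and enumerate all the `f i n` by one sequence (`Nat.pairEquiv`):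
  its union `S` has measure `a`. If `q ∈ U` and `P K (q.s \ S) ≠ 0` then the sequence with `q` added has a
  union of measure `> a` (`a < ∞`).
* `ess` : if `U` is empty take `S = ∅` (no condition has `Sub p ∅`, by `p.pos`). Otherwise `S = ⋃ (f n).s`
  for `f` from `exists_sup`. `Sub p S` implies `p ∈ U`: for every `q ≤ p` some `r ≤ q` is almost contained
  in some `(f n).s` (`exists_sub_iUnion`), so `r ≤ f n`, `r ∈ U` (downward closed); `hd`.
* `mix` : `U = {q | q ≤ p ∧ ∃ t, W t q}`, nonempty; `f` from `exists_sup`, `B n = (f n).s`,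
  `A n = disjointed B n` (`disjointed_subset`, `iUnion_disjointed`, `disjoint_disjointed`). `Sub p (⋃ A n)`:
  otherwise `exists_sub_compl` gives `r ≤ p` almost disjoint from the union, and `q ≤ r` in `U`, almost
  contained in the union: `not_both`. If `Sub q (A n)` then `q ≤ f n`, so `W (t n) q`. -/

namespace Pool.Agent.RFN.GX.DB

open RB57 MeasureTheory

variable {K : Type}

theorem exists_sup (U : Set (Cd K)) (hU : U.Nonempty) :
    ∃ f : ℕ → Cd K, (∀ n, f n ∈ U) ∧ ∀ q ∈ U, Sub q (⋃ n, (f n).s) := by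
  obtain ⟨A, hA⟩ : ∃ A : Set ENNReal, A = {r | ∃ f : ℕ → Cd K, (∀ n, f n ∈ U) ∧
      r = P K (⋃ n, (f n).s)} := ⟨_, rfl⟩
  obtain ⟨q0, hq0⟩ := hU
  have hne : A.Nonempty := by
    rw [hA]
    exact ⟨_, fun _ => q0, fun _ => hq0, rfl⟩
  obtain ⟨u, _, hlim, hu⟩ := exists_seq_tendsto_sSup hne (OrderTop.bddAbove A)
  have hu' : ∀ i, ∃ f : ℕ → Cd K, (∀ n, f n ∈ U) ∧ u i = P K (⋃ n, (f n).s) := by
    intro i
    have := hu i
    rw [hA] at this
    exact this
  choose f hf hfu using hu'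
  obtain ⟨F, hF⟩ : ∃ F : ℕ → Cd K, F = fun k => f k.unpair.1 k.unpair.2 := ⟨_, rfl⟩
  have hFU : ∀ k, F k ∈ U := by
    intro k
    rw [hF]
    exact hf _ _
  have hsub : ∀ i, (⋃ n, (f i n).s) ⊆ ⋃ k, (F k).s := by
    intro i x hx
    obtain ⟨n, hn⟩ := Set.mem_iUnion.1 hx
    refine Set.mem_iUnion.2 ⟨Nat.pair i n, ?_⟩
    rw [hF]
    simpa using hn
  have hle : sSup A ≤ P K (⋃ k, (F k).s) := by
    refine le_of_tendsto' hlim fun i => ?_
    rw [hfu i]
    exact measure_mono (hsub i)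
  have hS : MeasurableSet (⋃ k, (F k).s) := MeasurableSet.iUnion fun k => (F k).meas
  refine ⟨F, hFU, fun q hq => ?_⟩
  by_contra hc
  have hpos : P K (q.s \ ⋃ k, (F k).s) ≠ 0 := hc
  have hmem : P K (q.s ∪ ⋃ k, (F k).s) ∈ A := by
    rw [hA]
    refine ⟨fun n => Nat.casesOn n q F, fun n => ?_, ?_⟩
    · cases n with
      | zero => exact hq
      | succ n => exact hFU n
    · congr 1
      ext x
      rw [Set.mem_union, Set.mem_iUnion, Set.mem_iUnion]
      constructor
      · rintro (h | ⟨n, h⟩)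
        · exact ⟨0, h⟩
        · exact ⟨n + 1, h⟩
      · rintro ⟨n, h⟩
        cases n with
        | zero => exact Or.inl h
        | succ n => exact Or.inr ⟨n, h⟩
  have h1 : P K (q.s ∪ ⋃ k, (F k).s) = P K (⋃ k, (F k).s) + P K (q.s \ ⋃ k, (F k).s) := by
    rw [← measure_union Set.disjoint_sdiff_right (q.meas.diff hS), Set.union_sdiff_self,
      Set.union_comm]
  have h2 : P K (⋃ k, (F k).s) + P K (q.s \ ⋃ k, (F k).s) ≤ P K (⋃ k, (F k).s) := by
    rw [← h1]
    exact (le_sSup hmem).trans hle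
  have h3 : P K (⋃ k, (F k).s) ≠ ⊤ := measure_ne_top _ _
  have h4 := ENNReal.lt_add_right h3 hpos
  exact absurd h4 (not_lt.2 h2)

/-- The essential supremum of an open set of conditions. -/
theorem ess (U : Set (Cd K)) (hm : ∀ p ∈ U, ∀ q ≤ p, q ∈ U)
    (hd : ∀ p, (∀ q ≤ p, ∃ r ≤ q, r ∈ U) → p ∈ U) :
    ∃ S : Set (Om K), MeasurableSet S ∧ ∀ p, p ∈ U ↔ Sub p S := by
  rcases U.eq_empty_or_nonempty with hU | hU
  · refine ⟨∅, MeasurableSet.empty, fun p => ?_⟩
    rw [hU]
    constructor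
    · intro h
      exact absurd h (Set.notMem_empty p)
    · intro h
      exfalso
      apply p.pos
      have h1 : P K (p.s \ ∅) = 0 := h
      rwa [Set.sdiff_empty] at h1
  · obtain ⟨f, hf, hfU⟩ := exists_sup U hU
    refine ⟨⋃ n, (f n).s, MeasurableSet.iUnion fun n => (f n).meas, fun p => ⟨hfU p, fun h => ?_⟩⟩
    apply hd
    intro q hq
    obtain ⟨n, r, hr, hrn⟩ := exists_sub_iUnion (fun n => (f n).meas) (sub_mono hq h)
    exact ⟨r, hr, hm (f n) (hf n) r hrn⟩

/-- Mixing: if densely many conditions below `p` have a value then there is a countable partition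
of `p` such that the value is constant on the pieces. -/
theorem mix {T : Type} (W : T → Cd K → Prop) (hm : ∀ t p q, q ≤ p → W t p → W t q) (p : Cd K)
    (h : ∀ r ≤ p, ∃ q ≤ r, ∃ t, W t q) :
    ∃ (A : ℕ → Set (Om K)) (t : ℕ → T), (∀ n, MeasurableSet (A n)) ∧
      (∀ m n, m ≠ n → Disjoint (A m) (A n)) ∧ Sub p (⋃ n, A n) ∧
      ∀ n q, Sub q (A n) → W (t n) q := by
  obtain ⟨U, hUdef⟩ : ∃ U : Set (Cd K), U = {q | q ≤ p ∧ ∃ t, W t q} := ⟨_, rfl⟩
  have hU : U.Nonempty := by
    obtain ⟨q, hq, t, ht⟩ := h p (le_refl p)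
    rw [hUdef]
    exact ⟨q, hq, t, ht⟩
  obtain ⟨f, hf, hfU⟩ := exists_sup U hU
  have hf' : ∀ n, ∃ t, W t (f n) := by
    intro n
    have := hf n
    rw [hUdef] at this
    exact this.2
  choose t ht using hf'
  refine ⟨disjointed fun n => (f n).s, t, fun n => MeasurableSet.disjointed
    (fun n => (f n).meas) n, fun m n hmn => disjoint_disjointed _ hmn, ?_, fun n q hq => ?_⟩
  · rw [iUnion_disjointed]
    by_contra hc
    obtain ⟨r, hr, h1⟩ := exists_sub_compl (MeasurableSet.iUnion fun n => (f n).meas) hc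
    obtain ⟨q, hq, t', ht'⟩ := h r hr
    have h2 : q ∈ U := by
      rw [hUdef]
      exact ⟨hq.trans hr, t', ht'⟩
    exact not_both (hfU q h2) (sub_mono hq h1)
  · exact hm (t n) (f n) q (sub_superset (disjointed_subset _ n) hq) (ht n)

end Pool.Agent.RFN.GX.DB
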