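import Pool.Agent.DX.Gen

set_option autoImplicit false

/-!
# DX/Sanity : the notions relative to a transitive class `M`, for `M` = the universe

For `M = Set.univ` the relativized notions of `DX/Defs` are the ordinary ones:

* `specIsoM_univ` : for dense sequences `x`, `y` in `A`, `B`, `SpecIsoM univ x y` holds if and only
  if the spectra of `A` and `B` with their Mackey Borel structures are isomorphic as measurable
  spaces;
* `specStdM_univ` : `SpecStdM univ x` holds if and only if the spectrum of `A` is a standard Borel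
  space.
-/

namespace DX

open MBS MeasureTheory Function
open Pool.Agent.ChoicelessEmb (natZ natZ_injective)

noncomputable section

theorem mem_rZ (ρ : ℕ → Bool) (n : ℕ) : natZ n ∈ rZ ρ ↔ ρ n = true := by
  rw [rZ, ZFSet.mem_range]
  constructor
  · rintro ⟨⟨m, hm⟩, h⟩
    rw [← natZ_injective h]
    exact hm
  · intro h
    exact ⟨⟨n, h⟩, rfl⟩

theorem rZ_injective : Injective rZ := by
  intro ρ σ h
  funext n
  rw [Bool.eq_iff_iff, ← mem_rZ, ← mem_rZ, h]

theorem mem_ptM_univ {X : Type} (c : X → ℕ → Bool) (x : X) : x ∈ PtM Set.univ c :=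
  Set.mem_univ _

/-- every sequence of sets belongs to the universe -/
theorem seqM_univ {X : Type} {c : X → ℕ → Bool} (hc : Injective c) (D : ℕ → Set X) :
    SeqM Set.univ c D := by
  refine ⟨ZFSet.range (fun p : {p : ℕ × X // p.2 ∈ D p.1} =>
    (natZ p.1.1).pair (rZ (c p.1.2))), Set.mem_univ _, fun n x _ => ?_⟩
  rw [ZFSet.mem_range]
  constructor
  · intro h
    exact ⟨⟨(n, x), h⟩, rfl⟩
  · rintro ⟨⟨⟨m, y⟩, hy⟩, h⟩
    rw [ZFSet.pair_inj] at h
    have h1 : m = n := natZ_injective h.1
    have h2 : y = x := hc (rZ_injective h.2)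
    subst h1 h2
    exact hy

/-- every relation belongs to the universe -/
theorem relM_univ {X X' : Type} {c : X → ℕ → Bool} {c' : X' → ℕ → Bool} (hc : Injective c)
    (hc' : Injective c') (F : X → X' → Prop) : RelM Set.univ c c' F := by
  refine ⟨ZFSet.range (fun p : {p : X × X' // F p.1 p.2} =>
    (rZ (c p.1.1)).pair (rZ (c' p.1.2))), Set.mem_univ _, fun x _ x' _ => ?_⟩
  rw [ZFSet.mem_range]
  constructor
  · intro h
    exact ⟨⟨(x, x'), h⟩, rfl⟩
  · rintro ⟨⟨⟨m, y⟩, hy⟩, h⟩
    rw [ZFSet.pair_inj] at h
    have h1 : m = x := hc (rZ_injective h.1)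
    have h2 : y = x' := hc' (rZ_injective h.2)
    subst h1 h2
    exact hy

/-- The Borel sets in the sense of the universe are the preimages of the Borel sets of the Cantor
space. -/
theorem borM_univ {X : Type} {c : X → ℕ → Bool} (hc : Injective c) (D : Set X) :
    BorM Set.univ c D ↔
      MeasurableSet[MeasurableSpace.comap c (inferInstance : MeasurableSpace (ℕ → Bool))] D := by
  constructor
  · intro h
    induction h with
    | basic n =>
      refine ⟨(fun ρ : ℕ → Bool => ρ n) ⁻¹' {true},
        measurable_pi_apply _ (measurableSet_singleton true), ?_⟩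
      ext x
      simp only [Set.mem_preimage, Set.mem_singleton_iff, Set.mem_ofPred_eq]
      exact ⟨fun h => ⟨mem_ptM_univ c x, h⟩, fun h => h.2⟩
    | compl D _ ih =>
      have h1 : {x | x ∈ PtM Set.univ c ∧ x ∉ D} = Dᶜ := by
        ext x
        simp only [Set.mem_ofPred_eq, Set.mem_compl_iff]
        exact ⟨fun h => h.2, fun h => ⟨mem_ptM_univ c x, h⟩⟩
      rw [h1]
      exact MeasurableSet.compl ih
    | union D _ _ ih =>
      have h1 : {x | ∃ n, x ∈ D n} = ⋃ n, D n := by
        ext x
        simp only [Set.mem_ofPred_eq, Set.mem_iUnion]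
      rw [h1]
      exact MeasurableSet.iUnion ih
  · rintro ⟨S, hS, rfl⟩
    have hcompl : ∀ D, BorM Set.univ c D → BorM Set.univ c Dᶜ := by
      intro D hD
      have h1 : {x | x ∈ PtM Set.univ c ∧ x ∉ D} = Dᶜ := by
        ext x
        simp only [Set.mem_ofPred_eq, Set.mem_compl_iff]
        exact ⟨fun h => h.2, fun h => ⟨mem_ptM_univ c x, h⟩⟩
      rw [← h1]
      exact BorM.compl D hD
    have hunion : ∀ D : ℕ → Set X, (∀ n, BorM Set.univ c (D n)) → BorM Set.univ c (⋃ n, D n) := by
      intro D hD
      have h1 : {x | ∃ n, x ∈ D n} = ⋃ n, D n := by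
        ext x
        simp only [Set.mem_ofPred_eq, Set.mem_iUnion]
      rw [← h1]
      exact BorM.union D hD (seqM_univ hc D)
    have huniv : BorM Set.univ c Set.univ := by
      have h1 := hunion (fun n => if n = 0 then {x | x ∈ PtM Set.univ c ∧ c x 0 = true}
        else {x | x ∈ PtM Set.univ c ∧ c x 0 = true}ᶜ) (fun n => by
          split_ifs
          · exact BorM.basic 0
          · exact hcompl _ (BorM.basic 0))
      have h2 : (⋃ n : ℕ, (if n = 0 then {x | x ∈ PtM Set.univ c ∧ c x 0 = true}
        else {x | x ∈ PtM Set.univ c ∧ c x 0 = true}ᶜ)) = Set.univ := by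
        refine Set.eq_univ_of_forall fun x => Set.mem_iUnion.2 ?_
        by_cases hx : x ∈ {x | x ∈ PtM Set.univ c ∧ c x 0 = true}
        · exact ⟨0, by rw [if_pos rfl]; exact hx⟩
        · exact ⟨1, by rw [if_neg one_ne_zero]; exact hx⟩
      rw [h2] at h1
      exact h1
    have hgen : (inferInstance : MeasurableSpace (ℕ → Bool)) ≤
        MeasurableSpace.generateFrom {S | ∃ n, S = (fun ρ : ℕ → Bool => ρ n) ⁻¹' {true}} := by
      refine iSup_le fun n => ?_
      refine Measurable.comap_le ?_
      refine @measurable_to_bool _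
        (MeasurableSpace.generateFrom {S | ∃ n, S = (fun ρ : ℕ → Bool => ρ n) ⁻¹' {true}}) _ ?_
      exact MeasurableSpace.measurableSet_generateFrom ⟨n, rfl⟩
    suffices key : ∀ T, MeasurableSet[MeasurableSpace.generateFrom
        {S | ∃ n, S = (fun ρ : ℕ → Bool => ρ n) ⁻¹' {true}}] T → BorM Set.univ c (c ⁻¹' T) from
      key S (hgen S hS)
    intro T hT
    induction T, hT using MeasurableSpace.generateFrom_induction with
    | hC t ht _ =>
      obtain ⟨n, rfl⟩ := ht
      have h1 : {x | x ∈ PtM Set.univ c ∧ c x n = true} =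
          c ⁻¹' ((fun ρ : ℕ → Bool => ρ n) ⁻¹' {true}) := by
        ext x
        simp only [Set.mem_preimage, Set.mem_singleton_iff, Set.mem_ofPred_eq]
        exact ⟨fun h => h.2, fun h => ⟨mem_ptM_univ c x, h⟩⟩
      rw [← h1]
      exact BorM.basic n
    | empty =>
      have h1 := hcompl _ huniv
      rw [Set.compl_univ] at h1
      exact h1
    | compl t _ ih =>
      rw [Set.preimage_compl]
      exact hcompl _ ih
    | iUnion s _ ih =>
      rw [Set.preimage_iUnion]
      exact hunion _ ih

/-- For `M` = the universe, isomorphism in `M` of quotient spaces is the ordinary isomorphism of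
measurable spaces: `Q`, `Q'` are the quotients, with the quotient sigma-algebras. -/
theorem isoM_univ {X X' Q Q' : Type} [MeasurableSpace Q] [MeasurableSpace Q']
    {c : X → ℕ → Bool} {c' : X' → ℕ → Bool} (hc : Injective c) (hc' : Injective c')
    (E : X → X → Prop) (E' : X' → X' → Prop) (q : X → Q) (q' : X' → Q') (hq : Surjective q)
    (hq' : Surjective q') (hE : ∀ x y, E x y ↔ q x = q y) (hE' : ∀ x y, E' x y ↔ q' x = q' y)
    (hm : ∀ U : Set Q, MeasurableSet U ↔ BorM Set.univ c (q ⁻¹' U))
    (hm' : ∀ U : Set Q', MeasurableSet U ↔ BorM Set.univ c' (q' ⁻¹' U)) :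
    IsoM Set.univ c E c' E' ↔ Nonempty (Q ≃ᵐ Q') := by
  constructor
  · rintro ⟨F, -, htot, hont, heqv, hbor, hbor'⟩
    have htot' : ∀ x, ∃ x', F x x' := fun x => by
      obtain ⟨x', _, h⟩ := htot x (mem_ptM_univ c x)
      exact ⟨x', h⟩
    have hont' : ∀ x', ∃ x, F x x' := fun x' => by
      obtain ⟨x, _, h⟩ := hont x' (mem_ptM_univ c' x')
      exact ⟨x, h⟩
    have heq : ∀ x y x' y', F x x' → F y y' → (q x = q y ↔ q' x' = q' y') := by
      intro x y x' y' h h'
      rw [← hE, ← hE']
      exact heqv x (mem_ptM_univ c x) y (mem_ptM_univ c y) x' (mem_ptM_univ c' x') y'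
        (mem_ptM_univ c' y') h h'
    choose f hf using htot'
    choose g hg using hont'
    choose r hr using hq
    choose r' hr' using hq'
    -- the bijection
    have h1 : ∀ x, q' (f (r (q x))) = q' (f x) := fun x =>
      (heq _ _ _ _ (hf _) (hf _)).1 (hr _)
    have h2 : ∀ x', q (g (r' (q' x'))) = q (g x') := fun x' =>
      (heq _ _ _ _ (hg _) (hg _)).2 (hr' _)
    have h3 : ∀ x x', F x x' → q' (f x) = q' x' := fun x x' h => (heq _ _ _ _ (hf x) h).1 rfl
    have h4 : ∀ x x', F x x' → q (g x') = q x := fun x x' h => (heq _ _ _ _ (hg x') h).2 rfl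
    let e : Q ≃ Q' :=
      { toFun := fun a => q' (f (r a))
        invFun := fun b => q (g (r' b))
        left_inv := fun a => by
          change q (g (r' (q' (f (r a))))) = a
          rw [h2, h4 _ _ (hf (r a)), hr]
        right_inv := fun b => by
          change q' (f (r (q (g (r' b))))) = b
          rw [h1, h3 _ _ (hg (r' b)), hr'] }
    refine ⟨⟨e, ?_, ?_⟩⟩
    · intro U hU
      have h5 := (hm' U).1 hU
      obtain ⟨D, hD, -, hDU⟩ := hbor' _ h5 (fun x _ y _ hxy => by
        simp only [Set.mem_preimage]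
        rw [(hE' x y).1 hxy])
      rw [hm]
      have h6 : q ⁻¹' (e ⁻¹' U) = D := by
        ext x
        have h7 := hDU x (mem_ptM_univ c x) (f x) (mem_ptM_univ c' _) (hf x)
        rw [h7]
        simp only [Set.mem_preimage]
        have h8 : e (q x) = q' (f x) := h1 x
        rw [h8]
      rw [h6]
      exact hD
    · intro U hU
      have h5 := (hm U).1 hU
      obtain ⟨D, hD, -, hDU⟩ := hbor _ h5 (fun x _ y _ hxy => by
        simp only [Set.mem_preimage]
        rw [(hE x y).1 hxy])
      rw [hm']
      have h6 : q' ⁻¹' (e.symm ⁻¹' U) = D := by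
        ext x'
        have h7 := hDU (g x') (mem_ptM_univ c _) x' (mem_ptM_univ c' _) (hg x')
        rw [← h7]
        simp only [Set.mem_preimage]
        have h8 : e.symm (q' x') = q (g x') := h2 x'
        rw [h8]
      rw [h6]
      exact hD
  · rintro ⟨e⟩
    have hEqv : ∀ x y x' y', e (q x) = q' x' → e (q y) = q' y' → (E x y ↔ E' x' y') := by
      intro x y x' y' h h'
      rw [hE, hE', ← h, ← h', e.injective.eq_iff]
    refine ⟨fun x x' => e (q x) = q' x', relM_univ hc hc' _, ?_, ?_, ?_, ?_, ?_⟩
    · intro x _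
      obtain ⟨x', hx'⟩ := hq' (e (q x))
      exact ⟨x', mem_ptM_univ c' x', hx'.symm⟩
    · intro x' _
      obtain ⟨x, hx⟩ := hq (e.symm (q' x'))
      refine ⟨x, mem_ptM_univ c x, ?_⟩
      change e (q x) = q' x'
      rw [hx, e.apply_symm_apply]
    · intro x _ y _ x' _ y' _ h h'
      exact hEqv x y x' y' h h'
    · intro D hD hinv
      have h1 : q ⁻¹' (q '' D) = D := by
        refine Set.Subset.antisymm ?_ (Set.subset_preimage_image q D)
        rintro x ⟨y, hy, hyx⟩
        exact (hinv x (mem_ptM_univ c x) y (mem_ptM_univ c y) ((hE x y).2 hyx.symm)).2 hy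
      have h2 : MeasurableSet (q '' D) := by rw [hm, h1]; exact hD
      have h3 : MeasurableSet (e.symm ⁻¹' (q '' D)) := e.symm.measurable h2
      refine ⟨q' ⁻¹' (e.symm ⁻¹' (q '' D)), (hm' _).1 h3, ?_, ?_⟩
      · intro x _ y _ hxy
        simp only [Set.mem_preimage]
        rw [(hE' x y).1 hxy]
      · intro x _ x' _ h
        have h' : e (q x) = q' x' := h
        simp only [Set.mem_preimage]
        rw [← h', e.symm_apply_apply, ← Set.mem_preimage, h1]
    · intro D hD hinv
      have h1 : q' ⁻¹' (q' '' D) = D := by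
        refine Set.Subset.antisymm ?_ (Set.subset_preimage_image q' D)
        rintro x ⟨y, hy, hyx⟩
        exact (hinv x (mem_ptM_univ c' x) y (mem_ptM_univ c' y) ((hE' x y).2 hyx.symm)).2 hy
      have h2 : MeasurableSet (q' '' D) := by rw [hm', h1]; exact hD
      have h3 : MeasurableSet (e ⁻¹' (q' '' D)) := e.measurable h2
      refine ⟨q ⁻¹' (e ⁻¹' (q' '' D)), (hm _).1 h3, ?_, ?_⟩
      · intro x _ y _ hxy
        simp only [Set.mem_preimage]
        rw [(hE x y).1 hxy]
      · intro x _ x' _ h
        have h' : e (q x) = q' x' := h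
        simp only [Set.mem_preimage]
        rw [h', ← Set.mem_preimage, h1]

theorem toNSpec_surjective {A : Type} [NonUnitalCStarAlgebra A] :
    Surjective (toNSpec : NIrr A → NSpec A) := Quotient.mk_surjective

theorem nequiv_iff {A : Type} [NonUnitalCStarAlgebra A] (σ τ : NIrr A) :
    NEquiv σ τ ↔ toNSpec σ = toNSpec τ :=
  (Quotient.eq (r := nSetoid A)).symm

theorem measurableSet_nspec {A : Type} [NonUnitalCStarAlgebra A] {x : ℕ → A} (hx : DenseRange x)
    (U : Set (NSpec A)) : MeasurableSet U ↔ BorM Set.univ (rcode x) (toNSpec ⁻¹' U) := by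
  rw [borM_univ (rcode_injective hx), ← borel_eq_comap hx]
  exact Iff.rfl

/-- For `M` = the universe: the spectra are isomorphic in `M` if and only if there is an
isomorphism of the Mackey Borel structures. -/
theorem specIsoM_univ {A B : Type} [NonUnitalCStarAlgebra A] [NonUnitalCStarAlgebra B]
    {x : ℕ → A} {y : ℕ → B} (hx : DenseRange x) (hy : DenseRange y) :
    SpecIsoM Set.univ x y ↔ Nonempty (NSpec A ≃ᵐ NSpec B) :=
  isoM_univ (rcode_injective hx) (rcode_injective hy) NEquiv NEquiv toNSpec toNSpec
    toNSpec_surjective toNSpec_surjective nequiv_iff nequiv_iff (measurableSet_nspec hx)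
    (measurableSet_nspec hy)

/-- The Borel sets of the Cantor space in the sense of the universe. -/
theorem borM_cantor (S : Set (ℕ → Bool)) :
    BorM Set.univ (fun ρ : ℕ → Bool => ρ) S ↔ MeasurableSet S := by
  rw [borM_univ (c := fun ρ : ℕ → Bool => ρ) (fun _ _ h => h)]
  have h : MeasurableSpace.comap (fun ρ : ℕ → Bool => ρ)
      (inferInstance : MeasurableSpace (ℕ → Bool)) =
      (inferInstance : MeasurableSpace (ℕ → Bool)) := MeasurableSpace.comap_id
  rw [h]

theorem isoM_subtype_univ {A : Type} [NonUnitalCStarAlgebra A] {x : ℕ → A} (hx : DenseRange x)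
    (S : Set (ℕ → Bool)) :
    IsoM Set.univ (rcode x) NEquiv (fun s : S => s.1) (fun s t : S => s = t) ↔
      Nonempty (@MeasurableEquiv (NSpec A) S _ Subtype.instMeasurableSpace) :=
  isoM_univ (rcode_injective hx) (c' := fun s : S => s.1) Subtype.val_injective NEquiv
    (fun s t : S => s = t) toNSpec (fun s : S => s) toNSpec_surjective surjective_id nequiv_iff
    (fun _ _ => Iff.rfl) (measurableSet_nspec hx)
    (fun U => by
      rw [borM_univ (c := fun s : S => s.1) Subtype.val_injective]
      exact Iff.rfl)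

/-- a measurable space isomorphic to a standard Borel space is a standard Borel space -/
theorem standardBorel_of_equiv {Q S : Type} [MeasurableSpace Q] [MeasurableSpace S]
    [h : StandardBorelSpace S] (e : Q ≃ᵐ S) : StandardBorelSpace Q := by
  obtain ⟨t, hb, hp⟩ := h.polish
  refine ⟨⟨t.induced e, ?_, @Equiv.polishSpace_induced Q S t hp e.toEquiv⟩⟩
  refine @BorelSpace.mk Q (t.induced e) _ ?_
  have h1 : MeasurableSpace.comap (e : Q → S) inferInstance = (inferInstance : MeasurableSpace Q) :=
    e.measurableEmbedding.comap_eq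
  have h2 : MeasurableSpace.comap (e : Q → S) inferInstance =
      MeasurableSpace.comap (e : Q → S) (@borel S t) :=
    congrArg (MeasurableSpace.comap (e : Q → S)) hb.measurable_eq
  exact h1.symm.trans (h2.trans (borel_comap (f := (e : Q → S)) (t := t)).symm)

/-- For `M` = the universe: the spectrum is standard in `M` if and only if it is a standard Borel
space. -/
theorem specStdM_univ {A : Type} [NonUnitalCStarAlgebra A] {x : ℕ → A} (hx : DenseRange x) :
    SpecStdM Set.univ x ↔ StandardBorelSpace (NSpec A) := by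
  constructor
  · rintro ⟨S, hS, hiso⟩
    obtain ⟨e⟩ := (isoM_subtype_univ hx S).1 hiso
    have h1 : MeasurableSet S := (borM_cantor S).1 hS
    have h2 : StandardBorelSpace S := h1.standardBorel
    exact standardBorel_of_equiv e
  · intro h
    have h1 : MeasurableEmbedding (MeasurableSpace.mapNatBool (NSpec A)) :=
      Measurable.measurableEmbedding (MeasurableSpace.measurable_mapNatBool _)
        (MeasurableSpace.injective_mapNatBool _)
    refine ⟨Set.range (MeasurableSpace.mapNatBool (NSpec A)), (borM_cantor _).2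
      h1.measurableSet_range, (isoM_subtype_univ hx _).2 ⟨h1.equivRange⟩⟩

end

end DX
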